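import Pool.Agent.Lib.MP_39df03_lc.Constr

/-!
# Basic properties of the construction
-/

namespace Pool.MP39df03

open Nat.Partrec (Code)
open Nat.Partrec.Code (evaln eval)

variable (T : ℕ → Bool)

/-- nodes before stage `s` -/
def Nn (s : ℕ) : List ℕ := (state T s).1
/-- dead nodes before stage `s` -/
def Dd (s : ℕ) : List ℕ := (state T s).2.1
/-- marks before stage `s` -/
def Mm (s : ℕ) : List (ℕ × ℕ) := (state T s).2.2
/-- guess at stage `s` -/
def del (s : ℕ) : List Bool := path s (Nn T s)

variable {T}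

theorem mem_M_succ {s e n : ℕ} : (e, n) ∈ Mm T (s + 1) ↔
    (e, n) ∈ Mm T s ∨ (e < s ∧ n ∈ Nn T s ∧ MarkCond s (state T s) e n) := by
  simp only [Mm, Nn, state, stepState, newM, List.mem_append, List.mem_filter, List.mem_flatMap,
    List.mem_range, List.mem_map, Prod.mk.injEq, decide_eq_true_eq]
  constructor
  · rintro (h | ⟨⟨e', he', n', hn', rfl, rfl⟩, h⟩)
    · left; exact h
    · right; exact ⟨he', hn', h⟩
  · rintro (h | ⟨h1, h2, h3⟩)
    · left; exact h
    · right; exact ⟨⟨e, h1, n, h2, rfl, rfl⟩, h3⟩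

theorem mem_D_succ {s n : ℕ} : n ∈ Dd T (s + 1) ↔
    n ∈ Dd T s ∨ (n ∈ Nn T s ∧ ∃ a, Desc a n ∧
      (leftOf (del T s) (gs a) ∨ ∃ e, (e, a) ∈ Mm T (s + 1))) := by
  have h1 : n ∈ Dd T (s + 1) ↔ n ∈ Dd T s ∨ (n ∈ Nn T s ∧
      KillCond (del T s) (Mm T (s + 1)) n) := by
    simp only [Dd, Nn, Mm, del, state, stepState, newD, List.mem_append, List.mem_filter,
      decide_eq_true_eq]
  rw [h1]
  refine or_congr Iff.rfl (and_congr Iff.rfl ?_)
  constructor
  · rintro ⟨j, hj, h⟩
    refine ⟨_, desc_iff.2 ⟨j, rfl⟩, ?_⟩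
    rcases h with h | ⟨⟨e, a⟩, h, h'⟩
    · left; exact h
    · right
      simp only at h'
      exact ⟨e, by rw [← h']; exact h⟩
  · rintro ⟨a, ⟨j, hj, rfl⟩, h⟩
    refine ⟨j, hj, ?_⟩
    rcases h with h | ⟨e, h⟩
    · left; exact h
    · right; exact ⟨_, h, rfl⟩

theorem mem_N_succ {s n : ℕ} : n ∈ Nn T (s + 1) ↔
    n ∈ Nn T s ∨ ∃ v m t, v ∈ Nn T s ∧ m ≤ s ∧ t < m ∧
      CreateCond T (del T s) (Nn T s) (Dd T (s + 1)) v m t ∧ n = mk v t ((del T s).take m) s := by
  simp only [Dd, Nn, del, state, stepState, newN, List.mem_append, List.mem_filter,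
    decide_eq_true_eq, List.mem_map, cands, List.mem_flatMap, List.mem_range, Prod.exists,
    Prod.mk.injEq]
  refine or_congr Iff.rfl ?_
  constructor
  · rintro ⟨v, m, t, ⟨⟨v', hv', m', hm', t', ht', rfl, rfl, rfl⟩, h2⟩, h3⟩
    exact ⟨v', m', t', hv', Nat.lt_succ_iff.1 hm', ht', h2, h3.symm⟩
  · rintro ⟨v, m, t, h1, h2, h3, h4, h5⟩
    exact ⟨v, m, t, ⟨⟨v, h1, m, Nat.lt_succ_iff.2 h2, t, h3, rfl, rfl, rfl⟩, h4⟩, h5.symm⟩

theorem N_mono {s t : ℕ} (h : s ≤ t) {n : ℕ} (hn : n ∈ Nn T s) : n ∈ Nn T t := by
  induction h with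
  | refl => exact hn
  | step _ ih => exact mem_N_succ.2 (Or.inl ih)

theorem D_mono {s t : ℕ} (h : s ≤ t) {n : ℕ} (hn : n ∈ Dd T s) : n ∈ Dd T t := by
  induction h with
  | refl => exact hn
  | step _ ih => exact mem_D_succ.2 (Or.inl ih)

theorem M_mono {s t : ℕ} (h : s ≤ t) {e n : ℕ} (hn : (e, n) ∈ Mm T s) : (e, n) ∈ Mm T t := by
  induction h with
  | refl => exact hn
  | step _ ih => exact mem_M_succ.2 (Or.inl ih)

theorem zero_mem_N (s : ℕ) : 0 ∈ Nn T s := N_mono (Nat.zero_le s) (by simp [Nn, state])

theorem D_sub_N {s n : ℕ} (h : n ∈ Dd T s) : n ∈ Nn T s := by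
  induction s with
  | zero => simp [Dd, state] at h
  | succ s ih =>
    rcases mem_D_succ.1 h with h | ⟨h, _⟩
    · exact N_mono (Nat.le_succ s) (ih h)
    · exact N_mono (Nat.le_succ s) h

theorem M_sub_D {s e n : ℕ} (h : (e, n) ∈ Mm T s) : n ∈ Dd T s := by
  induction s with
  | zero => simp [Mm, state] at h
  | succ s ih =>
    rcases mem_M_succ.1 h with h' | ⟨_, h', _⟩
    · exact D_mono (Nat.le_succ s) (ih h')
    · exact mem_D_succ.2 (Or.inr ⟨h', n, Desc.refl n, Or.inr ⟨e, h⟩⟩)

theorem M_ne_zero {s e n : ℕ} (h : (e, n) ∈ Mm T s) : n ≠ 0 := by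
  induction s with
  | zero => simp [Mm, state] at h
  | succ s ih =>
    rcases mem_M_succ.1 h with h' | ⟨_, _, h'⟩
    · exact ih h'
    · exact h'.1

theorem zero_not_mem_D (s : ℕ) : 0 ∉ Dd T s := by
  induction s with
  | zero => simp [Dd, state]
  | succ s ih =>
    intro h
    rcases mem_D_succ.1 h with h | ⟨_, a, ha, h⟩
    · exact ih h
    · have : a = 0 := Nat.le_zero.1 ha.le
      subst this
      rcases h with h | ⟨e, h⟩
      · rw [gs_zero] at h; exact leftOf_nil _ h
      · exact M_ne_zero h rfl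

/-- information on a newly created node -/
theorem born {s n : ℕ} (h : n ∈ Nn T (s + 1)) (h' : n ∉ Nn T s) :
    st n = s ∧ n ≠ 0 ∧ par n ∈ Nn T s ∧ par n ∉ Dd T (s + 1) ∧ gs (par n) <+: gs n ∧
      gs n = (del T s).take (gs n).length ∧ (gs n).length ≤ s ∧ tn n < (gs n).length ∧
      tn n ≠ 0 ∧ par (tn n) = tn (par n) ∧ T (tn n) = true ∧
      n = mk (par n) (tn n) (gs n) (st n) ∧
      ∀ n' ∈ Nn T s, par n' = par n → tn n' = tn n → gs n' = gs n → n' ∈ Dd T (s + 1) := by
  rcases mem_N_succ.1 h with h | ⟨v, m, t, h1, h2, h3, h4, rfl⟩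
  · exact absurd h h'
  obtain ⟨h5, h6, h7, h8, h9, h10⟩ := h4
  have hlen : (del T s).length = s := by
    have : ∀ k (N : List ℕ), ((pathStep s N)^[k] []).length = k := by
      intro k N
      induction k with
      | zero => rfl
      | succ k ih => rw [Function.iterate_succ_apply']; simp [pathStep, ih]
    exact this s _
  have hl : ((del T s).take m).length = m := by rw [List.length_take, hlen]; omega
  simp only [st_mk, par_mk, gs_mk, tn_mk, hl, true_and]
  exact ⟨mk_ne _ _ _ _, h1, h5, h9, h2, h3, h6, h7, h8, h10⟩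

theorem path_iter_length (s : ℕ) (N : List ℕ) (k : ℕ) : ((pathStep s N)^[k] []).length = k := by
  induction k with
  | zero => rfl
  | succ k ih => rw [Function.iterate_succ_apply']; simp [pathStep, ih]

@[simp] theorem del_length (s : ℕ) : (del T s).length = s := path_iter_length s _ s

theorem path_iter_prefix (s : ℕ) (N : List ℕ) {k l : ℕ} (h : k ≤ l) :
    (pathStep s N)^[k] [] <+: (pathStep s N)^[l] [] := by
  induction h with
  | refl => exact List.prefix_rfl
  | step _ ih =>
    rw [Function.iterate_succ_apply']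
    exact ih.trans (List.prefix_append _ _)

theorem del_take {s k : ℕ} (h : k ≤ s) : (del T s).take k = (pathStep s (Nn T s))^[k] [] := by
  have h1 := path_iter_prefix s (Nn T s) h
  rw [List.prefix_iff_eq_take, path_iter_length] at h1
  exact h1.symm

theorem del_take_succ {s k : ℕ} (h : k < s) :
    (del T s).take (k + 1) = (del T s).take k ++ [decide (∀ n ∈ Nn T s,
      ((del T s).take k ++ [true]) <+: gs n →
        (evaln s (Denumerable.ofNat Code k) n).isSome = true)] := by
  rw [del_take (Nat.succ_le_of_lt h), Function.iterate_succ_apply', ← del_take h.le]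
  have : ((del T s).take k).length = k := by rw [List.length_take, del_length]; omega
  unfold pathStep
  rw [this]

/-- if a guess with last bit `true` is followed, then the corresponding computations converge on
all nodes with that guess -/
theorem conv_of_true {s : ℕ} {γ : List Bool} (h : (γ ++ [true]) <+: del T s) {n : ℕ}
    (hn : n ∈ Nn T s) (hg : (γ ++ [true]) <+: gs n) :
    (evaln s (Denumerable.ofNat Code γ.length) n).isSome = true := by
  have hl : γ.length < s := by
    have := h.length_le
    simp at this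
    omega
  have h1 : (del T s).take γ.length = γ := by
    have h2 : γ <+: del T s := (List.prefix_append _ _).trans h
    exact (List.prefix_iff_eq_take.1 h2).symm
  have h3 : (del T s).take (γ.length + 1) = γ ++ [true] := by
    rw [List.prefix_iff_eq_take] at h
    simpa using h.symm
  rw [del_take_succ hl, h1] at h3
  simp only [List.append_cancel_left_eq, List.cons.injEq, decide_eq_true_eq, and_true] at h3
  exact h3 n hn hg

/-- conversely -/
theorem true_of_conv {s : ℕ} {γ : List Bool} (h : γ <+: del T s) (hl : γ.length < s)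
    (hc : ∀ n ∈ Nn T s, (γ ++ [true]) <+: gs n →
      (evaln s (Denumerable.ofNat Code γ.length) n).isSome = true) :
    (γ ++ [true]) <+: del T s := by
  have h1 : (del T s).take γ.length = γ := (List.prefix_iff_eq_take.1 h).symm
  have h2 := del_take_succ (T := T) hl
  rw [h1] at h2
  rw [decide_eq_true hc] at h2
  rw [← h2]
  exact List.take_prefix _ _

theorem N_st {s n : ℕ} (h : n ∈ Nn T s) : n = 0 ∨ st n < s := by
  induction s with
  | zero => left; simpa [Nn, state] using h
  | succ s ih =>
    by_cases h' : n ∈ Nn T s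
    · rcases ih h' with h | h
      · left; exact h
      · right; omega
    · right
      have := (born h h').1
      omega

/-- `n` is a node -/
def Node (T : ℕ → Bool) (n : ℕ) : Prop := n ∈ Nn T (st n + 1)

theorem node_of_mem {s n : ℕ} (h : n ∈ Nn T s) : Node T n := by
  induction s with
  | zero =>
    have : n = 0 := by simpa [Nn, state] using h
    subst this
    exact zero_mem_N _
  | succ s ih =>
    by_cases h' : n ∈ Nn T s
    · exact ih h'
    · have := (born h h').1
      unfold Node
      rw [this]; exact h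

theorem mem_of_node {s n : ℕ} (h : Node T n) (hs : st n < s) : n ∈ Nn T s :=
  N_mono (Nat.succ_le_of_lt hs) h

theorem node_not_mem {n : ℕ} (_h : Node T n) (h0 : n ≠ 0) : n ∉ Nn T (st n) := by
  intro h'
  rcases N_st h' with h' | h'
  · exact h0 h'
  · omega

/-- all the information on a node `n ≠ 0` -/
theorem node_info {n : ℕ} (h : Node T n) (h0 : n ≠ 0) :
    par n ∈ Nn T (st n) ∧ par n ∉ Dd T (st n + 1) ∧ gs (par n) <+: gs n ∧
      gs n <+: del T (st n) ∧ (gs n).length ≤ st n ∧ tn n < (gs n).length ∧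
      tn n ≠ 0 ∧ par (tn n) = tn (par n) ∧ T (tn n) = true ∧
      n = mk (par n) (tn n) (gs n) (st n) ∧
      ∀ n' ∈ Nn T (st n), par n' = par n → tn n' = tn n → gs n' = gs n →
        n' ∈ Dd T (st n + 1) := by
  obtain ⟨_, _, h3, h4, h5, h6, h7, h8, h9, h10, h11, h12, h13⟩ := born h (node_not_mem h h0)
  exact ⟨h3, h4, h5, by rw [h6]; exact List.take_prefix _ _, h7, h8, h9, h10, h11, h12, h13⟩

theorem node_par {n : ℕ} (h : Node T n) : Node T (par n) := by
  by_cases h0 : n = 0
  · subst h0; simpa using h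
  · exact node_of_mem (node_info h h0).1

theorem N_par {s n : ℕ} (h : n ∈ Nn T s) : par n ∈ Nn T s := by
  by_cases h0 : n = 0
  · subst h0; simpa using h
  · rcases N_st h with h' | h'
    · exact absurd h' h0
    · exact N_mono h'.le (node_info (node_of_mem h) h0).1

theorem N_desc {s a n : ℕ} (h : n ∈ Nn T s) (ha : Desc a n) : a ∈ Nn T s := by
  obtain ⟨i, rfl⟩ := desc_iff.1 ha
  clear ha
  induction i with
  | zero => exact h
  | succ i ih => rw [Function.iterate_succ_apply']; exact N_par ih

theorem gs_desc {s a n : ℕ} (h : n ∈ Nn T s) (ha : Desc a n) : gs a <+: gs n := by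
  obtain ⟨i, rfl⟩ := desc_iff.1 ha
  have : ∀ i, gs (par^[i] n) <+: gs n := by
    intro i
    induction i with
    | zero => exact List.prefix_rfl
    | succ i ih =>
      rw [Function.iterate_succ_apply']
      by_cases h0 : par^[i] n = 0
      · rw [h0]; simp
      · refine List.IsPrefix.trans ?_ ih
        exact (node_info (node_of_mem (N_desc h (desc_iff.2 ⟨i, rfl⟩))) h0).2.2.1
  exact this i

/-- dead nodes are closed under descendants -/
theorem D_closed {s a n : ℕ} (ha : a ∈ Dd T s) (hn : n ∈ Nn T s) (h : Desc a n) :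
    n ∈ Dd T s := by
  induction s generalizing a n with
  | zero => simp [Dd, state] at ha
  | succ s ih =>
    have key : ∀ n, n ∈ Nn T s → Desc a n → n ∈ Dd T (s + 1) := by
      intro n hn h
      rcases mem_D_succ.1 ha with ha | ⟨_, b, hb, h'⟩
      · exact mem_D_succ.2 (Or.inl (ih ha hn h))
      · exact mem_D_succ.2 (Or.inr ⟨hn, b, hb.trans h, h'⟩)
    by_cases hn' : n ∈ Nn T s
    · exact key n hn' h
    · exfalso
      have hb := born hn hn'
      rcases desc_cases h with h' | h'
      · subst h'
        rcases mem_D_succ.1 ha with ha | ⟨ha, _⟩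
        · exact hn' (D_sub_N ha)
        · exact hn' ha
      · exact hb.2.2.2.1 (key _ hb.2.2.1 h')

/-- nothing is created above a dead node -/
theorem frozen {s t a n : ℕ} (ha : a ∈ Dd T (s + 1)) (ha' : a ∈ Nn T s) (hst : s ≤ t)
    (hn : n ∈ Nn T t) (h : Desc a n) : n ∈ Nn T s := by
  induction hst generalizing n with
  | refl => exact hn
  | @step t hst ih =>
    have hst' : s ≤ t := hst
    by_cases hn' : n ∈ Nn T t
    · exact ih hn' h
    · exfalso
      have hb := born hn hn'
      rcases desc_cases h with h' | h'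
      · subst h'; exact hn' (N_mono hst ha')
      · have h1 : par n ∈ Nn T s := ih hb.2.2.1 h'
        have h2 : par n ∈ Dd T (s + 1) := D_closed ha (N_mono (Nat.le_succ s) h1) h'
        exact hb.2.2.2.1 (D_mono (by omega) h2)

theorem nodup_N (s : ℕ) : (Nn T s).Nodup := by
  induction s with
  | zero => simp [Nn, state]
  | succ s ih =>
    have h1 : Nn T (s + 1) = Nn T s ++ ((cands s (Nn T s)).filter fun z =>
        CreateCond T (del T s) (Nn T s) (Dd T (s + 1)) z.1 z.2.1 z.2.2).map
          fun z => mk z.1 z.2.2 ((del T s).take z.2.1) s := rfl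
    rw [h1, List.nodup_append]
    have hc : ∀ z ∈ cands s (Nn T s), z.1 ∈ Nn T s ∧ z.2.1 ≤ s ∧ z.2.2 < z.2.1 := by
      rintro ⟨v, m, t⟩ hz
      simp only [cands, List.mem_flatMap, List.mem_range, List.mem_map, Prod.mk.injEq] at hz
      obtain ⟨v', hv', m', hm', t', ht', rfl, rfl, rfl⟩ := hz
      exact ⟨hv', Nat.lt_succ_iff.1 hm', ht'⟩
    refine ⟨ih, ?_, ?_⟩
    · refine List.Nodup.map_on ?_ (List.Nodup.filter _ ?_)
      · intro x hx y hy hxy
        have hx' := hc x (List.mem_of_mem_filter hx)
        have hy' := hc y (List.mem_of_mem_filter hy)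
        have e1 := congrArg par hxy
        have e2 := congrArg tn hxy
        have e3 := congrArg (fun n => (gs n).length) hxy
        simp only [par_mk, tn_mk, gs_mk, List.length_take, del_length] at e1 e2 e3
        rw [min_eq_left hx'.2.1, min_eq_left hy'.2.1] at e3
        exact Prod.ext e1 (Prod.ext e3 e2)
      · rw [cands, List.nodup_flatMap]
        refine ⟨fun v _ => ?_, ?_⟩
        · rw [List.nodup_flatMap]
          refine ⟨fun m _ => ?_, ?_⟩
          · refine List.Nodup.map ?_ List.nodup_range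
            intro x y hxy
            simpa using hxy
          · refine List.nodup_range.imp_of_mem ?_
            intro a b _ _ hab
            simp only [Function.onFun, List.disjoint_left, List.mem_map, List.mem_range]
            rintro _ ⟨t, _, rfl⟩ ⟨t', _, h⟩
            simp only [Prod.mk.injEq] at h
            exact hab h.2.1.symm
        · refine ih.imp_of_mem ?_
          intro a b _ _ hab
          simp only [Function.onFun, List.disjoint_left, List.mem_flatMap, List.mem_map,
            List.mem_range]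
          rintro _ ⟨m, _, t, _, rfl⟩ ⟨m', _, t', _, h⟩
          simp only [Prod.mk.injEq] at h
          exact hab h.1.symm
    · intro a ha b hb hab
      subst hab
      simp only [List.mem_map, List.mem_filter] at hb
      obtain ⟨z, _, rfl⟩ := hb
      rcases N_st ha with h | h
      · exact mk_ne _ _ _ _ h
      · rw [st_mk] at h; omega

end Pool.MP39df03
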