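import Pool.Agent.Lib.MP_39df03_lc.System

/-!
# The class `K` and its definability
-/

namespace Pool.MP39df03

open Nat.Partrec (Code)
open Nat.Partrec.Code (evaln eval)

/-! ### Primitive recursiveness of the relations -/

theorem prim_testBit : Primrec₂ Nat.testBit := by
  have hpow : Primrec₂ fun a b : ℕ => a ^ b := Primrec₂.unpaired'.1 Nat.Primrec.pow
  have h : PrimrecPred fun z : ℕ × ℕ => z.1 / 2 ^ z.2 % 2 = 1 := by
    refine Primrec.eq.comp (Primrec.nat_mod.comp (Primrec.nat_div.comp .fst ?_)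
      (Primrec.const 2)) (Primrec.const 1)
    exact hpow.comp (Primrec.const 2) .snd
  refine (Primrec₂.of_eq (f := fun a b : ℕ => decide (a / 2 ^ b % 2 = 1)) h.decide ?_)
  intro a b
  rw [Nat.testBit_eq_decide_div_mod_eq]

theorem prim_cnt {α : Type} [Primcodable α] {C : α → ℕ → ℕ → Bool}
    (hC : Primrec fun z : α × ℕ × ℕ => C z.1 z.2.1 z.2.2) {w l : α → ℕ} (hw : Primrec w)
    (hl : Primrec l) : Primrec fun a => cnt (C a) (w a) (l a) := by
  have h1 : PrimrecPred fun z : α × ℕ => C z.1 (w z.1) z.2 = true ∧ (l z.1).testBit z.2 = true := by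
    refine PrimrecPred.and ?_ ?_
    · exact Primrec.eq.comp (hC.comp (g := fun z : α × ℕ => (z.1, w z.1, z.2))
        (Primrec.fst.pair ((hw.comp .fst).pair .snd))) (Primrec.const true)
    · exact Primrec.eq.comp (prim_testBit.comp (hl.comp .fst) .snd) (Primrec.const true)
  have h2 := Primrec.list_length.comp (pfilter (f := fun a : α => List.range (l a))
    (p := fun a n => C a (w a) n = true ∧ (l a).testBit n = true)
    (Primrec.list_range.comp hl) h1)
  refine h2.of_eq fun a => ?_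
  unfold cnt
  congr 1
  refine List.filter_congr fun n _ => ?_
  rw [Bool.decide_and]; simp

theorem prim_TSr {α : Type} [Primcodable α] {C : ℕ → ℕ → ℕ → Bool}
    (hC : Primrec fun z : ℕ × ℕ × ℕ => C z.1 z.2.1 z.2.2) {Rt : ℕ → Bool} (hR : Primrec Rt)
    {y x β i v m w l : α → ℕ} (hy : Primrec y) (hx : Primrec x) (hβ : Primrec β) (hi : Primrec i)
    (hv : Primrec v) (hm : Primrec m) (hw : Primrec w) (hl : Primrec l) :
    PrimrecPred fun z : α => TSr (C (y z)) Rt (x z) (β z) (i z) (v z) (m z) (w z) (l z) := by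
  have hi1 : Primrec fun z => (i z).unpair.1 := Primrec.fst.comp (Primrec.unpair.comp hi)
  have hi2 : Primrec fun z => (i z).unpair.2 := Primrec.snd.comp (Primrec.unpair.comp hi)
  have hC' : Primrec fun z : α × ℕ × ℕ => C (y z.1) z.2.1 z.2.2 :=
    hC.comp (g := fun z : α × ℕ × ℕ => (y z.1, z.2.1, z.2.2)) ((hy.comp .fst).pair .snd)
  have hcnt : Primrec fun z => cnt (C (y z)) (w z) (l z) :=
    prim_cnt (C := fun z => C (y z)) hC' hw hl
  have htb : Primrec fun z => ((m z).testBit (w z)).toNat := by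
    refine (Primrec.ite (c := fun z => (m z).testBit (w z) = true)
      (Primrec.eq.comp (prim_testBit.comp hm hw) (Primrec.const true))
      (Primrec.const 1) (Primrec.const 0)).of_eq fun z => ?_
    rcases (m z).testBit (w z) with _ | _ <;> simp
  have k0 : PrimrecPred fun z : α => (i z).unpair.1 = 0 ∧ w z = (i z).unpair.2 :=
    PrimrecPred.and (Primrec.eq.comp hi1 (Primrec.const 0)) (Primrec.eq.comp hw hi2)
  have k1 : PrimrecPred fun z : α => (i z).unpair.1 = 1 ∧ v z = w z ∧
      (m z).testBit (i z).unpair.2 ≠ (l z).testBit (i z).unpair.2 := by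
    refine PrimrecPred.and (Primrec.eq.comp hi1 (Primrec.const 1))
      (PrimrecPred.and (Primrec.eq.comp hv hw) (PrimrecPred.not ?_))
    exact Primrec.eq.comp (prim_testBit.comp hm hi2) (prim_testBit.comp hl hi2)
  have k2 : PrimrecPred fun z : α => (i z).unpair.1 = 2 ∧ C (y z) (w z) (i z).unpair.2 = false ∧
      (l z).testBit (i z).unpair.2 = true := by
    refine PrimrecPred.and (Primrec.eq.comp hi1 (Primrec.const 2)) (PrimrecPred.and ?_ ?_)
    · exact Primrec.eq.comp (hC.comp (hy.pair (hw.pair hi2))) (Primrec.const false)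
    · exact Primrec.eq.comp (prim_testBit.comp hl hi2) (Primrec.const true)
  have s3 : Primrec fun z : α => (cnt (C (y z)) (w z) (l z) + β z) % 2 :=
    Primrec.nat_mod.comp (Primrec.nat_add.comp hcnt hβ) (Primrec.const 2)
  have k3 : PrimrecPred fun z : α => (i z).unpair.1 = 3 ∧ Rt (w z) = true ∧
      (cnt (C (y z)) (w z) (l z) + β z) % 2 = 1 := by
    refine PrimrecPred.and (Primrec.eq.comp hi1 (Primrec.const 3)) (PrimrecPred.and ?_ ?_)
    · exact Primrec.eq.comp (hR.comp hw) (Primrec.const true)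
    · exact Primrec.eq.comp s3 (Primrec.const 1)
  have s4 : Primrec fun z : α =>
      (((m z).testBit (w z)).toNat + cnt (C (y z)) (w z) (l z) + β z) % 2 :=
    Primrec.nat_mod.comp (Primrec.nat_add.comp (Primrec.nat_add.comp htb hcnt) hβ)
      (Primrec.const 2)
  have k4 : PrimrecPred fun z : α => (i z).unpair.1 = 4 ∧ C (y z) (v z) (w z) = true ∧
      (((m z).testBit (w z)).toNat + cnt (C (y z)) (w z) (l z) + β z) % 2 = 1 := by
    refine PrimrecPred.and (Primrec.eq.comp hi1 (Primrec.const 4)) (PrimrecPred.and ?_ ?_)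
    · exact Primrec.eq.comp (hC.comp (hy.pair (hv.pair hw))) (Primrec.const true)
    · exact Primrec.eq.comp s4 (Primrec.const 1)
  have k5 : PrimrecPred fun z : α => (i z).unpair.1 = 5 ∧ (i z).unpair.2 = x z :=
    PrimrecPred.and (Primrec.eq.comp hi1 (Primrec.const 5)) (Primrec.eq.comp hi2 hx)
  exact k0.or (k1.or (k2.or (k3.or (k4.or k5))))

/-! ### The trees -/

/-- child relation of the `x`-th constructed tree, decidable form -/
def Cx (x v w : ℕ) : Bool := decide (w ≠ 0 ∧ w ∈ Nn (treeOf x) (st w + 1) ∧ par w = v)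

/-- the root -/
def Rt0 (w : ℕ) : Bool := decide (w = 0)

theorem cx_iff {x v w : ℕ} : Cx x v w = true ↔ Chl (treeOf x) v w := by
  unfold Cx Chl Node
  rw [decide_eq_true_eq]

theorem rt0_iff {w : ℕ} : Rt0 w = true ↔ w = 0 := by
  unfold Rt0; rw [decide_eq_true_eq]

theorem prim_Rt0 : Primrec Rt0 :=
  (Primrec.eq.comp Primrec.id (Primrec.const 0) : PrimrecPred fun w : ℕ => w = 0).decide

theorem prim_Cx : Primrec fun z : ℕ × ℕ × ℕ => Cx z.1 z.2.1 z.2.2 := by
  have hw : Primrec fun z : ℕ × ℕ × ℕ => z.2.2 := Primrec.snd.comp .snd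
  have h : PrimrecPred fun z : ℕ × ℕ × ℕ =>
      z.2.2 ≠ 0 ∧ z.2.2 ∈ Nn (treeOf z.1) (st z.2.2 + 1) ∧ par z.2.2 = z.2.1 := by
    refine PrimrecPred.and (Primrec.eq.comp hw (Primrec.const 0)).not (PrimrecPred.and ?_ ?_)
    · refine prim_mem ?_ hw
      exact Primrec.fst.comp ((prim_state prim_treeOf).comp .fst
        (Primrec.succ.comp (prim_st.comp hw)))
    · exact Primrec.eq.comp (prim_par.comp hw) (Primrec.fst.comp .snd)
  exact h.decide

theorem prim_marks : PrimrecPred fun z : ℕ × ℕ × ℕ × ℕ =>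
    (z.2.1, z.2.2.1) ∈ Mm (treeOf z.1) z.2.2.2 := by
  refine prim_mem ?_ ((Primrec.fst.comp .snd).pair (Primrec.fst.comp (Primrec.snd.comp .snd)))
  exact Primrec.snd.comp (Primrec.snd.comp ((prim_state prim_treeOf).comp .fst
    (Primrec.snd.comp (Primrec.snd.comp .snd))))

theorem cx_unique {x v v' w : ℕ} (h : Cx x v w = true) (h' : Cx x v' w = true) : v = v' := by
  rw [cx_iff] at h h'
  exact h.2.2.symm.trans h'.2.2

theorem cx_root {x w : ℕ} (h : Rt0 w = true) (v : ℕ) : ¬ Cx x v w = true := by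
  intro h'
  rw [cx_iff] at h'
  exact h'.1 (rt0_iff.1 h)

/-! ### Definability of systems -/

section

variable {α : Type} [Primcodable α]

theorem D11_least {e v p : α → ℕ} (he : Computable e) (hv : Computable v) (hp : Computable p) :
    D11 fun a => Least (At (e a)) (v a) (p a) := by
  have hpair : ∀ {β : Type} [Primcodable β] {v : β → ℕ}, Computable v →
      Computable fun a => Nat.pair 0 (v a) := fun hv =>
    (Primrec₂.natPair.to_comp).comp (Computable.const 0) hv
  refine D11.and (D11_at he (hpair hv) hp hp) (D11.all (D11.imp ?_ (D11.not ?_)))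
  · exact (D11.of_primrecPred Primrec.nat_lt).comp (Computable.pair .snd (hp.comp .fst))
  · exact D11_at (he.comp .fst) (hpair (hv.comp .fst)) .snd .snd

theorem D11_gr {C : ℕ → ℕ → ℕ → Bool} (hC : Primrec fun z : ℕ × ℕ × ℕ => C z.1 z.2.1 z.2.2)
    {e x a v m : α → ℕ} (he : Computable e) (hx : Computable x) (ha : Computable a)
    (hv : Computable v) (hm : Computable m) :
    D11 fun z => Gr (At (e z)) (C (x z)) (a z) (v z) (m z) := by
  have hpair : ∀ {β : Type} [Primcodable β] {v : β → ℕ} (n : ℕ), Computable v →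
      Computable fun a => Nat.pair n (v a) := fun n hv =>
    (Primrec₂.natPair.to_comp).comp (Computable.const n) hv
  have hCb : ∀ b : Bool, D11 fun z : α × ℕ => C (x z.1) (v z.1) z.2 = b := by
    intro b
    refine (D11.of_primrecPred (Primrec.eq.comp hC (Primrec.const b))).comp
      (f := fun z : α × ℕ => (x z.1, v z.1, z.2)) ?_
    exact (hx.comp .fst).pair ((hv.comp .fst).pair .snd)
  refine D11.and (D11_at he (hpair 0 hv) ha ha) (D11.all (D11.iff (D11.or (D11.and (hCb true)
    (D11.ex (D11.and ?_ ?_))) (D11.and (hCb false) ?_)) ?_))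
  · exact D11_least (he.comp (Computable.fst.comp .fst)) (hv.comp (Computable.fst.comp .fst)) .snd
  · exact D11_at (he.comp (Computable.fst.comp .fst)) (hpair 1 (Computable.snd.comp .fst)) .snd
      (ha.comp (Computable.fst.comp .fst))
  · exact D11_at (he.comp .fst) (hpair 2 .snd) (ha.comp .fst) (ha.comp .fst)
  · refine (D11.of_primrecPred (Primrec.eq.comp (prim_testBit.comp Primrec.fst Primrec.snd)
      (Primrec.const true))).comp (f := fun z : α × ℕ => (m z.1, z.2)) ?_
    exact (hm.comp .fst).pair .snd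

end

theorem D11_sys {C : ℕ → ℕ → ℕ → Bool} (hC : Primrec fun z : ℕ × ℕ × ℕ => C z.1 z.2.1 z.2.2)
    {Rt : ℕ → Bool} (hR : Primrec Rt) :
    D11 fun z : ℕ × ℕ => Sys (At z.1) (C z.2) Rt z.2 := by
  refine D11.and ?_ (D11.and ?_ (D11.and ?_ ?_))
  · refine D11.all (D11.ex (D11.ex ?_))
    have h1 : Computable fun z : (((ℕ × ℕ) × ℕ) × ℕ) × ℕ => z.1.1.1 :=
      Computable.fst.comp (Computable.fst.comp .fst)
    exact D11_gr hC (Computable.fst.comp h1) (Computable.snd.comp h1)
      (Computable.snd.comp (Computable.fst.comp .fst)) (Computable.snd.comp .fst) .snd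
  · refine D11.all (D11.all (D11.ex ?_))
    have h1 : Computable fun z : (((ℕ × ℕ) × ℕ) × ℕ) × ℕ => z.1.1.1 :=
      Computable.fst.comp (Computable.fst.comp .fst)
    exact D11_gr hC (Computable.fst.comp h1) (Computable.snd.comp h1) .snd
      (Computable.snd.comp (Computable.fst.comp .fst)) (Computable.snd.comp .fst)
  · refine D11.all (D11.all (D11.all (D11.all (D11.imp ?_ (D11.imp ?_ ?_)))))
    · have h1 : Computable fun z : ((((ℕ × ℕ) × ℕ) × ℕ) × ℕ) × ℕ => z.1.1.1.1 :=
        Computable.fst.comp (Computable.fst.comp (Computable.fst.comp .fst))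
      exact D11_gr hC (Computable.fst.comp h1) (Computable.snd.comp h1)
        (Computable.snd.comp (Computable.fst.comp (Computable.fst.comp .fst)))
        (Computable.snd.comp .fst) .snd
    · have h1 : Computable fun z : ((((ℕ × ℕ) × ℕ) × ℕ) × ℕ) × ℕ => z.1.1.1.1 :=
        Computable.fst.comp (Computable.fst.comp (Computable.fst.comp .fst))
      exact D11_gr hC (Computable.fst.comp h1) (Computable.snd.comp h1)
        (Computable.snd.comp (Computable.fst.comp .fst))
        (Computable.snd.comp .fst) .snd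
    · refine (D11.of_primrecPred (Primrec.eq (α := ℕ))).comp
        (f := fun z : ((((ℕ × ℕ) × ℕ) × ℕ) × ℕ) × ℕ => (z.1.1.1.2, z.1.1.2)) ?_
      exact (Computable.snd.comp (Computable.fst.comp (Computable.fst.comp .fst))).pair
        (Computable.snd.comp (Computable.fst.comp .fst))
  · refine D11.all (D11.ex (D11.all (D11.all (D11.all (D11.all (D11.all (D11.imp ?_
      (D11.imp ?_ (D11.all (D11.iff ?_ ?_))))))))))
    · -- z = (((((((p, w), β), a), b), v), m), l)
      have h7 : Computable fun z : (((((((ℕ × ℕ) × ℕ) × ℕ) × ℕ) × ℕ) × ℕ) × ℕ) × ℕ =>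
          z.1.1.1.1.1.1.1 := Computable.fst.comp (Computable.fst.comp (Computable.fst.comp
            (Computable.fst.comp (Computable.fst.comp (Computable.fst.comp .fst)))))
      have ha : Computable fun z : (((((((ℕ × ℕ) × ℕ) × ℕ) × ℕ) × ℕ) × ℕ) × ℕ) × ℕ =>
          z.1.1.1.1.2 := Computable.snd.comp (Computable.fst.comp (Computable.fst.comp
            (Computable.fst.comp .fst)))
      have hv : Computable fun z : (((((((ℕ × ℕ) × ℕ) × ℕ) × ℕ) × ℕ) × ℕ) × ℕ) × ℕ =>
          z.1.1.2 := Computable.snd.comp (Computable.fst.comp .fst)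
      have hm : Computable fun z : (((((((ℕ × ℕ) × ℕ) × ℕ) × ℕ) × ℕ) × ℕ) × ℕ) × ℕ =>
          z.1.2 := Computable.snd.comp .fst
      exact D11_gr hC (Computable.fst.comp h7) (Computable.snd.comp h7) ha hv hm
    · have h7 : Computable fun z : (((((((ℕ × ℕ) × ℕ) × ℕ) × ℕ) × ℕ) × ℕ) × ℕ) × ℕ =>
          z.1.1.1.1.1.1.1 := Computable.fst.comp (Computable.fst.comp (Computable.fst.comp
            (Computable.fst.comp (Computable.fst.comp (Computable.fst.comp .fst)))))
      have hw : Computable fun z : (((((((ℕ × ℕ) × ℕ) × ℕ) × ℕ) × ℕ) × ℕ) × ℕ) × ℕ =>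
          z.1.1.1.1.1.1.2 := Computable.snd.comp (Computable.fst.comp (Computable.fst.comp
            (Computable.fst.comp (Computable.fst.comp (Computable.fst.comp .fst)))))
      have hb : Computable fun z : (((((((ℕ × ℕ) × ℕ) × ℕ) × ℕ) × ℕ) × ℕ) × ℕ) × ℕ =>
          z.1.1.1.2 := Computable.snd.comp (Computable.fst.comp (Computable.fst.comp .fst))
      exact D11_gr hC (Computable.fst.comp h7) (Computable.snd.comp h7) hb hw .snd
    · have h8 : Computable fun z : ((((((((ℕ × ℕ) × ℕ) × ℕ) × ℕ) × ℕ) × ℕ) × ℕ) × ℕ) × ℕ =>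
          z.1.1.1.1.1.1.1.1 := Computable.fst.comp (Computable.fst.comp (Computable.fst.comp
            (Computable.fst.comp (Computable.fst.comp (Computable.fst.comp
              (Computable.fst.comp .fst))))))
      have ha : Computable fun z : ((((((((ℕ × ℕ) × ℕ) × ℕ) × ℕ) × ℕ) × ℕ) × ℕ) × ℕ) × ℕ =>
          z.1.1.1.1.1.2 := Computable.snd.comp (Computable.fst.comp (Computable.fst.comp
            (Computable.fst.comp (Computable.fst.comp .fst))))
      have hb : Computable fun z : ((((((((ℕ × ℕ) × ℕ) × ℕ) × ℕ) × ℕ) × ℕ) × ℕ) × ℕ) × ℕ =>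
          z.1.1.1.1.2 := Computable.snd.comp (Computable.fst.comp (Computable.fst.comp
            (Computable.fst.comp .fst)))
      exact D11_at (Computable.fst.comp h8) .snd ha hb
    · have h8 : Primrec fun z : ((((((((ℕ × ℕ) × ℕ) × ℕ) × ℕ) × ℕ) × ℕ) × ℕ) × ℕ) × ℕ =>
          z.1.1.1.1.1.1.1.1 := Primrec.fst.comp (Primrec.fst.comp (Primrec.fst.comp
            (Primrec.fst.comp (Primrec.fst.comp (Primrec.fst.comp
              (Primrec.fst.comp .fst))))))
      have hw : Primrec fun z : ((((((((ℕ × ℕ) × ℕ) × ℕ) × ℕ) × ℕ) × ℕ) × ℕ) × ℕ) × ℕ =>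
          z.1.1.1.1.1.1.1.2 := Primrec.snd.comp (Primrec.fst.comp (Primrec.fst.comp
            (Primrec.fst.comp (Primrec.fst.comp (Primrec.fst.comp
              (Primrec.fst.comp .fst))))))
      have hβ : Primrec fun z : ((((((((ℕ × ℕ) × ℕ) × ℕ) × ℕ) × ℕ) × ℕ) × ℕ) × ℕ) × ℕ =>
          z.1.1.1.1.1.1.2 := Primrec.snd.comp (Primrec.fst.comp (Primrec.fst.comp
            (Primrec.fst.comp (Primrec.fst.comp (Primrec.fst.comp .fst)))))
      have hv : Primrec fun z : ((((((((ℕ × ℕ) × ℕ) × ℕ) × ℕ) × ℕ) × ℕ) × ℕ) × ℕ) × ℕ =>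
          z.1.1.1.2 := Primrec.snd.comp (Primrec.fst.comp (Primrec.fst.comp .fst))
      have hm : Primrec fun z : ((((((((ℕ × ℕ) × ℕ) × ℕ) × ℕ) × ℕ) × ℕ) × ℕ) × ℕ) × ℕ =>
          z.1.1.2 := Primrec.snd.comp (Primrec.fst.comp .fst)
      have hl : Primrec fun z : ((((((((ℕ × ℕ) × ℕ) × ℕ) × ℕ) × ℕ) × ℕ) × ℕ) × ℕ) × ℕ =>
          z.1.2 := Primrec.snd.comp .fst
      exact D11.of_primrecPred (prim_TSr hC hR (Primrec.snd.comp h8) (Primrec.snd.comp h8) hβ .snd
        hv hm hw hl)

end Pool.MP39df03
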