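import Pool.Agent.Lib.MP_39df03_lc.Sig

/-!
# The tree construction

Given a decidable tree `T` (coded on `ℕ` by the parent function `par`), we build a decidable tree
`T'` (again with parent function `par`) together with marks.
-/

namespace Pool.MP39df03

open Nat.Partrec (Code)
open Nat.Partrec.Code (evaln eval)

/-! ### Node data -/

/-- parent function -/
def par (n : ℕ) : ℕ := (n - 1).unpair.2

/-- the label of a node -/
def dat (n : ℕ) : ℕ := (n - 1).unpair.1

/-- the `T`-node to which a node is attached -/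
def tn (n : ℕ) : ℕ := (dat n).unpair.1

/-- the guess of a node -/
def gs (n : ℕ) : List Bool := (Encodable.decode (α := List Bool) (dat n).unpair.2.unpair.1).getD []

/-- the stage of a node -/
def st (n : ℕ) : ℕ := (dat n).unpair.2.unpair.2

/-- the node with given data -/
def mk (v t : ℕ) (γ : List Bool) (s : ℕ) : ℕ :=
  Nat.pair (Nat.pair t (Nat.pair (Encodable.encode γ) s)) v + 1

@[simp] theorem par_mk (v t γ s) : par (mk v t γ s) = v := by simp [par, mk]
@[simp] theorem tn_mk (v t γ s) : tn (mk v t γ s) = t := by simp [tn, dat, mk]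
@[simp] theorem gs_mk (v t γ s) : gs (mk v t γ s) = γ := by simp [gs, dat, mk]
@[simp] theorem st_mk (v t γ s) : st (mk v t γ s) = s := by simp [st, dat, mk]
@[simp] theorem mk_ne (v t γ s) : mk v t γ s ≠ 0 := by simp [mk]

@[simp] theorem par_zero : par 0 = 0 := by simp [par]
@[simp] theorem dat_zero : dat 0 = 0 := by simp [dat]
@[simp] theorem tn_zero : tn 0 = 0 := by simp [tn]
@[simp] theorem st_zero : st 0 = 0 := by simp [st]
@[simp] theorem gs_zero : gs 0 = [] := by simp [gs]

theorem par_lt {n : ℕ} (h : n ≠ 0) : par n < n := by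
  have := Nat.unpair_right_le (n - 1)
  unfold par; omega

/-- `ρ` is a descendant of `τ` (or `ρ = τ`) -/
def Desc (τ ρ : ℕ) : Prop := ∃ j < ρ + 1, par^[j] ρ = τ

instance : DecidableRel Desc := fun _ _ => inferInstanceAs (Decidable (∃ j < _, _))

theorem iter_par_le (j ρ : ℕ) : par^[j] ρ ≤ ρ := by
  induction j with
  | zero => simp
  | succ j ih =>
    rw [Function.iterate_succ_apply']
    rcases Nat.eq_zero_or_pos (par^[j] ρ) with h | h
    · rw [h, par_zero]; exact Nat.zero_le _
    · exact ((par_lt h.ne').le).trans ih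

theorem iter_par_bound (j ρ : ℕ) : par^[j] ρ = 0 ∨ par^[j] ρ + j ≤ ρ := by
  induction j with
  | zero => right; simp
  | succ j ih =>
    rw [Function.iterate_succ_apply']
    rcases Nat.eq_zero_or_pos (par^[j] ρ) with h | h
    · left; rw [h, par_zero]
    · right
      have := par_lt h.ne'
      rcases ih with h' | h' <;> omega

theorem iter_par_self (ρ : ℕ) : par^[ρ] ρ = 0 := by
  rcases iter_par_bound ρ ρ with h | h
  · exact h
  · omega

theorem iter_par_zero (j : ℕ) : par^[j] 0 = 0 := by
  have := iter_par_le j 0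
  omega

theorem desc_iff {τ ρ : ℕ} : Desc τ ρ ↔ ∃ j, par^[j] ρ = τ := by
  constructor
  · rintro ⟨j, _, h⟩; exact ⟨j, h⟩
  · rintro ⟨j, h⟩
    by_cases hj : j < ρ + 1
    · exact ⟨j, hj, h⟩
    · refine ⟨ρ, by omega, ?_⟩
      obtain ⟨k, rfl⟩ : ∃ k, j = k + ρ := ⟨j - ρ, by omega⟩
      rw [Function.iterate_add_apply, iter_par_self, iter_par_zero] at h
      rw [iter_par_self, h]

theorem Desc.refl (ρ : ℕ) : Desc ρ ρ := desc_iff.2 ⟨0, rfl⟩

theorem Desc.trans {a b c : ℕ} (h1 : Desc a b) (h2 : Desc b c) : Desc a c := by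
  obtain ⟨i, h1⟩ := desc_iff.1 h1
  obtain ⟨j, h2⟩ := desc_iff.1 h2
  refine desc_iff.2 ⟨i + j, ?_⟩
  rw [Function.iterate_add_apply, h2, h1]

theorem desc_zero (ρ : ℕ) : Desc 0 ρ := desc_iff.2 ⟨ρ, iter_par_self ρ⟩

theorem Desc.le {a b : ℕ} (h : Desc a b) : a ≤ b := by
  obtain ⟨i, h⟩ := desc_iff.1 h
  rw [← h]; exact iter_par_le _ _

theorem desc_par (n : ℕ) : Desc (par n) n := desc_iff.2 ⟨1, rfl⟩

/-- a descendant is equal or is a descendant via its parent -/
theorem desc_cases {a b : ℕ} (h : Desc a b) : a = b ∨ Desc a (par b) := by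
  obtain ⟨i, h⟩ := desc_iff.1 h
  rcases i with _ | i
  · left; exact h.symm
  · right
    rw [Function.iterate_succ_apply] at h
    exact desc_iff.2 ⟨i, h⟩

theorem desc_of_lt {a b : ℕ} (h : Desc a b) (hab : a ≠ b) : Desc a (par b) :=
  (desc_cases h).resolve_left hab

/-- a proper descendant of `a` is a descendant of exactly one child -/
theorem desc_child {a b : ℕ} (h : Desc a b) (hab : a ≠ b) :
    ∃ c, c ≠ 0 ∧ par c = a ∧ Desc c b := by
  obtain ⟨i, hi⟩ := desc_iff.1 h
  clear h
  induction i generalizing a with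
  | zero => exact absurd hi.symm hab
  | succ i ih =>
    rw [Function.iterate_succ_apply'] at hi
    by_cases h0 : par^[i] b = 0
    · rw [h0, par_zero] at hi
      subst hi
      exact ih hab h0
    · exact ⟨_, h0, hi, desc_iff.2 ⟨i, rfl⟩⟩

theorem desc_comparable {a b c : ℕ} (h1 : Desc a c) (h2 : Desc b c) : Desc a b ∨ Desc b a := by
  obtain ⟨i, h1⟩ := desc_iff.1 h1
  obtain ⟨j, h2⟩ := desc_iff.1 h2
  rcases le_total i j with h | h
  · right
    refine desc_iff.2 ⟨j - i, ?_⟩
    rw [← h1, ← Function.iterate_add_apply, Nat.sub_add_cancel h, h2]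
  · left
    refine desc_iff.2 ⟨i - j, ?_⟩
    rw [← h2, ← Function.iterate_add_apply, Nat.sub_add_cancel h, h1]

theorem desc_child_unique {c c' b : ℕ} (hc : c ≠ 0) (hc' : c' ≠ 0) (h : par c = par c')
    (h1 : Desc c b) (h2 : Desc c' b) : c = c' := by
  rcases desc_comparable h1 h2 with h3 | h3
  · rcases desc_cases h3 with h4 | h4
    · exact h4
    · rw [← h] at h4
      have := h4.le
      have := par_lt hc
      omega
  · rcases desc_cases h3 with h4 | h4
    · exact h4.symm
    · rw [h] at h4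
      have := h4.le
      have := par_lt hc'
      omega

/-! ### Lexicographic order of guesses -/

/-- `δ` is to the left of `γ` -/
def leftOf (δ γ : List Bool) : Prop :=
  ∃ j < γ.length, (γ.take j ++ [true]) <+: δ ∧ (γ.take j ++ [false]) <+: γ

instance : DecidableRel leftOf := fun _ _ => inferInstanceAs (Decidable (∃ j < _, _))

theorem leftOf_iff {δ γ : List Bool} :
    leftOf δ γ ↔ ∃ η, (η ++ [true]) <+: δ ∧ (η ++ [false]) <+: γ := by
  constructor
  · rintro ⟨j, _, h⟩; exact ⟨_, h⟩
  · rintro ⟨η, h1, h2⟩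
    have h3 : γ.take η.length = η := by
      obtain ⟨r, rfl⟩ := h2
      simp
    refine ⟨η.length, ?_, ?_, ?_⟩
    · obtain ⟨r, rfl⟩ := h2
      simp
    · rw [h3]; exact h1
    · rw [h3]; exact h2

theorem leftOf_prefix {δ δ' γ γ' : List Bool} (h : leftOf δ γ) (h1 : δ <+: δ') (h2 : γ <+: γ') :
    leftOf δ' γ' := by
  obtain ⟨η, h3, h4⟩ := leftOf_iff.1 h
  exact leftOf_iff.2 ⟨η, h3.trans h1, h4.trans h2⟩

theorem leftOf_nil (δ : List Bool) : ¬ leftOf δ [] := by
  rintro ⟨j, h, _⟩
  simp at h

/-- trichotomy -/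
theorem left_trichotomy (δ γ : List Bool) : δ <+: γ ∨ γ <+: δ ∨ leftOf δ γ ∨ leftOf γ δ := by
  induction δ generalizing γ with
  | nil => left; exact List.nil_prefix
  | cons a δ ih =>
    rcases γ with _ | ⟨b, γ⟩
    · right; left; exact List.nil_prefix
    · by_cases hab : a = b
      · subst hab
        rcases ih γ with h | h | h | h
        · left; simpa using h
        · right; left; simpa using h
        · right; right; left
          obtain ⟨η, h1, h2⟩ := leftOf_iff.1 h
          refine leftOf_iff.2 ⟨a :: η, ?_, ?_⟩ <;> simpa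
        · right; right; right
          obtain ⟨η, h1, h2⟩ := leftOf_iff.1 h
          refine leftOf_iff.2 ⟨a :: η, ?_, ?_⟩ <;> simpa
      · right; right
        cases a <;> cases b <;> simp at hab
        · right
          refine leftOf_iff.2 ⟨[], ?_, ?_⟩ <;> simp
        · left
          refine leftOf_iff.2 ⟨[], ?_, ?_⟩ <;> simp

/-- two prefixes of a list are comparable, so not in the `leftOf` relation -/
theorem not_leftOf_of_prefix {δ γ ε : List Bool} (h1 : δ <+: ε) (h2 : γ <+: ε) :
    ¬ leftOf δ γ := by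
  intro h
  obtain ⟨η, h3, h4⟩ := leftOf_iff.1 h
  have h5 := h3.trans h1
  have h6 := h4.trans h2
  rcases List.prefix_or_prefix_of_prefix h5 h6 with h7 | h7
  · simp at h7
  · simp at h7

theorem leftOf_append_true {δ γ : List Bool} (h : leftOf δ (γ ++ [true])) : leftOf δ γ := by
  obtain ⟨η, h3, h4⟩ := leftOf_iff.1 h
  refine leftOf_iff.2 ⟨η, h3, ?_⟩
  rcases List.prefix_concat_iff.1 h4 with h5 | h5
  · simp at h5
  · exact h5

theorem leftOf_append_false {δ γ : List Bool} (h : leftOf δ (γ ++ [false])) :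
    leftOf δ γ ∨ (γ ++ [true]) <+: δ := by
  obtain ⟨η, h3, h4⟩ := leftOf_iff.1 h
  rcases List.prefix_concat_iff.1 h4 with h5 | h5
  · right
    simp only [List.append_cancel_right_eq] at h5
    rw [← h5]; exact h3
  · left; exact leftOf_iff.2 ⟨η, h3, h5⟩

/-! ### The construction -/

/-- states: nodes, dead nodes, marks -/
abbrev State : Type := List ℕ × List ℕ × List (ℕ × ℕ)

/-- one step in the computation of the guess at stage `s` -/
def pathStep (s : ℕ) (N : List ℕ) (γ : List Bool) : List Bool :=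
  γ ++ [decide (∀ n ∈ N, (γ ++ [true]) <+: gs n →
    (evaln s (Denumerable.ofNat Code γ.length) n).isSome = true)]

/-- the guess at stage `s` -/
def path (s : ℕ) (N : List ℕ) : List Bool := (pathStep s N)^[s] []

/-- the condition for marking `n` on behalf of `e` -/
def MarkCond (s : ℕ) (S : State) (e n : ℕ) : Prop :=
  n ≠ 0 ∧ (∀ ρ ∈ S.1, Desc n ρ → (evaln s (Denumerable.ofNat Code e) ρ).isSome = true) ∧
    ((S.1.filter fun ρ => Desc n ρ).map fun ρ =>
      (evaln s (Denumerable.ofNat Code e) ρ).getD 0).sum % 2 = 1 ∧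
    ((e < (gs n).length ∧ ∀ n' ∈ S.1, par n' = par n → tn n' = tn n → gs n' = gs n →
      (e, n') ∉ S.2.2) ∨ n ∈ S.2.1)

instance (s S e n) : Decidable (MarkCond s S e n) := by unfold MarkCond; infer_instance

/-- the marks after stage `s` -/
def newM (s : ℕ) (S : State) : List (ℕ × ℕ) :=
  S.2.2 ++ ((List.range s).flatMap fun e => S.1.map fun n => (e, n)).filter
    fun p => MarkCond s S p.1 p.2

/-- the condition for killing at stage `s`, with new marks `M` -/
def KillCond (δ : List Bool) (M : List (ℕ × ℕ)) (n : ℕ) : Prop :=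
  ∃ j < n + 1, leftOf δ (gs (par^[j] n)) ∨ ∃ p ∈ M, p.2 = par^[j] n

instance (δ M n) : Decidable (KillCond δ M n) := by unfold KillCond; infer_instance

/-- the dead nodes after stage `s` -/
def newD (s : ℕ) (S : State) : List ℕ :=
  S.2.1 ++ S.1.filter fun n => KillCond (path s S.1) (newM s S) n

/-- creation condition for `(v, t, m)` -/
def CreateCond (T : ℕ → Bool) (δ : List Bool) (N D : List ℕ) (v m t : ℕ) : Prop :=
  v ∉ D ∧ t ≠ 0 ∧ par t = tn v ∧ T t = true ∧ gs v <+: δ.take m ∧
    ∀ n ∈ N, par n = v → tn n = t → gs n = δ.take m → n ∈ D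

instance (T δ N D v m t) : Decidable (CreateCond T δ N D v m t) := by
  unfold CreateCond; infer_instance

/-- the triples considered for creation at stage `s` -/
def cands (s : ℕ) (N : List ℕ) : List (ℕ × ℕ × ℕ) :=
  N.flatMap fun v => (List.range (s + 1)).flatMap fun m => (List.range m).map fun t => (v, m, t)

/-- the nodes after stage `s` -/
def newN (T : ℕ → Bool) (s : ℕ) (S : State) : List ℕ :=
  S.1 ++ ((cands s S.1).filter fun z =>
    CreateCond T (path s S.1) S.1 (newD s S) z.1 z.2.1 z.2.2).map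
      fun z => mk z.1 z.2.2 ((path s S.1).take z.2.1) s

/-- one stage -/
def stepState (T : ℕ → Bool) (s : ℕ) (S : State) : State := (newN T s S, newD s S, newM s S)

/-- the state before stage `s` -/
def state (T : ℕ → Bool) : ℕ → State
  | 0 => ([0], [], [])
  | s + 1 => stepState T s (state T s)

end Pool.MP39df03
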