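import Mathlib

/-!
# MP_39df03_lc: definitions used in the statement

Lightface `Σ¹₁` and `Δ¹₁` sets of natural numbers, computable structures with universe `ℕ` for
computable relational languages, classes of computable structures, isomorphism relations and
hyperarithmetic reducibility.
-/

namespace Pool.MP39df03

open Nat.Partrec (Code)

/-- `A` is (lightface) `Σ¹₁`: Kleene normal form with a computable matrix. -/
def Sigma11 (A : Set ℕ) : Prop :=
  ∃ R : ℕ × List ℕ → Bool, Computable R ∧
    ∀ n, n ∈ A ↔ ∃ f : ℕ → ℕ, ∀ k, R (n, (List.range k).map f) = true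

/-- `A` is `Δ¹₁`, that is, hyperarithmetic. -/
def Delta11 (A : Set ℕ) : Prop := Sigma11 A ∧ Sigma11 Aᶜ

/-- A binary relation on `ℕ` is `Δ¹₁` if its set of codes of pairs is. -/
def Delta11Rel (E : Set (ℕ × ℕ)) : Prop := Delta11 {n | n.unpair ∈ E}

/-- A structure with universe `ℕ` for the relational language whose `i`-th relation symbol has
arity `ar i`. -/
abbrev Str (ar : ℕ → ℕ) : Type := (i : ℕ) → (Fin (ar i) → ℕ) → Prop

/-- Isomorphism of structures with universe `ℕ`. -/
def IsoStr {ar : ℕ → ℕ} (M N : Str ar) : Prop :=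
  ∃ f : ℕ ≃ ℕ, ∀ i v, M i v ↔ N i (fun j => f (v j))

/-- The atomic diagram of `M`, as a set of natural numbers: the fact that the `i`-th relation
holds at the tuple `v` is coded by the code of the pair `(i, v)`, with `v` written as a list. -/
def diagram {ar : ℕ → ℕ} (M : Str ar) : Set ℕ :=
  {n | ∃ i v, M i v ∧ n = Encodable.encode (i, List.ofFn v)}

/-- `e` is an index of `M`: the `e`-th partial computable function is the characteristic function
of the atomic diagram of `M`. -/
def IsIndex {ar : ℕ → ℕ} (e : ℕ) (M : Str ar) : Prop :=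
  ∀ n, (n ∈ diagram M → (Denumerable.ofNat Code e).eval n = Part.some 1) ∧
    (n ∉ diagram M → (Denumerable.ofNat Code e).eval n = Part.some 0)

/-- `K` is a class of computable structures closed under isomorphism (among computable
structures). -/
def IsClass {ar : ℕ → ℕ} (K : Set (Str ar)) : Prop :=
  (∀ M ∈ K, ∃ e, IsIndex e M) ∧
    ∀ M ∈ K, ∀ N : Str ar, (∃ e, IsIndex e N) → IsoStr M N → N ∈ K

/-- The set `I(K)` of indices of members of `K`. -/
def idx {ar : ℕ → ℕ} (K : Set (Str ar)) : Set ℕ := {e | ∃ M ∈ K, IsIndex e M}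

/-- The isomorphism relation `E_K` on `I(K)`. -/
def isoRel {ar : ℕ → ℕ} (K : Set (Str ar)) : Set (ℕ × ℕ) :=
  {p | ∃ M ∈ K, ∃ N ∈ K, IsIndex p.1 M ∧ IsIndex p.2 N ∧ IsoStr M N}

/-- `K` is a hyperarithmetic class of computable structures in a computable language. -/
def HypClass {ar : ℕ → ℕ} (K : Set (Str ar)) : Prop :=
  Computable ar ∧ IsClass K ∧ Delta11 (idx K)

/-- Hyperarithmetic reducibility `E ≤_h F` of a relation `E` on `X` to a relation `F` on `Y`. -/
def HypRed (X : Set ℕ) (E : Set (ℕ × ℕ)) (Y : Set ℕ) (F : Set (ℕ × ℕ)) : Prop :=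
  ∃ f : ℕ → ℕ, Delta11Rel {p | p.1 ∈ X ∧ p.2 = f p.1} ∧ (∀ x ∈ X, f x ∈ Y) ∧
    ∀ x ∈ X, ∀ y ∈ X, ((x, y) ∈ E ↔ (f x, f y) ∈ F)

/-- `E_K` is complete among isomorphism relations on hyperarithmetic classes of computable
structures (in computable relational languages). -/
def CompleteIso {ar : ℕ → ℕ} (K : Set (Str ar)) : Prop :=
  ∀ (ar' : ℕ → ℕ) (K' : Set (Str ar')), HypClass K' →
    HypRed (idx K') (isoRel K') (idx K) (isoRel K)

end Pool.MP39df03
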