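import Pool.Agent.Lib.MP_39df03_lc.Parity

/-!
# Existence of solutions when there are few marks
-/

namespace Pool.MP39df03

open Nat.Partrec (Code)
open Nat.Partrec.Code (evaln eval)

variable {T : ℕ → Bool}

theorem key_finite {e : ℕ} {f : ℕ → ℕ} (hf : Comp e f) (v : ℕ)
    (hfin : {n | par n = v ∧ ∃ s, (e, n) ∈ Mm T s}.Finite) :
    ∃ (F : Finset ℕ) (k : ℕ), ∀ s, tp T k <+: del T s → ∀ n ∈ Nn T s, n ≠ 0 → par n = v →
      n ∉ F → P T (fun n => (f n : ZMod 2)) s n = 0 := by
  classical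
  obtain ⟨b, hb⟩ := (hfin.image fun n => (gs n).length).bddAbove
  set k := max (e + 1) (b + 1) with hk
  obtain ⟨s₀, hs₀⟩ := (tp_TPs (T := T) k).2
  have hF2 : {n | Node T n ∧ n ≠ 0 ∧ par n = v ∧ leftOf (gs n) (tp T k)}.Finite := by
    refine (finite_lt (T := T) s₀).subset ?_
    rintro n ⟨h1, h2, h3, h4⟩
    refine ⟨h1, ?_⟩
    by_contra hcon
    exact hs₀ (st n) (by omega) (leftOf_prefix h4 (node_info h1 h2).2.2.2.1 List.prefix_rfl)
  have hF3 : {n | Node T n ∧ n ≠ 0 ∧ par n = v ∧ gs n <+: tp T k}.Finite := by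
    have : (⋃ m ∈ Finset.range (k + 1), ⋃ t ∈ Finset.range m, Slot T v t (tp T m)).Finite := by
      refine Set.Finite.biUnion (Finset.finite_toSet _) fun m _ =>
        Set.Finite.biUnion (Finset.finite_toSet _) fun t _ => slot_finite (tp_TPs m)
    refine this.subset ?_
    rintro n ⟨h1, h2, h3, h4⟩
    have h5 : gs n = tp T (gs n).length := TPs_unique (TPs_of_prefix h4 (tp_TPs k))
    have h6 : (gs n).length ≤ k := by
      have := h4.length_le
      simpa using this
    simp only [Set.mem_iUnion, Finset.mem_range]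
    exact ⟨(gs n).length, by omega, tn n, (node_info h1 h2).2.2.2.2.2.1, h1, h2, h3, rfl, h5⟩
  have hF : ({n | par n = v ∧ ∃ s, (e, n) ∈ Mm T s} ∪
      ({n | Node T n ∧ n ≠ 0 ∧ par n = v ∧ leftOf (gs n) (tp T k)} ∪
        {n | Node T n ∧ n ≠ 0 ∧ par n = v ∧ gs n <+: tp T k})).Finite :=
    hfin.union (hF2.union hF3)
  refine ⟨hF.toFinset, k, fun s hs n hn hn0 hpar hnF => ?_⟩
  rw [Set.Finite.mem_toFinset] at hnF
  have hN := node_of_mem hn
  have h1 : ∀ t, (e, n) ∉ Mm T t := fun t ht => hnF (Or.inl ⟨hpar, t, ht⟩)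
  rcases left_trichotomy (gs n) (tp T k) with h | h | h | h
  · exact absurd (Or.inr (Or.inr ⟨hN, hn0, hpar, h⟩)) hnF
  · have htot : tp T (e + 1) = tp T e ++ [true] := by
      refine tp_total fun n => ?_
      obtain ⟨k, hk⟩ := hf n
      exact ⟨k, by rw [hk]; rfl⟩
    refine listen_even hf hN hn0 (γ := tp T e) (by simp) ?_ ?_ hn
    · rw [← htot]
      exact (tp_prefix (by omega)).trans h
    · intro n' t h2 h3 h4 h5
      have h6 : (gs n').length ≤ b := hb ⟨n', ⟨h2.trans hpar, t, h5⟩, rfl⟩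
      have h7 := h.length_le
      rw [tp_length] at h7
      rw [h4] at h6
      omega
  · exact absurd (Or.inr (Or.inl ⟨hN, hn0, hpar, h⟩)) hnF
  · refine dead_even hf hn hn0 ?_ h1
    exact mem_D_succ.2 (Or.inr ⟨hn, n, Desc.refl n, Or.inl (leftOf_prefix h hs List.prefix_rfl)⟩)

theorem sol_of_marks {e : ℕ} {f : ℕ → ℕ} (hf : Comp e f)
    (hfin : ∀ v, {n | par n = v ∧ ∃ s, (e, n) ∈ Mm T s}.Finite) :
    ∃ z : ZMod 2, Sol (Chl T) (fun w => w = 0)
      (fun n => if n = 0 then (f n : ZMod 2) + z else (f n : ZMod 2)) := by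
  classical
  set h : ℕ → ZMod 2 := fun n => (f n : ZMod 2) with hh
  have hS : ∀ i, ∃ s, i ≤ s ∧ tp T i <+: del T s := fun i => (tp_TPs (T := T) i).1 i
  choose S hS1 hS2 using hS
  let U : Ultrafilter ℕ := Filter.hyperfilter ℕ
  have hU : ∀ k : ℕ, ∀ᶠ i in (U : Filter ℕ), k ≤ i := by
    intro k
    have h1 : ∀ᶠ i in Filter.atTop, k ≤ i := Filter.eventually_ge_atTop k
    have h2 : (Filter.hyperfilter ℕ : Filter ℕ) ≤ Filter.atTop := by
      rw [← Nat.cofinite_eq_atTop]
      exact Filter.hyperfilter_le_cofinite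
    exact h2 h1
  let b : ℕ → ZMod 2 := fun n => if ∀ᶠ i in (U : Filter ℕ), P T h (S i) n = 1 then 1 else 0
  have hb : ∀ n, ∀ᶠ i in (U : Filter ℕ), P T h (S i) n = b n := by
    intro n
    by_cases h1 : ∀ᶠ i in (U : Filter ℕ), P T h (S i) n = 1
    · simp only [b, if_pos h1]; exact h1
    · simp only [b, if_neg h1]
      rw [← Ultrafilter.eventually_not] at h1
      filter_upwards [h1] with i hi
      exact (zmod2_cases _).resolve_right hi
  have hb01 : ∀ n, b n = 0 ∨ b n = 1 := fun n => zmod2_cases _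
  choose F k hFk using fun v => key_finite hf v (hfin v)
  let G : ℕ → Finset ℕ := fun v => (F v).filter fun n => Chl T v n
  have hbdd : ∀ v, ∃ B, ∀ n ∈ G v, st n < B := by
    intro v
    refine ⟨(G v).sup st + 1, fun n hn => Nat.lt_succ_of_le (Finset.le_sup (f := st) hn)⟩
  choose B hB using hbdd
  -- children outside `F v` have `b = 0`
  have hout : ∀ v n, Chl T v n → n ∉ F v → b n = 0 := by
    intro v n hn hnF
    have h1 := (hb n).and ((hU (k v)).and (hU (st n + 1)))
    obtain ⟨i, hi1, hi2, hi3⟩ := h1.exists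
    rw [← hi1]
    refine hFk v (S i) ((tp_prefix hi2).trans (hS2 i)) n ?_ hn.1 hn.2.2 hnF
    exact mem_of_node hn.2.1 (by have := hS1 i; omega)
  -- the main equation
  have heq : ∀ v, Node T v → b v = h v + ∑ n ∈ G v, b n := by
    intro v hv
    have h1 : ∀ᶠ i in (U : Filter ℕ), ∀ n ∈ G v, P T h (S i) n = b n := by
      rw [Filter.eventually_all_finset]
      intro n _
      exact hb n
    obtain ⟨i, hi1, hi2, hi3, hi4, hi5⟩ :=
      ((hb v).and (h1.and ((hU (k v)).and ((hU (B v)).and (hU (st v + 1)))))).exists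
    have hSi := hS1 i
    rw [← hi1, P_succ h (mem_of_node hv (by omega))]
    congr 1
    have h2 : ∑ n ∈ G v, P T h (S i) n = ∑ n ∈ G v, b n := Finset.sum_congr rfl hi2
    rw [← h2]
    symm
    refine Finset.sum_subset ?_ ?_
    · intro n hn
      have h3 := hB v n hn
      simp only [G, Finset.mem_filter] at hn
      rw [Finset.mem_filter, List.mem_toFinset]
      exact ⟨mem_of_node hn.2.2.1 (by omega), hn.2.1, hn.2.2.2⟩
    · intro n hn hnG
      rw [Finset.mem_filter, List.mem_toFinset] at hn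
      refine hFk v (S i) ((tp_prefix hi3).trans (hS2 i)) n hn.1 hn.2.1 hn.2.2 fun hnF => hnG ?_
      simp only [G, Finset.mem_filter]
      exact ⟨hnF, hn.2.1, node_of_mem hn.1, hn.2.2⟩
  refine ⟨b 0, fun v => (G v).filter fun n => b n = 1, ?_, ?_, ?_⟩
  · intro v n hn
    simp only [G, Finset.mem_filter] at hn
    exact hn.1.2
  · intro v w hw
    have hcard : ∀ v, (((G v).filter fun n => b n = 1).card : ZMod 2) = ∑ n ∈ G v, b n := by
      intro v
      rw [Finset.card_filter]
      push_cast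
      refine Finset.sum_congr rfl fun n _ => ?_
      rcases hb01 n with h1 | h1 <;> simp [h1]
    have hmem : (if w ∈ ((G v).filter fun n => b n = 1) then (1 : ZMod 2) else 0) = b w := by
      rcases hb01 w with h1 | h1
      · rw [h1, if_neg]
        simp [h1]
      · rw [h1, if_pos]
        simp only [G, Finset.mem_filter, h1, and_true]
        refine ⟨?_, hw⟩
        by_contra hcon
        rw [hout v w hw hcon] at h1
        exact zero_ne_one h1
    rw [hmem, hcard]
    show b w + ∑ n ∈ G w, b n = if w = 0 then (f w : ZMod 2) + b 0 else (f w : ZMod 2)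
    rw [if_neg hw.1]
    have h1 := heq w hw.2.1
    have h2 : b w + b w = 0 := CharTwo.add_self_eq_zero _
    have h3 : (∑ n ∈ G w, b n) = b w - h w := by rw [h1]; ring
    rw [h3]
    linear_combination h2 - CharTwo.add_self_eq_zero (h w)
  · rintro w rfl
    have hcard : (((G 0).filter fun n => b n = 1).card : ZMod 2) = ∑ n ∈ G 0, b n := by
      rw [Finset.card_filter]
      push_cast
      refine Finset.sum_congr rfl fun n _ => ?_
      rcases hb01 n with h1 | h1 <;> simp [h1]
    rw [hcard]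
    show ∑ n ∈ G 0, b n = if (0 : ℕ) = 0 then (f 0 : ZMod 2) + b 0 else (f 0 : ZMod 2)
    rw [if_pos rfl]
    have h1 := heq 0 (zero_mem_N _)
    have h3 : (∑ n ∈ G 0, b n) = b 0 - h 0 := by rw [h1]; ring
    rw [h3]
    linear_combination - CharTwo.add_self_eq_zero (h 0)

end Pool.MP39df03
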