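import Pool.Agent.Lib.MP_39df03_lc.Prim
import Pool.Agent.Lib.MP_39df03_lc.Limit

/-!
# A uniform family of trees, universal for `Σ¹₁`
-/

namespace Pool.MP39df03

open Nat.Partrec (Code)
open Nat.Partrec.Code (evaln eval)

/-- the list coded by a number, most recent entry first -/
def lst (t : ℕ) : List ℕ := (Encodable.decode (α := List ℕ) t).getD []

@[simp] theorem lst_encode (L : List ℕ) : lst (Encodable.encode L) = L := by simp [lst]

theorem prim_lst : Primrec lst :=
  Primrec.option_getD.comp Primrec.decode (Primrec.const [])

theorem encode_lst (t : ℕ) : Encodable.encode (lst t) = t := by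
  have : lst t = Denumerable.ofNat (List ℕ) t := by
    unfold lst
    rw [Denumerable.decode_eq_ofNat]; rfl
  rw [this, Denumerable.encode_ofNat]

theorem par_encode_cons (a : ℕ) (L : List ℕ) :
    par (Encodable.encode (a :: L)) = Encodable.encode L := by
  simp [par, Encodable.encode_list_cons]

/-- the condition defining the `x`-th tree -/
def TreeCond (x : ℕ) (L : List ℕ) : Prop :=
  ∀ j < L.length + 1,
    evaln L.length (Denumerable.ofNat Code x) (Encodable.encode (L.reverse.take j)) = none

instance (x L) : Decidable (TreeCond x L) := by unfold TreeCond; infer_instance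

/-- the `x`-th tree -/
def treeOf (x t : ℕ) : Bool := decide (TreeCond x (lst t))

theorem prim_treeOf : Primrec₂ treeOf := by
  have h1 : PrimrecPred fun z : ℕ × ℕ => TreeCond z.1 (lst z.2) := by
    have hL : Primrec fun z : ℕ × ℕ => lst z.2 := prim_lst.comp .snd
    refine pall_lt (f := fun z : ℕ × ℕ => (lst z.2).length + 1) (p := fun z j =>
      evaln (lst z.2).length (Denumerable.ofNat Code z.1)
        (Encodable.encode ((lst z.2).reverse.take j)) = none)
      (Primrec.succ.comp (Primrec.list_length.comp hL)) ?_
    refine Primrec.eq.comp (prim_evaln (Primrec.list_length.comp (hL.comp .fst))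
      (Primrec.fst.comp .fst) ?_) (Primrec.const none)
    exact Primrec.encode.comp (Primrec.list_take.comp .snd
      (Primrec.list_reverse.comp (hL.comp .fst)))
  exact h1.decide

/-- the universal `Σ¹₁` set -/
def W : Set ℕ := {x | ∃ f : ℕ → ℕ, ∀ j k,
  evaln k (Denumerable.ofNat Code x) (Encodable.encode ((List.range j).map f)) = none}

/-- the node of the tree given by the first values of `f` -/
def nodeOf (f : ℕ → ℕ) (i : ℕ) : ℕ := Encodable.encode ((List.range i).map f).reverse

theorem nodeOf_zero (f : ℕ → ℕ) : nodeOf f 0 = 0 := by simp [nodeOf]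

theorem reverse_range_succ (f : ℕ → ℕ) (i : ℕ) :
    ((List.range (i + 1)).map f).reverse = f i :: ((List.range i).map f).reverse := by
  rw [List.range_succ, List.map_append, List.reverse_append]; rfl

theorem nodeOf_succ_ne (f : ℕ → ℕ) (i : ℕ) : nodeOf f (i + 1) ≠ 0 := by
  unfold nodeOf
  rw [reverse_range_succ, Encodable.encode_list_cons]
  exact Nat.succ_ne_zero _

theorem par_nodeOf (f : ℕ → ℕ) (i : ℕ) : par (nodeOf f (i + 1)) = nodeOf f i := by
  unfold nodeOf
  rw [reverse_range_succ, par_encode_cons]

theorem evaln_none_mono {k k' : ℕ} {c : Code} {n : ℕ} (h : k ≤ k') (h' : evaln k' c n = none) :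
    evaln k c n = none := by
  rcases h1 : evaln k c n with _ | x
  · rfl
  · rw [Nat.Partrec.Code.evaln_mono h h1] at h'
    exact absurd h' (by simp)

theorem W_iff (x : ℕ) : x ∈ W ↔ HasPath (TCh (treeOf x)) 0 := by
  constructor
  · rintro ⟨f, hf⟩
    refine ⟨nodeOf f, nodeOf_zero f, fun i => ⟨nodeOf_succ_ne f i, ?_, par_nodeOf f i⟩⟩
    unfold treeOf
    rw [decide_eq_true_eq, nodeOf, lst_encode]
    intro j hj
    simp only [List.length_reverse, List.length_map, List.length_range] at hj
    rw [List.reverse_reverse, ← List.map_take, List.take_range]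
    exact hf _ _
  · rintro ⟨q, hq0, hq⟩
    have h1 : ∀ i, ∃ a, lst (q (i + 1)) = a :: lst (q i) := by
      intro i
      obtain ⟨h1, _, h3⟩ := hq i
      rcases h4 : lst (q (i + 1)) with _ | ⟨a, L⟩
      · have := encode_lst (q (i + 1))
        rw [h4] at this
        exact absurd this.symm h1
      · refine ⟨a, ?_⟩
        have h5 := encode_lst (q (i + 1))
        rw [h4] at h5
        have h6 := par_encode_cons a L
        rw [h5, h3] at h6
        rw [h6, lst_encode]
    choose f hf using h1
    have h2 : ∀ i, lst (q i) = ((List.range i).map f).reverse := by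
      intro i
      induction i with
      | zero => rw [hq0]; simp [lst]
      | succ i ih => rw [hf, reverse_range_succ, ih]
    refine ⟨f, fun j k => ?_⟩
    obtain ⟨_, h3, _⟩ := hq (max j k)
    unfold treeOf at h3
    rw [decide_eq_true_eq, h2] at h3
    have h4 := h3 j (by simp; omega)
    simp only [List.length_reverse, List.length_map, List.length_range, List.reverse_reverse] at h4
    rw [← List.map_take, List.take_range, min_eq_left (by omega)] at h4
    exact evaln_none_mono (by omega) h4

theorem evaln_none_iff {c : Code} {n : ℕ} : (∀ k, evaln k c n = none) ↔ eval c n = Part.none := by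
  constructor
  · intro h
    rw [Part.eq_none_iff]
    intro x hx
    obtain ⟨k, hk⟩ := Nat.Partrec.Code.evaln_complete.1 hx
    rw [h k] at hk
    exact absurd hk (by simp)
  · intro h k
    rcases h1 : evaln k c n with _ | x
    · rfl
    · have := Nat.Partrec.Code.evaln_sound h1
      rw [h] at this
      exact absurd this (Part.notMem_none _)

theorem W_not_D11 : ¬ D11 fun x => x ∈ W := by
  intro hW
  have hcomp : Computable fun y : ℕ =>
      Encodable.encode (Nat.Partrec.Code.curry (Denumerable.ofNat Code y) y) := by
    refine Computable.encode.comp ?_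
    exact (Nat.Partrec.Code.primrec₂_curry.comp (Primrec.ofNat Code) Primrec.id).to_comp
  have h1 : S11 fun y : ℕ =>
      ¬ Encodable.encode (Nat.Partrec.Code.curry (Denumerable.ofNat Code y) y) ∈ W :=
    hW.2.comp hcomp
  obtain ⟨R, hR, hp⟩ := h1
  have hpart : Partrec fun p : ℕ =>
      (cond (R (p.unpair.1, lst p.unpair.2)) Part.none (Part.some 0) : Part ℕ) := by
    refine Partrec.cond ?_ Partrec.none (Computable.const 0).partrec
    refine hR.comp ?_
    exact ((Primrec.fst.comp Primrec.unpair).pair
      (prim_lst.comp (Primrec.snd.comp Primrec.unpair))).to_comp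
  obtain ⟨c, hc⟩ := Nat.Partrec.Code.exists_code.1 (Partrec.nat_iff.1 hpart)
  set y := Encodable.encode c with hy
  have hcy : Denumerable.ofNat Code y = c := by simp [hy]
  have h2 := hp y
  beta_reduce at h2
  rw [hcy] at h2
  have h3 : Encodable.encode (Nat.Partrec.Code.curry c y) ∈ W ↔
      ∃ f : ℕ → ℕ, ∀ k, R (y, (List.range k).map f) = true := by
    simp only [W, Set.mem_ofPred_eq, Denumerable.ofNat_encode]
    refine exists_congr fun f => forall_congr' fun j => ?_
    rw [evaln_none_iff, Nat.Partrec.Code.eval_curry, hc]
    simp only [Nat.unpair_pair, lst_encode]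
    rcases R (y, List.map f (List.range j)) with _ | _
    · simp [Part.some_ne_none]
    · simp
  rw [← h3] at h2
  tauto

end Pool.MP39df03
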