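import Pool.Agent.Lib.MP_39df03_lc.SolPath
import Pool.Agent.Lib.MP_39df03_lc.Univ

/-!
# Indices of structures in the binary language
-/

namespace Pool.MP39df03

open Nat.Partrec (Code)
open Nat.Partrec.Code (evaln eval)

/-- the code of an atomic fact -/
def fc (i a b : ℕ) : ℕ := Encodable.encode (i, [a, b])

/-- `n` is the code of an atomic fact -/
def IsFc (n : ℕ) : Prop := (lst n.unpair.2).length = 2

/-- second and third component -/
def fa (n : ℕ) : ℕ := (lst n.unpair.2).getD 0 0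
/-- second and third component -/
def fb (n : ℕ) : ℕ := (lst n.unpair.2).getD 1 0

theorem fc_of_IsFc {n : ℕ} (h : IsFc n) : fc n.unpair.1 (fa n) (fb n) = n := by
  unfold IsFc at h
  have h1 : lst n.unpair.2 = [fa n, fb n] := by
    unfold fa fb
    rcases h2 : lst n.unpair.2 with _ | ⟨a, _ | ⟨b, _ | ⟨c, L⟩⟩⟩
    · rw [h2] at h; simp at h
    · rw [h2] at h; simp at h
    · simp
    · rw [h2] at h; simp at h
  unfold fc
  rw [← h1, Encodable.encode_prod_val, encode_lst, Encodable.encode_nat, Nat.pair_unpair]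

theorem fc_unpair (i a b : ℕ) : (fc i a b).unpair = (i, Encodable.encode [a, b]) := by
  unfold fc
  rw [Encodable.encode_prod_val, Nat.unpair_pair, Encodable.encode_nat]

theorem IsFc_fc (i a b : ℕ) : IsFc (fc i a b) := by
  unfold IsFc
  rw [fc_unpair, lst_encode]; rfl

@[simp] theorem fc_fst (i a b : ℕ) : (fc i a b).unpair.1 = i := by rw [fc_unpair]

@[simp] theorem fa_fc (i a b : ℕ) : fa (fc i a b) = a := by
  unfold fa; rw [fc_unpair, lst_encode]; rfl

@[simp] theorem fb_fc (i a b : ℕ) : fb (fc i a b) = b := by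
  unfold fb; rw [fc_unpair, lst_encode]; rfl

theorem prim_fc : Primrec fun z : ℕ × ℕ × ℕ => fc z.1 z.2.1 z.2.2 := by
  refine Primrec.encode.comp (Primrec.fst.pair ?_)
  refine Primrec.list_cons.comp (Primrec.fst.comp .snd) ?_
  exact Primrec.list_cons.comp (Primrec.snd.comp .snd) (Primrec.const [])

theorem prim_IsFc : PrimrecPred IsFc :=
  Primrec.eq.comp (Primrec.list_length.comp (prim_lst.comp (Primrec.snd.comp Primrec.unpair)))
    (Primrec.const 2)

theorem prim_fa : Primrec fa :=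
  (Primrec.list_getD 0).comp (prim_lst.comp (Primrec.snd.comp Primrec.unpair)) (Primrec.const 0)

theorem prim_fb : Primrec fb :=
  (Primrec.list_getD 0).comp (prim_lst.comp (Primrec.snd.comp Primrec.unpair)) (Primrec.const 1)

theorem mem_diagram {M : Str ar2} {n : ℕ} :
    n ∈ diagram M ↔ IsFc n ∧ M n.unpair.1 (![fa n, fb n] : Fin 2 → ℕ) := by
  constructor
  · rintro ⟨i, v, h1, h2⟩
    change Fin 2 → ℕ at v
    have h3 : List.ofFn (fun j => v j) = [v 0, v 1] := by
      simp [List.ofFn_succ]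
    have h4 : n = fc i (v 0) (v 1) := by
      unfold fc; rw [h2, ← h3]; rfl
    subst h4
    refine ⟨IsFc_fc _ _ _, ?_⟩
    rw [fc_fst, fa_fc, fb_fc]
    have h5 : (![v 0, v 1] : Fin 2 → ℕ) = v := by
      funext j; fin_cases j <;> rfl
    rw [h5]; exact h1
  · rintro ⟨h1, h2⟩
    refine ⟨_, _, h2, ?_⟩
    conv_lhs => rw [← fc_of_IsFc h1]
    unfold fc
    congr 2

theorem fc_mem_diagram {M : Str ar2} {i a b : ℕ} :
    fc i a b ∈ diagram M ↔ M i (![a, b] : Fin 2 → ℕ) := by
  rw [mem_diagram, fc_fst, fa_fc, fb_fc]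
  exact ⟨fun h => h.2, fun h => ⟨IsFc_fc _ _ _, h⟩⟩

/-- the `e`-th function takes the value `1` at the code of the fact -/
def At (e i a b : ℕ) : Prop := ∃ k, evaln k (Denumerable.ofNat Code e) (fc i a b) = some 1

/-- value of the `e`-th partial function -/
def Val (e n y : ℕ) : Prop := ∃ k, evaln k (Denumerable.ofNat Code e) n = some y

theorem val_iff {e n y : ℕ} : Val e n y ↔ eval (Denumerable.ofNat Code e) n = Part.some y := by
  unfold Val
  rw [Part.eq_some_iff, Nat.Partrec.Code.evaln_complete]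
  exact Iff.rfl

theorem Val.unique {e n y y' : ℕ} (h : Val e n y) (h' : Val e n y') : y = y' := by
  rw [val_iff] at h h'
  rw [h] at h'
  exact Part.some_inj.1 h'

/-- `e` is an index of some structure -/
def Legit (e : ℕ) : Prop := ∀ n, (Val e n 1 ∧ IsFc n) ∨ Val e n 0

/-- the structure with index `e` -/
def str (e : ℕ) : Str ar2 := ofRel (At e)

theorem isIndex_str {e : ℕ} (h : Legit e) : IsIndex e (str e) := by
  intro n
  rw [mem_diagram, ← val_iff, ← val_iff]
  have h1 : (str e n.unpair.1 (![fa n, fb n] : Fin 2 → ℕ)) ↔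
      Val e (fc n.unpair.1 (fa n) (fb n)) 1 := Iff.rfl
  rw [h1]
  constructor
  · rintro ⟨h2, h3⟩
    rwa [fc_of_IsFc h2] at h3
  · intro h2
    rcases h n with ⟨h3, h4⟩ | h3
    · exact absurd ⟨h4, by rw [fc_of_IsFc h4]; exact h3⟩ h2
    · exact h3

theorem legit_of_index {e : ℕ} {M : Str ar2} (h : IsIndex e M) : Legit e := by
  intro n
  by_cases hn : n ∈ diagram M
  · left
    exact ⟨val_iff.2 ((h n).1 hn), (mem_diagram.1 hn).1⟩
  · right
    exact val_iff.2 ((h n).2 hn)

theorem eq_str {e : ℕ} {M : Str ar2} (h : IsIndex e M) : M = str e := by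
  funext i v
  change Fin 2 → ℕ at v
  have h5 : (![v 0, v 1] : Fin 2 → ℕ) = v := by
    funext j; fin_cases j <;> rfl
  rw [← h5]
  refine propext ((fc_mem_diagram (M := M) (i := i) (a := v 0) (b := v 1)).symm.trans ?_)
  have h1 : (str e i (![v 0, v 1] : Fin 2 → ℕ)) ↔ Val e (fc i (v 0) (v 1)) 1 := Iff.rfl
  refine Iff.trans ?_ h1.symm
  constructor
  · intro h2
    exact val_iff.2 ((h _).1 h2)
  · intro h2
    by_contra h3
    have h4 := val_iff.2 ((h _).2 h3)
    exact absurd (h2.unique h4) (by simp)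

/-- membership in `I(K)` -/
theorem mem_idx {K : Set (Str ar2)} {e : ℕ} : e ∈ idx K ↔ Legit e ∧ str e ∈ K := by
  constructor
  · rintro ⟨M, hM, he⟩
    refine ⟨legit_of_index he, ?_⟩
    rw [← eq_str he]; exact hM
  · rintro ⟨h1, h2⟩
    exact ⟨_, h2, isIndex_str h1⟩

theorem mem_isoRel {K : Set (Str ar2)} {a b : ℕ} :
    (a, b) ∈ isoRel K ↔ a ∈ idx K ∧ b ∈ idx K ∧ IsoStr (str a) (str b) := by
  constructor
  · rintro ⟨M, hM, N, hN, ha, hb, h⟩
    refine ⟨⟨M, hM, ha⟩, ⟨N, hN, hb⟩, ?_⟩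
    rw [← eq_str ha, ← eq_str hb]; exact h
  · rintro ⟨ha, hb, h⟩
    rw [mem_idx] at ha hb
    exact ⟨_, ha.2, _, hb.2, isIndex_str ha.1, isIndex_str hb.1, h⟩

/-! ### Uniform indices -/

/-- a uniformly computable family of structures has a computable sequence of indices -/
theorem exists_index {r : ℕ → ℕ → ℕ → ℕ → Prop}
    (hr : PrimrecPred fun z : ℕ × ℕ × ℕ × ℕ => r z.1 z.2.1 z.2.2.1 z.2.2.2) :
    ∃ g : ℕ → ℕ, Computable g ∧ ∀ y, IsIndex (g y) (ofRel (r y)) := by
  classical
  have h1 : PrimrecPred fun p : ℕ => IsFc p.unpair.2 ∧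
      r p.unpair.1 p.unpair.2.unpair.1 (fa p.unpair.2) (fb p.unpair.2) := by
    have hp : Primrec fun p : ℕ => p.unpair.2 := Primrec.snd.comp Primrec.unpair
    refine PrimrecPred.and (prim_IsFc.comp hp) ?_
    refine hr.comp (f := fun p : ℕ =>
      (p.unpair.1, p.unpair.2.unpair.1, fa p.unpair.2, fb p.unpair.2)) ?_
    exact (Primrec.fst.comp Primrec.unpair).pair ((Primrec.fst.comp (Primrec.unpair.comp hp)).pair
      ((prim_fa.comp hp).pair (prim_fb.comp hp)))
  have h2 : Primrec fun p : ℕ => if IsFc p.unpair.2 ∧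
      r p.unpair.1 p.unpair.2.unpair.1 (fa p.unpair.2) (fb p.unpair.2) then 1 else 0 :=
    Primrec.ite h1 (Primrec.const 1) (Primrec.const 0)
  obtain ⟨c, hc⟩ := Nat.Partrec.Code.exists_code.1 (Partrec.nat_iff.1 h2.to_comp.partrec)
  refine ⟨fun y => Encodable.encode (Nat.Partrec.Code.curry c y), ?_, ?_⟩
  · exact Computable.encode.comp
      (Nat.Partrec.Code.primrec₂_curry.comp (Primrec.const c) Primrec.id).to_comp
  · intro y n
    rw [Denumerable.ofNat_encode, Nat.Partrec.Code.eval_curry, hc, mem_diagram]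
    simp only [Nat.unpair_pair, ofRel_apply, PFun.coe_val, Part.some_inj, ite_eq_left_iff,
      zero_ne_one, imp_false, not_not, ite_eq_right_iff, one_ne_zero]
    exact ⟨id, id⟩

/-! ### Definability -/

theorem D11_val {α : Type} [Primcodable α] {e n y : α → ℕ} (he : Computable e)
    (hn : Computable n) (hy : Computable y) : D11 fun a => Val (e a) (n a) (y a) := by
  refine D11.ex ?_
  have h1 : PrimrecPred fun z : ℕ × ℕ × ℕ × ℕ =>
      evaln z.1 (Denumerable.ofNat Code z.2.1) z.2.2.1 = some z.2.2.2 := by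
    refine Primrec.eq.comp (prim_evaln .fst (Primrec.fst.comp .snd)
      (Primrec.fst.comp (Primrec.snd.comp .snd))) ?_
    exact Primrec.option_some.comp (Primrec.snd.comp (Primrec.snd.comp .snd))
  refine (D11.of_primrecPred h1).comp (f := fun z : α × ℕ => (z.2, e z.1, n z.1, y z.1)) ?_
  exact Computable.snd.pair ((he.comp .fst).pair ((hn.comp .fst).pair (hy.comp .fst)))

theorem D11_at {α : Type} [Primcodable α] {e i a b : α → ℕ} (he : Computable e)
    (hi : Computable i) (ha : Computable a) (hb : Computable b) :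
    D11 fun z => At (e z) (i z) (a z) (b z) := by
  refine D11_val he (n := fun z => fc (i z) (a z) (b z)) ?_ (Computable.const 1)
  exact prim_fc.to_comp.comp (hi.pair (ha.pair hb))

theorem D11_legit : D11 Legit := by
  refine D11.all ?_
  refine D11.or (D11.and ?_ ?_) ?_
  · exact D11_val .fst .snd (Computable.const 1)
  · exact (D11.of_primrecPred prim_IsFc).comp .snd
  · exact D11_val .fst .snd (Computable.const 0)

/-- isomorphism with a fixed `Δ¹₁` structure is `Σ¹₁` -/
theorem S11_iso {r : ℕ → ℕ → ℕ → Prop} (hr : D11 fun z : ℕ × ℕ × ℕ => r z.1 z.2.1 z.2.2) :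
    S11 fun e => IsoStr (str e) (ofRel r) := by
  let q : ℕ × List ℕ → Prop := fun z => ∀ i a b : ℕ,
    (a < z.2.length → b < z.2.length →
      ((At z.1 i a b ↔ r i (z.2.getD a 0).unpair.1 (z.2.getD b 0).unpair.1) ∧
      ((z.2.getD a 0).unpair.1 = b → (z.2.getD b 0).unpair.2 = a) ∧
      ((z.2.getD a 0).unpair.2 = b → (z.2.getD b 0).unpair.1 = a)))
  have hq : D11 q := by
    refine D11.all (D11.all (D11.all ?_))
    have h0 : Computable fun z : (((ℕ × List ℕ) × ℕ) × ℕ) × ℕ => z.1.1.1 :=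
      Computable.fst.comp (Computable.fst.comp .fst)
    have hl : Primrec fun z : (((ℕ × List ℕ) × ℕ) × ℕ) × ℕ => z.1.1.1.2 :=
      Primrec.snd.comp (Primrec.fst.comp (Primrec.fst.comp .fst))
    have hi : Primrec fun z : (((ℕ × List ℕ) × ℕ) × ℕ) × ℕ => z.1.1.2 :=
      Primrec.snd.comp (Primrec.fst.comp .fst)
    have ha : Primrec fun z : (((ℕ × List ℕ) × ℕ) × ℕ) × ℕ => z.1.2 := Primrec.snd.comp .fst
    have hb : Primrec fun z : (((ℕ × List ℕ) × ℕ) × ℕ) × ℕ => z.2 := Primrec.snd
    have hla : Primrec fun z : (((ℕ × List ℕ) × ℕ) × ℕ) × ℕ => (z.1.1.1.2.getD z.1.2 0).unpair :=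
      Primrec.unpair.comp ((Primrec.list_getD 0).comp hl ha)
    have hlb : Primrec fun z : (((ℕ × List ℕ) × ℕ) × ℕ) × ℕ => (z.1.1.1.2.getD z.2 0).unpair :=
      Primrec.unpair.comp ((Primrec.list_getD 0).comp hl hb)
    refine D11.imp ?_ (D11.imp ?_ (D11.and (D11.iff ?_ ?_) (D11.and (D11.imp ?_ ?_)
      (D11.imp ?_ ?_))))
    · exact D11.of_primrecPred (Primrec.nat_lt.comp ha (Primrec.list_length.comp hl))
    · exact D11.of_primrecPred (Primrec.nat_lt.comp hb (Primrec.list_length.comp hl))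
    · exact D11_at (Computable.fst.comp h0) hi.to_comp ha.to_comp hb.to_comp
    · exact hr.comp (f := fun z : (((ℕ × List ℕ) × ℕ) × ℕ) × ℕ =>
        (z.1.1.2, (z.1.1.1.2.getD z.1.2 0).unpair.1, (z.1.1.1.2.getD z.2 0).unpair.1))
        (hi.pair ((Primrec.fst.comp hla).pair (Primrec.fst.comp hlb))).to_comp
    · exact D11.of_primrecPred (Primrec.eq.comp (Primrec.fst.comp hla) hb)
    · exact D11.of_primrecPred (Primrec.eq.comp (Primrec.snd.comp hlb) ha)
    · exact D11.of_primrecPred (Primrec.eq.comp (Primrec.snd.comp hla) hb)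
    · exact D11.of_primrecPred (Primrec.eq.comp (Primrec.fst.comp hlb) ha)
  refine (S11.master hq.1).of_iff fun e => ?_
  rw [iso2_iff]
  constructor
  · rintro ⟨F, hF⟩
    have key : ∀ i a b, (At e i a b ↔ r i (F a).unpair.1 (F b).unpair.1) ∧
        ((F a).unpair.1 = b → (F b).unpair.2 = a) ∧
        ((F a).unpair.2 = b → (F b).unpair.1 = a) := by
      intro i a b
      have h1 := hF (max a b + 1) i a b (by simp) (by simp)
      rwa [S11.getD_map_range F (by omega : a < max a b + 1),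
        S11.getD_map_range F (by omega : b < max a b + 1)] at h1
    refine ⟨⟨fun a => (F a).unpair.1, fun a => (F a).unpair.2, fun a => (key 0 a _).2.1 rfl,
      fun a => (key 0 a _).2.2 rfl⟩, fun i a b => ?_⟩
    exact (key i a b).1
  · rintro ⟨f, hf⟩
    refine ⟨fun a => Nat.pair (f a) (f.symm a), fun n i a b ha hb => ?_⟩
    simp only [List.length_map, List.length_range] at ha hb
    rw [S11.getD_map_range _ ha, S11.getD_map_range _ hb]
    simp only [Nat.unpair_pair]
    refine ⟨hf i a b, ?_, ?_⟩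
    · rintro rfl; simp
    · rintro rfl; simp

end Pool.MP39df03
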