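import Pool.Agent.Lib.MP_39df03_lc.Class

/-!
# The main theorem
-/

namespace Pool.MP39df03

open Nat.Partrec (Code)
open Nat.Partrec.Code (evaln eval)

/-! ### Reading off the twist -/

/-- search for the base point of the sort `v` -/
def bp (e v : ℕ) : Part ℕ :=
  Nat.rfind fun p => (eval (Denumerable.ofNat Code e) (fc (Nat.pair 0 v) p p)).map
    fun y => decide (y = 1)

/-- the twist read off from the structure with index `e` -/
def psi (e w : ℕ) : Part ℕ :=
  cond (decide (w = 0))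
    ((bp e 0).bind fun p => eval (Denumerable.ofNat Code e) (fc (Nat.pair 3 0) p p))
    ((bp e (par w)).bind fun p => (bp e w).bind fun q =>
      eval (Denumerable.ofNat Code e) (fc (Nat.pair 4 0) p q))

theorem partrec_eval_fc {α : Type} [Primcodable α] {e i a b : α → ℕ} (he : Computable e)
    (hi : Computable i) (ha : Computable a) (hb : Computable b) :
    Partrec fun z => eval (Denumerable.ofNat Code (e z)) (fc (i z) (a z) (b z)) := by
  refine Nat.Partrec.Code.eval_part.comp ((Computable.ofNat Code).comp he) ?_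
  exact prim_fc.to_comp.comp (hi.pair (ha.pair hb))

theorem partrec_bp : Partrec₂ bp := by
  refine Partrec.rfind (p := fun (z : ℕ × ℕ) p =>
    (eval (Denumerable.ofNat Code z.1) (fc (Nat.pair 0 z.2) p p)).map fun y => decide (y = 1)) ?_
  refine Partrec.map (partrec_eval_fc (Computable.fst.comp .fst) ?_ .snd .snd) ?_
  · exact Primrec₂.natPair.to_comp.comp (Computable.const 0) (Computable.snd.comp .fst)
  · have h : PrimrecPred fun z : ((ℕ × ℕ) × ℕ) × ℕ => z.2 = 1 :=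
      Primrec.eq.comp .snd (Primrec.const 1)
    exact h.decide.to_comp

theorem partrec_psi : Partrec₂ psi := by
  refine Partrec.cond ?_ ?_ ?_
  · have h : PrimrecPred fun z : ℕ × ℕ => z.2 = 0 := Primrec.eq.comp .snd (Primrec.const 0)
    exact h.decide.to_comp
  · refine Partrec.bind (partrec_bp.comp .fst (Computable.const 0)) ?_
    exact partrec_eval_fc (Computable.fst.comp .fst) (Computable.const _) .snd .snd
  · refine Partrec.bind (partrec_bp.comp .fst (prim_par.to_comp.comp .snd)) ?_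
    refine Partrec.bind (partrec_bp.comp (Computable.fst.comp .fst) (Computable.snd.comp .fst)) ?_
    exact partrec_eval_fc (Computable.fst.comp (Computable.fst.comp .fst)) (Computable.const _)
      (Computable.snd.comp .fst) .snd

theorem legit_val {e : ℕ} (h : Legit e) (n : ℕ) :
    ∃ y, eval (Denumerable.ofNat Code e) n = Part.some y ∧ (y = 0 ∨ y = 1) := by
  rcases h n with ⟨h1, _⟩ | h1
  · exact ⟨1, val_iff.1 h1, Or.inr rfl⟩
  · exact ⟨0, val_iff.1 h1, Or.inl rfl⟩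

theorem at_iff {e i a b : ℕ} :
    At e i a b ↔ eval (Denumerable.ofNat Code e) (fc i a b) = Part.some 1 := val_iff (y := 1)

theorem bp_spec {e v p : ℕ} (h : Legit e) (hp : Least (At e) v p) : bp e v = Part.some p := by
  rw [Part.eq_some_iff]
  unfold bp
  rw [Nat.mem_rfind]
  constructor
  · rw [at_iff.1 hp.1]
    simp
  · intro q hq
    obtain ⟨y, hy, h01⟩ := legit_val h (fc (Nat.pair 0 v) q q)
    rw [hy]
    rcases h01 with rfl | rfl
    · simp
    · exact absurd (at_iff.2 hy) (hp.2 q hq)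

theorem psi_spec {e : ℕ} (h : Legit e) (hb : ∀ v, ∃ p, Least (At e) v p) :
    ∃ f : ℕ → ℕ, (∀ w, psi e w = Part.some (f w)) ∧ ∀ x, Reads (At e) (Cx x) Rt0 f := by
  choose p hp using hb
  have h1 : ∀ w, ∃ y, psi e w = Part.some y := by
    intro w
    unfold psi
    by_cases hw : w = 0
    · obtain ⟨y, hy, _⟩ := legit_val h (fc (Nat.pair 3 0) (p 0) (p 0))
      refine ⟨y, ?_⟩
      rw [decide_eq_true hw, cond_true, bp_spec h (hp 0), Part.bind_some, hy]
    · obtain ⟨y, hy, _⟩ := legit_val h (fc (Nat.pair 4 0) (p (par w)) (p w))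
      refine ⟨y, ?_⟩
      rw [decide_eq_false hw, cond_false, bp_spec h (hp (par w)), Part.bind_some,
        bp_spec h (hp w), Part.bind_some, hy]
  choose f hf using h1
  have key : ∀ n y, eval (Denumerable.ofNat Code e) n = Part.some y →
      (y % 2 = 1 ↔ eval (Denumerable.ofNat Code e) n = Part.some 1) := by
    intro n y hy
    obtain ⟨y', hy', h01⟩ := legit_val h n
    have : y = y' := by
      rw [hy] at hy'
      exact Part.some_inj.1 hy'
    subst this
    rw [hy, Part.some_inj]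
    rcases h01 with rfl | rfl <;> simp
  refine ⟨f, hf, fun x => ⟨?_, ?_⟩⟩
  · intro w hw
    rw [rt0_iff] at hw
    subst hw
    have h2 := hf 0
    unfold psi at h2
    rw [decide_eq_true rfl, cond_true, bp_spec h (hp 0), Part.bind_some] at h2
    rw [key _ _ h2, ← at_iff]
    constructor
    · intro h3; exact ⟨_, hp 0, h3⟩
    · rintro ⟨q, hq, h3⟩
      rwa [hq.unique (hp 0)] at h3
  · intro v w hC
    rw [cx_iff] at hC
    obtain ⟨hw, _, hpar⟩ := hC
    subst hpar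
    have h2 := hf w
    unfold psi at h2
    rw [decide_eq_false hw, cond_false, bp_spec h (hp (par w)), Part.bind_some,
      bp_spec h (hp w), Part.bind_some] at h2
    rw [key _ _ h2, ← at_iff]
    constructor
    · intro h3; exact ⟨_, _, hp _, hp _, h3⟩
    · rintro ⟨q, q', hq, hq', h3⟩
      rwa [hq.unique (hp _), hq'.unique (hp _)] at h3

theorem psi_of_iso {e x : ℕ} {h : ℕ → ℕ} (he : Legit e)
    (hI : IsoStr (TS (Cx x) Rt0 x h) (str e)) :
    ∃ f : ℕ → ℕ, (∀ w, psi e w = Part.some (f w)) ∧ IsoStr (TS (Cx x) Rt0 x f) (str e) := by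
  obtain ⟨_, _, _, _, hu, _⟩ := base_points hI
  obtain ⟨f, hf1, hf2⟩ := psi_spec he fun v => ⟨_, hu v⟩
  exact ⟨f, hf1, extract hI (hf2 x)⟩

/-! ### Isomorphism classes are hyperarithmetic -/

/-- the unit twist at the root -/
def dl (w : ℕ) : ℕ := if w = 0 then 1 else 0

theorem computable_dl : Computable dl :=
  (Primrec.ite (Primrec.eq.comp Primrec.id (Primrec.const 0)) (Primrec.const 1)
    (Primrec.const 0) : Primrec dl).to_comp

theorem D11_TS {C : ℕ → ℕ → ℕ → Bool} (hC : Primrec fun z : ℕ × ℕ × ℕ => C z.1 z.2.1 z.2.2)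
    {Rt : ℕ → Bool} (hR : Primrec Rt) (x : ℕ) {h : ℕ → ℕ} (hh : Computable h) :
    D11 fun z : ℕ × ℕ × ℕ => TSr (C x) Rt x (h z.2.2.unpair.1) z.1 z.2.1.unpair.1 z.2.1.unpair.2
      z.2.2.unpair.1 z.2.2.unpair.2 := by
  have ha : Primrec fun z : ℕ × ℕ × ℕ × ℕ => z.2.2.1.unpair :=
    Primrec.unpair.comp (Primrec.fst.comp (Primrec.snd.comp .snd))
  have hb : Primrec fun z : ℕ × ℕ × ℕ × ℕ => z.2.2.2.unpair :=
    Primrec.unpair.comp (Primrec.snd.comp (Primrec.snd.comp .snd))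
  have h1 := D11.of_primrecPred (prim_TSr (α := ℕ × ℕ × ℕ × ℕ) hC hR (y := fun _ => x)
    (x := fun _ => x) (β := fun z => z.1) (i := fun z => z.2.1) (v := fun z => z.2.2.1.unpair.1)
    (m := fun z => z.2.2.1.unpair.2) (w := fun z => z.2.2.2.unpair.1)
    (l := fun z => z.2.2.2.unpair.2) (Primrec.const x) (Primrec.const x) .fst
    (Primrec.fst.comp .snd) (Primrec.fst.comp ha) (Primrec.snd.comp ha) (Primrec.fst.comp hb)
    (Primrec.snd.comp hb))
  refine h1.comp (f := fun z : ℕ × ℕ × ℕ => (h z.2.2.unpair.1, z.1, z.2.1, z.2.2)) ?_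
  refine (hh.comp (Primrec.fst.comp (Primrec.unpair.comp
    (Primrec.snd.comp .snd))).to_comp).pair (Computable.fst.pair ?_)
  exact (Computable.fst.comp .snd).pair (Computable.snd.comp .snd)

theorem S11_iso_TS {C : ℕ → ℕ → ℕ → Bool} (hC : Primrec fun z : ℕ × ℕ × ℕ => C z.1 z.2.1 z.2.2)
    {Rt : ℕ → Bool} (hR : Primrec Rt) (x : ℕ) {h : ℕ → ℕ} (hh : Computable h) :
    S11 fun e => IsoStr (str e) (TS (C x) Rt x h) :=
  S11_iso (D11_TS hC hR x hh)

/-- the marking condition -/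
def Few (x i : ℕ) : Prop :=
  ∀ v, ∃ B, ∀ n s, (i, n) ∈ Mm (treeOf x) s → par n = v → n ≤ B

theorem few_iff {x i : ℕ} :
    Few x i ↔ ∀ v, {n | par n = v ∧ ∃ s, (i, n) ∈ Mm (treeOf x) s}.Finite := by
  refine forall_congr' fun v => ?_
  constructor
  · rintro ⟨B, hB⟩
    refine (Set.finite_le_nat B).subset ?_
    rintro n ⟨h1, s, hs⟩
    exact hB n s hs h1
  · intro h
    obtain ⟨B, hB⟩ := h.bddAbove
    exact ⟨B, fun n s hs h1 => hB ⟨h1, s, hs⟩⟩

theorem D11_few (x : ℕ) : D11 fun i => Few x i := by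
  refine D11.all (D11.ex (D11.all (D11.all (D11.imp ?_ (D11.imp ?_ ?_)))))
  · refine (D11.of_primrecPred prim_marks).comp
      (f := fun z : (((ℕ × ℕ) × ℕ) × ℕ) × ℕ => (x, z.1.1.1.1, z.1.2, z.2)) ?_
    exact (Computable.const x).pair ((Computable.fst.comp (Computable.fst.comp
      (Computable.fst.comp .fst))).pair ((Computable.snd.comp .fst).pair .snd))
  · refine D11.of_primrecPred (Primrec.eq.comp (prim_par.comp (Primrec.snd.comp .fst)) ?_)
    exact Primrec.snd.comp (Primrec.fst.comp (Primrec.fst.comp .fst))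
  · refine D11.of_primrecPred (Primrec.nat_le.comp (Primrec.snd.comp .fst) ?_)
    exact Primrec.snd.comp (Primrec.fst.comp .fst)

theorem comp_of_eval {i : ℕ} {f : ℕ → ℕ}
    (h : ∀ n, eval (Denumerable.ofNat Code i) n = Part.some (f n)) : Comp i f := by
  intro n
  have h1 : f n ∈ eval (Denumerable.ofNat Code i) n := by rw [h]; exact Part.mem_some _
  exact Nat.Partrec.Code.evaln_complete.1 h1

theorem Sol.congr {C C' : ℕ → ℕ → Prop} {Rt Rt' : ℕ → Prop} {d d' : ℕ → ZMod 2}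
    (h : Sol C Rt d) (hC : ∀ v w, C v w ↔ C' v w) (hR : ∀ w, Rt w ↔ Rt' w)
    (hd : ∀ w, d w = d' w) : Sol C' Rt' d' := by
  obtain ⟨g, h1, h2, h3⟩ := h
  refine ⟨g, fun v n hn => (hC v n).1 (h1 v n hn), fun v w hvw => ?_, fun w hw => ?_⟩
  · rw [← hd]; exact h2 v w ((hC v w).2 hvw)
  · rw [← hd]; exact h3 w ((hR w).2 hw)

theorem sys_cx_iff {e x : ℕ} :
    Sys (At e) (Cx x) Rt0 x ↔ ∃ h : ℕ → ℕ, IsoStr (TS (Cx x) Rt0 x h) (str e) :=
  sys_iff (C := Cx x) (Rt := Rt0) (A := At e) (x := x)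
    (fun _ _ _ h h' => cx_unique h h') (fun _ hw v => cx_root hw v)

theorem class_D11 {e₀ x : ℕ} {h₀ : ℕ → ℕ} (he₀ : Legit e₀)
    (hI₀ : IsoStr (TS (Cx x) Rt0 x h₀) (str e₀)) :
    D11 fun e => Legit e ∧ IsoStr (str e) (str e₀) := by
  obtain ⟨f₀, hf₀, hI⟩ := psi_of_iso he₀ hI₀
  have hcf₀ : Computable f₀ := by
    refine Partrec.of_eq_tot (f := fun w => psi e₀ w)
      (partrec_psi.comp (Computable.const e₀) Computable.id) fun w => ?_
    rw [hf₀]; exact Part.mem_some _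
  -- the sum of the two twists
  have hpart : Partrec fun p : ℕ => (psi p.unpair.1 p.unpair.2).map fun y => y + f₀ p.unpair.2 := by
    have hu : Computable fun p : ℕ => p.unpair.2 := (Primrec.snd.comp Primrec.unpair).to_comp
    refine Partrec.map (partrec_psi.comp (Primrec.fst.comp Primrec.unpair).to_comp hu) ?_
    exact Primrec.nat_add.to_comp.comp .snd (hcf₀.comp (hu.comp .fst))
  obtain ⟨c, hc⟩ := Nat.Partrec.Code.exists_code.1 (Partrec.nat_iff.1 hpart)
  set g : ℕ → ℕ := fun e => Encodable.encode (Nat.Partrec.Code.curry c e) with hg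
  have hgc : Computable g := Computable.encode.comp
    (Nat.Partrec.Code.primrec₂_curry.comp (Primrec.const c) Primrec.id).to_comp
  have hgev : ∀ e (f : ℕ → ℕ), (∀ w, psi e w = Part.some (f w)) →
      Comp (g e) (fun w => f w + f₀ w) := by
    intro e f hf
    refine comp_of_eval fun n => ?_
    rw [hg, Denumerable.ofNat_encode, Nat.Partrec.Code.eval_curry, hc]
    simp only [Nat.unpair_pair, hf, Part.map_some]
  have hdl : Computable fun w => f₀ w + dl w := Primrec.nat_add.to_comp.comp hcf₀ computable_dl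
  -- the union of the two classes
  have hU : D11 fun e => Legit e ∧ Sys (At e) (Cx x) Rt0 x ∧ Few x (g e) := by
    refine D11_legit.and (D11.and ?_ ((D11_few x).comp hgc))
    exact (D11_sys prim_Cx prim_Rt0).comp (f := fun e : ℕ => (e, x))
      (Computable.id.pair (Computable.const x))
  have hUiff : ∀ e, (Legit e ∧ Sys (At e) (Cx x) Rt0 x ∧ Few x (g e)) ↔
      Legit e ∧ (IsoStr (str e) (TS (Cx x) Rt0 x f₀) ∨
        IsoStr (str e) (TS (Cx x) Rt0 x fun w => f₀ w + dl w)) := by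
    intro e
    refine and_congr_right fun he => ?_
    constructor
    · rintro ⟨hS, hF⟩
      obtain ⟨h, hIh⟩ := sys_cx_iff.1 hS
      obtain ⟨f, hf, hIf⟩ := psi_of_iso he hIh
      obtain ⟨z, hz⟩ := sol_of_marks (hgev e f hf) (few_iff.1 hF)
      rcases zmod2_cases z with rfl | rfl
      · left
        refine hIf.symm.trans (iso_of_sol (hz.congr ?_ ?_ ?_))
        · intro v w; exact cx_iff.symm
        · intro w; exact rt0_iff.symm
        · intro w
          push_cast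
          split_ifs <;> simp
      · right
        refine hIf.symm.trans (iso_of_sol (hz.congr ?_ ?_ ?_))
        · intro v w; exact cx_iff.symm
        · intro w; exact rt0_iff.symm
        · intro w
          unfold dl
          push_cast
          split_ifs <;> ring
    · intro hor
      have hor' : ∃ k : ℕ → ℕ, (∀ n, n ≠ 0 → k n = f₀ n) ∧ IsoStr (str e) (TS (Cx x) Rt0 x k) := by
        rcases hor with h | h
        · exact ⟨f₀, fun _ _ => rfl, h⟩
        · refine ⟨_, fun n hn => ?_, h⟩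
          simp [dl, hn]
      obtain ⟨k, hk, hIk⟩ := hor'
      refine ⟨sys_cx_iff.2 ⟨k, hIk.symm⟩, ?_⟩
      obtain ⟨f, hf, hIf⟩ := psi_of_iso he hIk.symm
      have h1 := (sol_of_iso (hIf.trans hIk)).2
      rw [few_iff]
      refine marks_of_sol (hgev e f hf) (d := fun w => (f w : ZMod 2) + k w)
        (Rt := fun w => w = 0) ?_ (h1.congr ?_ ?_ ?_)
      · intro n hn
        rw [hk n hn]; push_cast; rfl
      · intro v w; exact cx_iff
      · intro w; exact rt0_iff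
      · intro w; rfl
  -- conclusion
  have hA0 : S11 fun e => Legit e ∧ IsoStr (str e) (TS (Cx x) Rt0 x f₀) :=
    D11_legit.1.and (S11_iso_TS prim_Cx prim_Rt0 x hcf₀)
  have hA1 : S11 fun e => Legit e ∧ IsoStr (str e) (TS (Cx x) Rt0 x fun w => f₀ w + dl w) :=
    D11_legit.1.and (S11_iso_TS prim_Cx prim_Rt0 x hdl)
  have hfin : D11 fun e => Legit e ∧ IsoStr (str e) (TS (Cx x) Rt0 x f₀) := by
    by_cases hsame : IsoStr (TS (Cx x) Rt0 x f₀) (TS (Cx x) Rt0 x fun w => f₀ w + dl w)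
    · refine hU.of_iff fun e => (hUiff e).trans (and_congr_right fun _ => ?_)
      constructor
      · rintro (h | h)
        · exact h
        · exact h.trans hsame.symm
      · intro h; exact Or.inl h
    · refine ⟨hA0, (hU.2.or hA1).of_iff fun e => ?_⟩
      beta_reduce
      rw [hUiff]
      constructor
      · rintro (h | ⟨h1, h2⟩) ⟨h3, h4⟩
        · exact h ⟨h3, Or.inl h4⟩
        · exact hsame (h4.symm.trans h2)
      · intro h
        by_cases h1 : Legit e ∧ IsoStr (str e) (TS (Cx x) Rt0 x fun w => f₀ w + dl w)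
        · exact Or.inr h1
        · left
          rintro ⟨h3, h4 | h4⟩
          · exact h ⟨h3, h4⟩
          · exact h1 ⟨h3, h4⟩
  refine hfin.of_iff fun e => and_congr_right fun _ => ?_
  exact ⟨fun h => h.trans hI, fun h => h.trans hI.symm⟩

/-! ### The class `K` -/

/-- the class `K` -/
def KK : Set (Str ar2) :=
  {M | (∃ e, IsIndex e M) ∧ ∃ x h, IsoStr (TS (Cx x) Rt0 x h) M}

theorem KK_isClass : IsClass KK := by
  refine ⟨fun M hM => hM.1, ?_⟩
  rintro M ⟨_, x, h, hI⟩ N hN hMN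
  exact ⟨hN, x, h, hI.trans hMN⟩

theorem mem_idx_KK {e : ℕ} : e ∈ idx KK ↔ Legit e ∧ ∃ x, Sys (At e) (Cx x) Rt0 x := by
  rw [mem_idx]
  refine and_congr_right fun he => ?_
  constructor
  · rintro ⟨_, x, h, hI⟩
    exact ⟨x, sys_cx_iff.2 ⟨h, hI⟩⟩
  · rintro ⟨x, hS⟩
    obtain ⟨h, hI⟩ := sys_cx_iff.1 hS
    exact ⟨⟨e, isIndex_str he⟩, x, h, hI⟩

theorem computable_ar2 : Computable ar2 := Computable.const 2

theorem KK_hyp : HypClass KK := by
  refine ⟨computable_ar2, KK_isClass, ?_⟩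
  rw [delta11_iff]
  refine (D11_legit.and (D11.ex (p := fun e x => Sys (At e) (Cx x) Rt0 x)
    (D11_sys prim_Cx prim_Rt0))).of_iff fun e => ?_
  exact mem_idx_KK.symm

/-- each isomorphism class of `E_K` is hyperarithmetic -/
theorem KK_class {a : ℕ} (ha : a ∈ idx KK) : D11 fun b => (b, a) ∈ isoRel KK := by
  obtain ⟨h1, h2⟩ := mem_idx.1 ha
  obtain ⟨_, x, h, hI⟩ := h2
  refine (class_D11 h1 hI).of_iff fun b => ?_
  rw [mem_isoRel]
  constructor
  · rintro ⟨h3, h4⟩
    refine ⟨mem_idx.2 ⟨h3, ⟨b, isIndex_str h3⟩, x, h, hI.trans h4.symm⟩, ha, h4⟩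
  · rintro ⟨h3, _, h4⟩
    exact ⟨(mem_idx.1 h3).1, h4⟩

theorem W_iff_iso (x : ℕ) : x ∈ W ↔
    IsoStr (TS (Cx x) Rt0 x fun _ => 0) (TS (Cx x) Rt0 x dl) := by
  rw [W_iff, ← hasPath_iff, ← sol_iff_path (Rt := fun w => w = 0)
    (fun v v' w h h' => h.2.2.symm.trans h'.2.2) (fun w hw v h => h.1 hw) rfl]
  constructor
  · intro h
    refine iso_of_sol (h.congr (fun v w => cx_iff.symm) (fun w => rt0_iff.symm) fun w => ?_)
    unfold dl
    split_ifs <;> simp
  · intro h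
    refine (sol_of_iso h).2.congr (fun v w => cx_iff) (fun w => rt0_iff) fun w => ?_
    unfold dl
    split_ifs <;> simp

theorem KK_not : ¬ Delta11Rel (isoRel KK) := by
  intro hD
  have hu1 : Primrec fun z : ℕ × ℕ × ℕ × ℕ => z.2.2.1.unpair :=
    Primrec.unpair.comp (Primrec.fst.comp (Primrec.snd.comp .snd))
  have hu2 : Primrec fun z : ℕ × ℕ × ℕ × ℕ => z.2.2.2.unpair :=
    Primrec.unpair.comp (Primrec.snd.comp (Primrec.snd.comp .snd))
  have hr : ∀ {β : ℕ × ℕ × ℕ × ℕ → ℕ}, Primrec β → PrimrecPred fun z : ℕ × ℕ × ℕ × ℕ =>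
      TSr (Cx z.1) Rt0 z.1 (β z) z.2.1 z.2.2.1.unpair.1 z.2.2.1.unpair.2 z.2.2.2.unpair.1
        z.2.2.2.unpair.2 := fun hβ =>
    prim_TSr prim_Cx prim_Rt0 .fst .fst hβ (Primrec.fst.comp .snd) (Primrec.fst.comp hu1)
      (Primrec.snd.comp hu1) (Primrec.fst.comp hu2) (Primrec.snd.comp hu2)
  obtain ⟨g0, hg0, hi0⟩ := exists_index (r := fun x i a b => TSr (Cx x) Rt0 x 0 i a.unpair.1
    a.unpair.2 b.unpair.1 b.unpair.2) (hr (Primrec.const 0))
  obtain ⟨g1, hg1, hi1⟩ := exists_index (r := fun x i a b => TSr (Cx x) Rt0 x (dl b.unpair.1) i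
    a.unpair.1 a.unpair.2 b.unpair.1 b.unpair.2) (hr (by
      exact Primrec.ite (Primrec.eq.comp (Primrec.fst.comp hu2) (Primrec.const 0))
        (Primrec.const 1) (Primrec.const 0)))
  have e0 : ∀ x, IsIndex (g0 x) (TS (Cx x) Rt0 x fun _ => 0) := hi0
  have e1 : ∀ x, IsIndex (g1 x) (TS (Cx x) Rt0 x dl) := hi1
  have hD' : D11 fun n : ℕ => n.unpair ∈ isoRel KK := hD
  refine W_not_D11 ((hD'.comp (f := fun x => Nat.pair (g0 x) (g1 x))
    (Primrec₂.natPair.to_comp.comp hg0 hg1)).of_iff fun x => ?_)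
  rw [Nat.unpair_pair, W_iff_iso]
  constructor
  · rintro ⟨M, _, N, _, hM, hN, h⟩
    rw [eq_str hM, eq_str hN, ← eq_str (e0 x), ← eq_str (e1 x)] at h
    exact h
  · intro h
    exact ⟨_, ⟨⟨_, e0 x⟩, x, _, IsoStr.refl _⟩, _, ⟨⟨_, e1 x⟩, x, _, IsoStr.refl _⟩, e0 x, e1 x, h⟩

/-! ### The class of all computable structures -/

/-- all computable structures -/
def KA : Set (Str ar2) := {M | ∃ e, IsIndex e M}

theorem mem_idx_KA {e : ℕ} : e ∈ idx KA ↔ Legit e := by
  rw [mem_idx]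
  exact ⟨fun h => h.1, fun h => ⟨h, e, isIndex_str h⟩⟩

theorem KA_hyp : HypClass KA := by
  refine ⟨computable_ar2, ⟨fun M hM => hM, fun M _ N hN _ => hN⟩, ?_⟩
  rw [delta11_iff]
  exact D11_legit.of_iff fun e => mem_idx_KA.symm

/-- the forest of all the trees `treeOf x` -/
def Cf (v w : ℕ) : Bool :=
  decide (v.unpair.1 = w.unpair.1 ∧ w.unpair.2 ≠ 0 ∧ treeOf w.unpair.1 w.unpair.2 = true ∧
    par w.unpair.2 = v.unpair.2)

/-- roots of the forest -/
def Rf (w : ℕ) : Bool := decide (w.unpair.2 = 0)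

theorem cf_iff {v w : ℕ} : Cf v w = true ↔ v.unpair.1 = w.unpair.1 ∧ w.unpair.2 ≠ 0 ∧
    treeOf w.unpair.1 w.unpair.2 = true ∧ par w.unpair.2 = v.unpair.2 := by
  unfold Cf; rw [decide_eq_true_eq]

theorem rf_iff {w : ℕ} : Rf w = true ↔ w.unpair.2 = 0 := by
  unfold Rf; rw [decide_eq_true_eq]

theorem prim_Cf : Primrec fun z : ℕ × ℕ × ℕ => (fun _ : ℕ => Cf) z.1 z.2.1 z.2.2 := by
  have hv : Primrec fun z : ℕ × ℕ × ℕ => z.2.1.unpair := Primrec.unpair.comp (Primrec.fst.comp .snd)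
  have hw : Primrec fun z : ℕ × ℕ × ℕ => z.2.2.unpair := Primrec.unpair.comp (Primrec.snd.comp .snd)
  have h : PrimrecPred fun z : ℕ × ℕ × ℕ =>
      z.2.1.unpair.1 = z.2.2.unpair.1 ∧ z.2.2.unpair.2 ≠ 0 ∧
        treeOf z.2.2.unpair.1 z.2.2.unpair.2 = true ∧ par z.2.2.unpair.2 = z.2.1.unpair.2 := by
    refine PrimrecPred.and (Primrec.eq.comp (Primrec.fst.comp hv) (Primrec.fst.comp hw))
      (PrimrecPred.and (Primrec.eq.comp (Primrec.snd.comp hw) (Primrec.const 0)).not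
        (PrimrecPred.and ?_ (Primrec.eq.comp (prim_par.comp (Primrec.snd.comp hw))
          (Primrec.snd.comp hv))))
    exact Primrec.eq.comp (prim_treeOf.comp (Primrec.fst.comp hw) (Primrec.snd.comp hw))
      (Primrec.const true)
  exact h.decide

theorem prim_Rf : Primrec Rf :=
  (Primrec.eq.comp (Primrec.snd.comp Primrec.unpair) (Primrec.const 0) :
    PrimrecPred fun w : ℕ => w.unpair.2 = 0).decide

/-- unit twist at the `x`-th root -/
def df (x w : ℕ) : ℕ := if w = Nat.pair x 0 then 1 else 0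

theorem W_iff_iso' (x : ℕ) : x ∈ W ↔
    IsoStr (TS Cf Rf 0 (df x)) (TS Cf Rf 0 fun _ => 0) := by
  have hpath : HasPath (TCh (treeOf x)) 0 ↔ HasPath (fun v w => Cf v w = true) (Nat.pair x 0) := by
    constructor
    · rintro ⟨q, hq0, hq⟩
      refine ⟨fun i => Nat.pair x (q i), by simp only [hq0], fun i => ?_⟩
      obtain ⟨h1, h2, h3⟩ := hq i
      rw [cf_iff, Nat.unpair_pair, Nat.unpair_pair]
      exact ⟨rfl, h1, h2, h3⟩
    · rintro ⟨q, hq0, hq⟩
      have h1 : ∀ i, (q i).unpair.1 = x := by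
        intro i
        induction i with
        | zero => rw [hq0, Nat.unpair_pair]
        | succ i ih => rw [← (cf_iff.1 (hq i)).1, ih]
      refine ⟨fun i => (q i).unpair.2, by simp only [hq0, Nat.unpair_pair], fun i => ?_⟩
      obtain ⟨_, h2, h3, h4⟩ := cf_iff.1 (hq i)
      rw [h1] at h3
      exact ⟨h2, h3, h4⟩
  rw [W_iff, hpath, ← sol_iff_path (Rt := fun w => Rf w = true) ?_ ?_
    (rf_iff.2 (by rw [Nat.unpair_pair]))]
  · constructor
    · intro h
      refine iso_of_sol (h.congr (fun v w => Iff.rfl) (fun w => Iff.rfl) fun w => ?_)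
      unfold df
      split_ifs <;> simp
    · intro h
      refine (sol_of_iso h).2.congr (fun v w => Iff.rfl) (fun w => Iff.rfl) fun w => ?_
      unfold df
      split_ifs <;> simp
  · intro v v' w h h'
    rw [cf_iff] at h h'
    have e1 : v.unpair.1 = v'.unpair.1 := h.1.trans h'.1.symm
    have e2 : v.unpair.2 = v'.unpair.2 := h.2.2.2.symm.trans h'.2.2.2
    rw [← Nat.pair_unpair v, ← Nat.pair_unpair v', e1, e2]
  · intro w hw v h
    exact (cf_iff.1 h).2.1 (rf_iff.1 hw)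

theorem forest_index : ∃ g : ℕ → ℕ, Computable g ∧ ∀ x, IsIndex (g x) (TS Cf Rf 0 (df x)) := by
  have hu1 : Primrec fun z : ℕ × ℕ × ℕ × ℕ => z.2.2.1.unpair :=
    Primrec.unpair.comp (Primrec.fst.comp (Primrec.snd.comp .snd))
  have hu2 : Primrec fun z : ℕ × ℕ × ℕ × ℕ => z.2.2.2.unpair :=
    Primrec.unpair.comp (Primrec.snd.comp (Primrec.snd.comp .snd))
  have hdf : Primrec fun z : ℕ × ℕ × ℕ × ℕ => df z.1 z.2.2.2.unpair.1 :=
    Primrec.ite (Primrec.eq.comp (Primrec.fst.comp hu2)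
      (Primrec₂.natPair.comp .fst (Primrec.const 0))) (Primrec.const 1) (Primrec.const 0)
  have h := prim_TSr (α := ℕ × ℕ × ℕ × ℕ) (C := fun _ => Cf) prim_Cf prim_Rf (y := fun _ => 0)
    (x := fun _ => 0) (β := fun z => df z.1 z.2.2.2.unpair.1) (i := fun z => z.2.1)
    (v := fun z => z.2.2.1.unpair.1) (m := fun z => z.2.2.1.unpair.2)
    (w := fun z => z.2.2.2.unpair.1) (l := fun z => z.2.2.2.unpair.2)
    (Primrec.const 0) (Primrec.const 0) hdf (Primrec.fst.comp .snd) (Primrec.fst.comp hu1)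
    (Primrec.snd.comp hu1) (Primrec.fst.comp hu2) (Primrec.snd.comp hu2)
  obtain ⟨g, hg, hi⟩ := exists_index (r := fun x i a b => TSr Cf Rf 0 (df x b.unpair.1) i
    a.unpair.1 a.unpair.2 b.unpair.1 b.unpair.2) h
  exact ⟨g, hg, hi⟩

theorem forest_index0 : ∃ g : ℕ, IsIndex g (TS Cf Rf 0 fun _ => 0) := by
  have hu1 : Primrec fun z : ℕ × ℕ × ℕ × ℕ => z.2.2.1.unpair :=
    Primrec.unpair.comp (Primrec.fst.comp (Primrec.snd.comp .snd))
  have hu2 : Primrec fun z : ℕ × ℕ × ℕ × ℕ => z.2.2.2.unpair :=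
    Primrec.unpair.comp (Primrec.snd.comp (Primrec.snd.comp .snd))
  have h := prim_TSr (α := ℕ × ℕ × ℕ × ℕ) (C := fun _ => Cf) prim_Cf prim_Rf (y := fun _ => 0)
    (x := fun _ => 0) (β := fun _ => 0) (i := fun z => z.2.1)
    (v := fun z => z.2.2.1.unpair.1) (m := fun z => z.2.2.1.unpair.2)
    (w := fun z => z.2.2.2.unpair.1) (l := fun z => z.2.2.2.unpair.2)
    (Primrec.const 0) (Primrec.const 0) (Primrec.const 0) (Primrec.fst.comp .snd)
    (Primrec.fst.comp hu1)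
    (Primrec.snd.comp hu1) (Primrec.fst.comp hu2) (Primrec.snd.comp hu2)
  obtain ⟨g, _, hi⟩ := exists_index (r := fun _ i a b => TSr Cf Rf 0 0 i
    a.unpair.1 a.unpair.2 b.unpair.1 b.unpair.2) h
  exact ⟨g 0, hi 0⟩

theorem KK_not_complete : ¬ CompleteIso KK := by
  intro hcomp
  obtain ⟨f, hf1, hf2, hf3⟩ := hcomp ar2 KA KA_hyp
  obtain ⟨g1, hg1, e1⟩ := forest_index
  obtain ⟨g0, e0⟩ := forest_index0
  have m1 : ∀ x, g1 x ∈ idx KA := fun x => ⟨_, ⟨_, e1 x⟩, e1 x⟩
  have m0 : g0 ∈ idx KA := ⟨_, ⟨_, e0⟩, e0⟩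
  have hcls : D11 fun b => (b, f g0) ∈ isoRel KK := KK_class (hf2 _ m0)
  have hgr : D11 fun n : ℕ => n.unpair.1 ∈ idx KA ∧ n.unpair.2 = f n.unpair.1 := hf1
  have hgr' : D11 fun z : ℕ × ℕ => g1 z.1 ∈ idx KA ∧ z.2 = f (g1 z.1) := by
    refine (hgr.comp (f := fun z : ℕ × ℕ => Nat.pair (g1 z.1) z.2)
      (Primrec₂.natPair.to_comp.comp (hg1.comp .fst) .snd)).of_iff fun z => ?_
    rw [Nat.unpair_pair]
  have hex : D11 fun x => ∃ y, (g1 x ∈ idx KA ∧ y = f (g1 x)) ∧ (y, f g0) ∈ isoRel KK :=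
    D11.ex (p := fun x y => (g1 x ∈ idx KA ∧ y = f (g1 x)) ∧ (y, f g0) ∈ isoRel KK)
      (D11.and hgr' (hcls.comp .snd))
  refine W_not_D11 (hex.of_iff fun x => ?_)
  rw [W_iff_iso']
  have h1 : IsoStr (TS Cf Rf 0 (df x)) (TS Cf Rf 0 fun _ => 0) ↔ (g1 x, g0) ∈ isoRel KA := by
    rw [mem_isoRel, ← eq_str (e1 x), ← eq_str e0]
    exact ⟨fun h => ⟨m1 x, m0, h⟩, fun h => h.2.2⟩
  rw [h1, hf3 _ (m1 x) _ m0]
  constructor
  · rintro ⟨y, ⟨_, rfl⟩, h⟩; exact h
  · intro h; exact ⟨_, ⟨m1 x, rfl⟩, h⟩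

/-- The main theorem. -/
theorem main : ∃ (ar : ℕ → ℕ) (K : Set (Str ar)), HypClass K ∧ ¬ Delta11Rel (isoRel K) ∧
    ¬ CompleteIso K := ⟨ar2, KK, KK_hyp, KK_not, KK_not_complete⟩

end Pool.MP39df03
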