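import Pool.Agent.Lib.MP_39df03_lc.TruePath

/-!
# Parity arguments: the requirements
-/

namespace Pool.MP39df03

open Nat.Partrec (Code)
open Nat.Partrec.Code (evaln eval)

variable {T : ℕ → Bool}

/-- `P h s n` is the sum of `h` over the descendants of `n` present at stage `s` -/
noncomputable def P (T : ℕ → Bool) (h : ℕ → ZMod 2) (s n : ℕ) : ZMod 2 :=
  ∑ ρ ∈ (Nn T s).toFinset.filter (fun ρ => Desc n ρ), h ρ

/-- `e` computes the total function `f` -/
def Comp (e : ℕ) (f : ℕ → ℕ) : Prop :=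
  ∀ n, ∃ k, evaln k (Denumerable.ofNat Code e) n = some (f n)

theorem Comp.val {e : ℕ} {f : ℕ → ℕ} (h : Comp e f) {s n : ℕ}
    (hc : (evaln s (Denumerable.ofNat Code e) n).isSome = true) :
    evaln s (Denumerable.ofNat Code e) n = some (f n) := by
  obtain ⟨x, hx⟩ := Option.isSome_iff_exists.1 hc
  obtain ⟨k, hk⟩ := h n
  have h1 := Nat.Partrec.Code.evaln_sound hx
  have h2 := Nat.Partrec.Code.evaln_sound hk
  rw [hx, Part.mem_unique h1 h2]

theorem zmod2_one_iff (n : ℕ) : n % 2 = 1 ↔ ((n : ℕ) : ZMod 2) = 1 := by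
  rw [ZMod.natCast_eq_one_iff_odd, Nat.odd_iff]

theorem zmod2_cases (a : ZMod 2) : a = 0 ∨ a = 1 := by
  fin_cases a
  · left; rfl
  · right; rfl

/-- the sum in the marking condition is the parity -/
theorem sum_parity {e : ℕ} {f : ℕ → ℕ} (hf : Comp e f) {s n : ℕ}
    (hc : ∀ ρ ∈ Nn T s, Desc n ρ → (evaln s (Denumerable.ofNat Code e) ρ).isSome = true) :
    (((Nn T s).filter fun ρ => Desc n ρ).map fun ρ =>
      (evaln s (Denumerable.ofNat Code e) ρ).getD 0).sum % 2 = 1 ↔
      P T (fun n => (f n : ZMod 2)) s n = 1 := by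
  have h1 : (((Nn T s).filter fun ρ => Desc n ρ).map fun ρ =>
      (evaln s (Denumerable.ofNat Code e) ρ).getD 0) =
      ((Nn T s).filter fun ρ => Desc n ρ).map f := by
    refine List.map_congr_left fun ρ hρ => ?_
    rw [List.mem_filter, decide_eq_true_eq] at hρ
    rw [hf.val (hc ρ hρ.1 hρ.2)]; rfl
  rw [h1, zmod2_one_iff]
  have h2 : (((Nn T s).filter fun ρ => Desc n ρ).map f).sum =
      ∑ ρ ∈ (Nn T s).toFinset.filter (fun ρ => Desc n ρ), f ρ := by
    have h3 := List.sum_toFinset f ((nodup_N (T := T) s).filter fun ρ => decide (Desc n ρ))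
    rw [← h3]
    refine Finset.sum_congr ?_ fun _ _ => rfl
    ext ρ
    simp
  rw [h2]
  unfold P
  push_cast
  rfl

/-- solutions of the system `b(w) + ∑_{children u of w} b(u) = d(w)` -/
def Sol (C : ℕ → ℕ → Prop) (Rt : ℕ → Prop) (d : ℕ → ZMod 2) : Prop :=
  ∃ g : ℕ → Finset ℕ, (∀ v, ∀ n ∈ g v, C v n) ∧
    (∀ v w, C v w → (if w ∈ g v then 1 else 0) + ((g w).card : ZMod 2) = d w) ∧
    ∀ w, Rt w → ((g w).card : ZMod 2) = d w

/-- telescoping over a frozen subtree -/
theorem telescope {d : ℕ → ZMod 2} {g : ℕ → Finset ℕ} (hg : ∀ v, ∀ n ∈ g v, Chl T v n)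
    (hd : ∀ v w, Chl T v w → (if w ∈ g v then 1 else 0) + ((g w).card : ZMod 2) = d w)
    {s n : ℕ} (hn : n ∈ Nn T s) (hn0 : n ≠ 0)
    (hfr : ∀ t, s ≤ t → ∀ ρ ∈ Nn T t, Desc n ρ → ρ ∈ Nn T s) :
    P T d s n = if n ∈ g (par n) then 1 else 0 := by
  classical
  set F := (Nn T s).toFinset.filter (fun ρ => Desc n ρ) with hF
  have memF : ∀ ρ, ρ ∈ F ↔ ρ ∈ Nn T s ∧ Desc n ρ := by
    intro ρ; rw [hF, Finset.mem_filter, List.mem_toFinset]
  have hnF : n ∈ F := (memF n).2 ⟨hn, Desc.refl n⟩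
  have hne : ∀ ρ ∈ F, ρ ≠ 0 := by
    intro ρ hρ h0
    have := ((memF ρ).1 hρ).2.le
    omega
  have h1 : P T d s n = ∑ ρ ∈ F, ((if ρ ∈ g (par ρ) then 1 else 0) + ((g ρ).card : ZMod 2)) := by
    refine Finset.sum_congr rfl fun ρ hρ => ?_
    exact (hd (par ρ) ρ ⟨hne ρ hρ, node_of_mem ((memF ρ).1 hρ).1, rfl⟩).symm
  rw [h1, Finset.sum_add_distrib]
  have h2 : ∑ ρ ∈ F, ((g ρ).card : ZMod 2) = ((F.biUnion g).card : ZMod 2) := by
    rw [Finset.card_biUnion]
    · push_cast; rfl
    · intro x _ y _ hxy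
      rw [Function.onFun, Finset.disjoint_left]
      intro w hw hw'
      exact hxy ((hg x w hw).2.2.symm.trans (hg y w hw').2.2)
  have h3 : F.biUnion g = (F.erase n).filter (fun w => w ∈ g (par w)) := by
    ext w
    rw [Finset.mem_biUnion, Finset.mem_filter, Finset.mem_erase]
    constructor
    · rintro ⟨ρ, hρ, hw⟩
      obtain ⟨hw0, hwN, hwp⟩ := hg ρ w hw
      have hdesc : Desc n w := by
        refine ((memF ρ).1 hρ).2.trans ?_
        rw [← hwp]; exact desc_par w
      refine ⟨⟨?_, (memF w).2 ⟨?_, hdesc⟩⟩, by rw [hwp]; exact hw⟩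
      · rintro rfl
        have h4 := ((memF ρ).1 hρ).2.le
        have h5 := par_lt hw0
        omega
      · exact hfr (max s (st w + 1)) (le_max_left _ _) w
          (mem_of_node hwN (by omega)) hdesc
    · rintro ⟨⟨hwn, hwF⟩, hw⟩
      obtain ⟨h4, h5⟩ := (memF w).1 hwF
      exact ⟨par w, (memF _).2 ⟨N_par h4, desc_of_lt h5 (Ne.symm hwn)⟩, hw⟩
  rw [h2, h3]
  have h4 : ∑ ρ ∈ F, (if ρ ∈ g (par ρ) then (1 : ZMod 2) else 0) =
      (if n ∈ g (par n) then 1 else 0) +
        ((((F.erase n).filter (fun w => w ∈ g (par w))).card : ℕ) : ZMod 2) := by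
    rw [← Finset.add_sum_erase F _ hnF, Finset.sum_ite, Finset.sum_const_zero, add_zero,
      Finset.sum_const, nsmul_eq_mul, mul_one]
  rw [h4, add_assoc, CharTwo.add_self_eq_zero, add_zero]

/-- a marked node has odd parity for ever -/
theorem mark_info {e : ℕ} {f : ℕ → ℕ} (hf : Comp e f) {u n : ℕ} (h : (e, n) ∈ Mm T u) :
    ∃ s, n ∈ Nn T s ∧ n ≠ 0 ∧ (∀ t, s ≤ t → ∀ ρ ∈ Nn T t, Desc n ρ → ρ ∈ Nn T s) ∧
      P T (fun n => (f n : ZMod 2)) s n = 1 := by
  induction u with
  | zero => simp [Mm, state] at h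
  | succ s ih =>
    rcases mem_M_succ.1 h with h' | ⟨_, h1, h2, h3, h4, _⟩
    · exact ih h'
    · refine ⟨s, h1, h2, fun t hst ρ hρ hd => ?_, (sum_parity hf h3).1 h4⟩
      exact frozen (M_sub_D h) h1 hst hρ hd

/-- if the system has a solution, then `e` marks finitely many children of each node -/
theorem marks_of_sol {e : ℕ} {f : ℕ → ℕ} (hf : Comp e f) {d : ℕ → ZMod 2} {Rt : ℕ → Prop}
    (hd : ∀ n, n ≠ 0 → d n = (f n : ZMod 2)) (h : Sol (Chl T) Rt d) (v : ℕ) :
    {n | par n = v ∧ ∃ s, (e, n) ∈ Mm T s}.Finite := by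
  obtain ⟨g, hg1, hg2, _⟩ := h
  refine (g v).finite_toSet.subset ?_
  rintro n ⟨rfl, s, hs⟩
  obtain ⟨s, h1, h2, h3, h4⟩ := mark_info hf hs
  have h5 := telescope hg1 hg2 h1 h2 h3
  have h6 : P T d s n = P T (fun n => (f n : ZMod 2)) s n := by
    refine Finset.sum_congr rfl fun ρ hρ => ?_
    rw [Finset.mem_filter] at hρ
    refine hd ρ ?_
    have := hρ.2.le
    omega
  rw [h6, h4] at h5
  by_contra hcon
  rw [if_neg (fun h => hcon (Finset.mem_coe.2 h))] at h5
  exact one_ne_zero h5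

/-- decomposition of the parity -/
theorem P_succ (h : ℕ → ZMod 2) {s v : ℕ} (hv : v ∈ Nn T s) :
    P T h s v = h v + ∑ n ∈ (Nn T s).toFinset.filter (fun n => n ≠ 0 ∧ par n = v), P T h s n := by
  classical
  unfold P
  rw [← Finset.sum_biUnion]
  · have h1 : (Nn T s).toFinset.filter (fun ρ => Desc v ρ) =
        insert v (((Nn T s).toFinset.filter (fun n => n ≠ 0 ∧ par n = v)).biUnion
          fun n => (Nn T s).toFinset.filter (fun ρ => Desc n ρ)) := by
      ext ρ
      simp only [Finset.mem_filter, List.mem_toFinset, Finset.mem_insert, Finset.mem_biUnion]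
      constructor
      · rintro ⟨h1, h2⟩
        by_cases hρ : v = ρ
        · left; exact hρ.symm
        · right
          obtain ⟨c, hc0, hcp, hc⟩ := desc_child h2 hρ
          exact ⟨c, ⟨N_desc h1 hc, hc0, hcp⟩, h1, hc⟩
      · rintro (rfl | ⟨c, ⟨_, _, hcp⟩, h1, h2⟩)
        · exact ⟨hv, Desc.refl _⟩
        · refine ⟨h1, Desc.trans ?_ h2⟩
          rw [← hcp]; exact desc_par c
    rw [h1, Finset.sum_insert]
    simp only [Finset.mem_filter, List.mem_toFinset, Finset.mem_biUnion, not_exists, not_and]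
    rintro c ⟨_, hc0, hcp⟩ _ hc
    have h3 := hc.le
    have h4 := par_lt hc0
    omega
  · intro x hx y hy hxy
    simp only [Finset.coe_filter, List.mem_toFinset, Set.mem_ofPred_eq] at hx hy
    rw [Function.onFun, Finset.disjoint_left]
    intro ρ h1 h2
    rw [Finset.mem_filter] at h1 h2
    exact hxy (desc_child_unique hx.2.1 hy.2.1 (hx.2.2.trans hy.2.2.symm) h1.2 h2.2)

/-- the list version of eventual convergence -/
theorem Comp.list {e : ℕ} {f : ℕ → ℕ} (hf : Comp e f) (l : List ℕ) :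
    ∃ s₀, ∀ s, s₀ ≤ s → ∀ n ∈ l, (evaln s (Denumerable.ofNat Code e) n).isSome = true := by
  induction l with
  | nil => exact ⟨0, by simp⟩
  | cons a l ih =>
    obtain ⟨k1, hk1⟩ := ih
    obtain ⟨k2, hk2⟩ := hf a
    refine ⟨max k1 k2, fun s hs n hn => ?_⟩
    rcases List.mem_cons.1 hn with rfl | hn
    · rw [Nat.Partrec.Code.evaln_mono (show k2 ≤ s by omega) hk2]; rfl
    · exact hk1 s (by omega) n hn

/-- a dead node with odd parity gets marked -/
theorem dead_even {e : ℕ} {f : ℕ → ℕ} (hf : Comp e f) {s n : ℕ} (hn : n ∈ Nn T s) (hn0 : n ≠ 0)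
    (hD : n ∈ Dd T (s + 1)) (hno : ∀ t, (e, n) ∉ Mm T t) :
    P T (fun n => (f n : ZMod 2)) s n = 0 := by
  rcases zmod2_cases (P T (fun n => (f n : ZMod 2)) s n) with h | h
  · exact h
  exfalso
  obtain ⟨s₀, hs₀⟩ := hf.list (Nn T s)
  set t := max (max s₀ (s + 1)) (e + 1) with ht
  have hconv : ∀ ρ ∈ Nn T t, Desc n ρ →
      (evaln t (Denumerable.ofNat Code e) ρ).isSome = true := by
    intro ρ hρ hd
    exact hs₀ t (by omega) ρ (frozen hD hn (by omega) hρ hd)
  have hP : P T (fun n => (f n : ZMod 2)) t n = P T (fun n => (f n : ZMod 2)) s n := by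
    unfold P
    congr 1
    ext ρ
    simp only [Finset.mem_filter, List.mem_toFinset]
    constructor
    · rintro ⟨h1, h2⟩
      exact ⟨frozen hD hn (by omega) h1 h2, h2⟩
    · rintro ⟨h1, h2⟩
      exact ⟨N_mono (by omega) h1, h2⟩
  refine hno (t + 1) (mem_M_succ.2 (Or.inr ⟨by omega, N_mono (by omega) hn, hn0, hconv, ?_, ?_⟩))
  · exact (sum_parity hf hconv).2 (by rw [hP, h])
  · right
    exact D_mono (by omega) hD

/-- a node listening to `e`, in a slot without marks, has even parity at all stages -/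
theorem listen_even {e : ℕ} {f : ℕ → ℕ} (hf : Comp e f) {n : ℕ} (hn : Node T n) (hn0 : n ≠ 0)
    {γ : List Bool} (hγ : γ.length = e) (hg : (γ ++ [true]) <+: gs n)
    (hno : ∀ n' t, par n' = par n → tn n' = tn n → gs n' = gs n → (e, n') ∉ Mm T t)
    {s : ℕ} (hns : n ∈ Nn T s) :
    P T (fun n => (f n : ZMod 2)) s n = 0 := by
  rcases zmod2_cases (P T (fun n => (f n : ZMod 2)) s n) with h | h
  · exact h
  exfalso
  have hes : e < s := by
    have h1 := hg.length_le
    have h2 := (node_info hn hn0).2.2.2.2.1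
    have h3 := (N_st hns).resolve_left hn0
    simp at h1
    omega
  have helen : e < (gs n).length := by
    have h1 := hg.length_le
    simp at h1
    omega
  have key : ∀ t, s ≤ t → (∀ ρ ∈ Nn T t, Desc n ρ → ρ ∈ Nn T s) := by
    intro t hst
    induction hst with
    | refl => intro ρ h _; exact h
    | @step t hst ih =>
      have hst' : s ≤ t := hst
      intro ρ hρ hd
      by_cases hρ' : ρ ∈ Nn T t
      · exact ih ρ hρ' hd
      · exfalso
        have hP : P T (fun n => (f n : ZMod 2)) t n = P T (fun n => (f n : ZMod 2)) s n := by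
          unfold P
          congr 1
          ext ρ
          simp only [Finset.mem_filter, List.mem_toFinset]
          constructor
          · rintro ⟨h1, h2⟩
            exact ⟨ih ρ h1 h2, h2⟩
          · rintro ⟨h1, h2⟩
            exact ⟨N_mono hst' h1, h2⟩
        -- at stage `t` the guess is followed
        have hb := born hρ hρ'
        have hgt : (γ ++ [true]) <+: del T t := by
          refine hg.trans ?_
          have h1 : Desc n (par ρ) := by
            refine desc_of_lt hd ?_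
            rintro rfl
            exact hρ' (N_mono hst' hns)
          refine (gs_desc hb.2.2.1 h1).trans (hb.2.2.2.2.1.trans ?_)
          rw [hb.2.2.2.2.2.1]
          exact List.take_prefix _ _
        have hconv : ∀ ρ ∈ Nn T t, Desc n ρ →
            (evaln t (Denumerable.ofNat Code e) ρ).isSome = true := by
          intro ρ h1 h2
          have := conv_of_true hgt h1 (hg.trans (gs_desc h1 h2))
          rwa [hγ] at this
        refine hno n (t + 1) rfl rfl rfl (mem_M_succ.2 (Or.inr ⟨by omega,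
          N_mono hst' hns, hn0, hconv, ?_, ?_⟩))
        · exact (sum_parity hf hconv).2 (by rw [hP, h])
        · left
          exact ⟨helen, fun n' _ h1 h2 h3 => hno n' t h1 h2 h3⟩
  obtain ⟨s₀, hs₀⟩ := hf.list (Nn T s)
  set t := max s₀ s with ht
  have hconv : ∀ ρ ∈ Nn T t, Desc n ρ →
      (evaln t (Denumerable.ofNat Code e) ρ).isSome = true := by
    intro ρ h1 h2
    exact hs₀ t (by omega) ρ (key t (by omega) ρ h1 h2)
  have hP : P T (fun n => (f n : ZMod 2)) t n = P T (fun n => (f n : ZMod 2)) s n := by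
    unfold P
    congr 1
    ext ρ
    simp only [Finset.mem_filter, List.mem_toFinset]
    constructor
    · rintro ⟨h1, h2⟩
      exact ⟨key t (by omega) ρ h1 h2, h2⟩
    · rintro ⟨h1, h2⟩
      exact ⟨N_mono (by omega) h1, h2⟩
  refine hno n (t + 1) rfl rfl rfl (mem_M_succ.2 (Or.inr ⟨by omega,
    N_mono (by omega) hns, hn0, hconv, ?_, ?_⟩))
  · exact (sum_parity hf hconv).2 (by rw [hP, h])
  · left
    exact ⟨helen, fun n' _ h1 h2 h3 => hno n' t h1 h2 h3⟩

end Pool.MP39df03
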