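import Pool.Agent.Lib.MP_39df03_lc.Constr

/-!
# Primitive recursiveness of the construction
-/

namespace Pool.MP39df03

open Nat.Partrec (Code)
open Nat.Partrec.Code (evaln eval)

section helpers

variable {α β : Type} [Primcodable α] [Primcodable β]

theorem pall_list {f : α → List β} {p : α → β → Prop} (hf : Primrec f)
    (hp : PrimrecPred fun z : α × β => p z.1 z.2) : PrimrecPred fun a => ∀ b ∈ f a, p a b := by
  have h1 : PrimrecRel fun (b : β) (a : α) => p a b := hp.comp (Primrec.snd.pair .fst)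
  exact h1.forall_mem_list.comp hf Primrec.id

theorem pex_list {f : α → List β} {p : α → β → Prop} (hf : Primrec f)
    (hp : PrimrecPred fun z : α × β => p z.1 z.2) : PrimrecPred fun a => ∃ b ∈ f a, p a b := by
  have h1 : PrimrecRel fun (b : β) (a : α) => p a b := hp.comp (Primrec.snd.pair .fst)
  exact h1.exists_mem_list.comp hf Primrec.id

theorem pex_lt {f : α → ℕ} {p : α → ℕ → Prop} (hf : Primrec f)
    (hp : PrimrecPred fun z : α × ℕ => p z.1 z.2) : PrimrecPred fun a => ∃ b < f a, p a b :=
  (pex_list (Primrec.list_range.comp hf) hp).of_eq fun a => by simp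

theorem pall_lt {f : α → ℕ} {p : α → ℕ → Prop} (hf : Primrec f)
    (hp : PrimrecPred fun z : α × ℕ => p z.1 z.2) : PrimrecPred fun a => ∀ b < f a, p a b :=
  (pall_list (Primrec.list_range.comp hf) hp).of_eq fun a => by simp

theorem pfilter {f : α → List β} {p : α → β → Prop} [∀ a b, Decidable (p a b)] (hf : Primrec f)
    (hp : PrimrecPred fun z : α × β => p z.1 z.2) :
    Primrec fun a => (f a).filter fun b => decide (p a b) := by
  have h1 : PrimrecRel fun (b : β) (a : α) => p a b := hp.comp (Primrec.snd.pair .fst)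
  letI : DecidableRel fun (b : β) (a : α) => p a b := fun b a => inferInstanceAs (Decidable (p a b))
  exact h1.listFilter.comp hf Primrec.id

theorem pimp {p q : α → Prop} (hp : PrimrecPred p) (hq : PrimrecPred q) :
    PrimrecPred fun a => p a → q a :=
  (hp.not.or hq).of_eq fun a => by tauto

theorem psum {f : α → List β} {g : α → β → ℕ} (hf : Primrec f) (hg : Primrec₂ g) :
    Primrec fun a => ((f a).map fun b => g a b).sum := by
  have h1 : Primrec fun a => (f a).foldr (fun b s => g a b + s) 0 := by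
    refine Primrec.list_foldr (h := fun a (z : β × ℕ) => g a z.1 + z.2) hf (Primrec.const 0) ?_
    refine Primrec.nat_add.comp (hg.comp .fst (Primrec.fst.comp .snd)) (Primrec.snd.comp .snd)
  refine h1.of_eq fun a => ?_
  induction f a with
  | nil => rfl
  | cons b l ih => simp [ih]

end helpers

theorem prim_par : Primrec par :=
  Primrec.snd.comp (Primrec.unpair.comp Primrec.pred)

theorem prim_dat : Primrec dat :=
  Primrec.fst.comp (Primrec.unpair.comp Primrec.pred)

theorem prim_tn : Primrec tn := Primrec.fst.comp (Primrec.unpair.comp prim_dat)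

theorem prim_gs : Primrec gs := by
  refine Primrec.option_getD.comp ?_ (Primrec.const [])
  refine Primrec.decode.comp ?_
  exact Primrec.fst.comp (Primrec.unpair.comp (Primrec.snd.comp (Primrec.unpair.comp prim_dat)))

theorem prim_st : Primrec st :=
  Primrec.snd.comp (Primrec.unpair.comp (Primrec.snd.comp (Primrec.unpair.comp prim_dat)))

theorem prim_mk {α : Type} [Primcodable α] {v t s : α → ℕ} {γ : α → List Bool} (hv : Primrec v)
    (ht : Primrec t) (hγ : Primrec γ) (hs : Primrec s) :
    Primrec fun a => mk (v a) (t a) (γ a) (s a) := by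
  refine Primrec.succ.comp (Primrec₂.natPair.comp (Primrec₂.natPair.comp ht
    (Primrec₂.natPair.comp (Primrec.encode.comp hγ) hs)) hv)

theorem prim_iter {α : Type} [Primcodable α] {j n : α → ℕ} (hj : Primrec j) (hn : Primrec n) :
    Primrec fun a => par^[j a] (n a) :=
  Primrec.nat_iterate hj hn (prim_par.comp .snd)

theorem prim_Desc : PrimrecRel Desc := by
  refine pex_lt (f := fun z : ℕ × ℕ => z.2 + 1) (p := fun z j => par^[j] z.2 = z.1)
    (Primrec.succ.comp .snd) ?_
  exact Primrec.eq.comp (prim_iter .snd (Primrec.snd.comp .fst)) (Primrec.fst.comp .fst)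

theorem prim_prefix : PrimrecRel fun l₁ l₂ : List Bool => l₁ <+: l₂ := by
  have h : PrimrecPred fun z : List Bool × List Bool => z.1 = z.2.take z.1.length :=
    Primrec.eq.comp .fst (Primrec.list_take.comp (Primrec.list_length.comp .fst) .snd)
  have h' : PrimrecRel fun l₁ l₂ : List Bool => l₁ = l₂.take l₁.length := h
  exact h'.of_eq fun a b => List.prefix_iff_eq_take.symm

theorem prim_leftOf : PrimrecRel leftOf := by
  refine pex_lt (f := fun z : List Bool × List Bool => z.2.length)
    (p := fun z j => (z.2.take j ++ [true]) <+: z.1 ∧ (z.2.take j ++ [false]) <+: z.2)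
    (Primrec.list_length.comp .snd) ?_
  have h1 : Primrec fun z : (List Bool × List Bool) × ℕ => z.1.2.take z.2 :=
    Primrec.list_take.comp .snd (Primrec.snd.comp .fst)
  refine PrimrecPred.and ?_ ?_
  · exact prim_prefix.comp (Primrec.list_append.comp h1 (Primrec.const _))
      (Primrec.fst.comp .fst)
  · exact prim_prefix.comp (Primrec.list_append.comp h1 (Primrec.const _))
      (Primrec.snd.comp .fst)

theorem prim_evaln {α : Type} [Primcodable α] {s e n : α → ℕ} (hs : Primrec s) (he : Primrec e)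
    (hn : Primrec n) : Primrec fun a => evaln (s a) (Denumerable.ofNat Code (e a)) (n a) :=
  Nat.Partrec.Code.primrec_evaln.comp ((hs.pair ((Primrec.ofNat Code).comp he)).pair hn)

theorem prim_isSome {α : Type} [Primcodable α] {s e n : α → ℕ} (hs : Primrec s) (he : Primrec e)
    (hn : Primrec n) : PrimrecPred fun a =>
      (evaln (s a) (Denumerable.ofNat Code (e a)) (n a)).isSome = true :=
  Primrec.eq.comp (Primrec.option_isSome.comp (prim_evaln hs he hn)) (Primrec.const true)

theorem prim_pathStep : Primrec fun z : (ℕ × List ℕ) × List Bool => pathStep z.1.1 z.1.2 z.2 := by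
  have h1 : PrimrecPred fun z : (ℕ × List ℕ) × List Bool => ∀ n ∈ z.1.2,
      (z.2 ++ [true]) <+: gs n →
        (evaln z.1.1 (Denumerable.ofNat Code z.2.length) n).isSome = true := by
    refine pall_list (f := fun z : (ℕ × List ℕ) × List Bool => z.1.2) (Primrec.snd.comp .fst) ?_
    refine pimp ?_ ?_
    · exact prim_prefix.comp (Primrec.list_append.comp (Primrec.snd.comp .fst) (Primrec.const _))
        (prim_gs.comp .snd)
    · exact prim_isSome (Primrec.fst.comp (Primrec.fst.comp .fst))
        (Primrec.list_length.comp (Primrec.snd.comp .fst)) .snd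
  refine Primrec.list_append.comp .snd ?_
  exact Primrec.list_cons.comp h1.decide (Primrec.const [])

theorem prim_path : Primrec₂ path := by
  refine Primrec.nat_iterate (f := fun z : ℕ × List ℕ => z.1) .fst (Primrec.const []) ?_
  exact prim_pathStep

theorem prim_MarkCond : PrimrecPred fun z : (ℕ × State) × (ℕ × ℕ) =>
    MarkCond z.1.1 z.1.2 z.2.1 z.2.2 := by
  have hs : Primrec fun z : (ℕ × State) × (ℕ × ℕ) => z.1.1 := Primrec.fst.comp .fst
  have hN : Primrec fun z : (ℕ × State) × (ℕ × ℕ) => z.1.2.1 :=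
    Primrec.fst.comp (Primrec.snd.comp .fst)
  have hD : Primrec fun z : (ℕ × State) × (ℕ × ℕ) => z.1.2.2.1 :=
    Primrec.fst.comp (Primrec.snd.comp (Primrec.snd.comp .fst))
  have hM : Primrec fun z : (ℕ × State) × (ℕ × ℕ) => z.1.2.2.2 :=
    Primrec.snd.comp (Primrec.snd.comp (Primrec.snd.comp .fst))
  have he : Primrec fun z : (ℕ × State) × (ℕ × ℕ) => z.2.1 := Primrec.fst.comp .snd
  have hn : Primrec fun z : (ℕ × State) × (ℕ × ℕ) => z.2.2 := Primrec.snd.comp .snd
  unfold MarkCond
  refine PrimrecPred.and (Primrec.eq.comp hn (Primrec.const 0)).not ?_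
  refine PrimrecPred.and ?_ (PrimrecPred.and ?_ (PrimrecPred.or (PrimrecPred.and ?_ ?_) ?_))
  · refine pall_list hN (pimp ?_ ?_)
    · exact prim_Desc.comp (hn.comp .fst) .snd
    · exact prim_isSome (hs.comp .fst) (he.comp .fst) .snd
  · refine Primrec.eq.comp (Primrec.nat_mod.comp (psum ?_ ?_) (Primrec.const 2)) (Primrec.const 1)
    · exact pfilter hN (prim_Desc.comp (hn.comp .fst) .snd)
    · exact Primrec.option_getD.comp (prim_evaln (hs.comp .fst) (he.comp .fst) .snd)
        (Primrec.const 0)
  · exact Primrec.nat_lt.comp he (Primrec.list_length.comp (prim_gs.comp hn))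
  · refine pall_list hN (pimp ?_ (pimp ?_ (pimp ?_ (PrimrecPred.not ?_))))
    · exact Primrec.eq.comp (prim_par.comp .snd) (prim_par.comp (hn.comp .fst))
    · exact Primrec.eq.comp (prim_tn.comp .snd) (prim_tn.comp (hn.comp .fst))
    · exact Primrec.eq.comp (prim_gs.comp .snd) (prim_gs.comp (hn.comp .fst))
    · refine (pex_list (f := fun z : ((ℕ × State) × (ℕ × ℕ)) × ℕ => z.1.1.2.2.2)
        (p := fun z p => p = (z.1.2.1, z.2)) (hM.comp .fst) ?_).of_eq fun a => by simp
      exact Primrec.eq.comp .snd ((he.comp (Primrec.fst.comp .fst)).pair (Primrec.snd.comp .fst))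
  · refine (pex_list (p := fun z p => p = z.2.2) hD ?_).of_eq fun a => by simp
    exact Primrec.eq.comp .snd (hn.comp .fst)

theorem prim_newM : Primrec₂ newM := by
  have hN : Primrec fun z : ℕ × State => z.2.1 := Primrec.fst.comp .snd
  have hM : Primrec fun z : ℕ × State => z.2.2.2 := Primrec.snd.comp (Primrec.snd.comp .snd)
  refine Primrec.list_append.comp hM ?_
  refine pfilter (f := fun z : ℕ × State =>
    (List.range z.1).flatMap fun e => z.2.1.map fun n => (e, n))
    (p := fun z q => MarkCond z.1 z.2 q.1 q.2) ?_ prim_MarkCond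
  refine Primrec.list_flatMap (Primrec.list_range.comp .fst) ?_
  refine Primrec.list_map (hN.comp .fst) ?_
  exact (Primrec.snd.comp .fst).pair .snd

theorem prim_KillCond : PrimrecPred fun z : (List Bool × List (ℕ × ℕ)) × ℕ =>
    KillCond z.1.1 z.1.2 z.2 := by
  unfold KillCond
  refine pex_lt (Primrec.succ.comp .snd) (PrimrecPred.or ?_ ?_)
  · refine prim_leftOf.comp (Primrec.fst.comp (Primrec.fst.comp .fst)) (prim_gs.comp ?_)
    exact prim_iter .snd (Primrec.snd.comp .fst)
  · refine pex_list (Primrec.snd.comp (Primrec.fst.comp .fst)) ?_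
    exact Primrec.eq.comp (Primrec.snd.comp .snd)
      (prim_iter (Primrec.snd.comp .fst) (Primrec.snd.comp (Primrec.fst.comp .fst)))

theorem prim_newD : Primrec₂ newD := by
  have hN : Primrec fun z : ℕ × State => z.2.1 := Primrec.fst.comp .snd
  have hD : Primrec fun z : ℕ × State => z.2.2.1 := Primrec.fst.comp (Primrec.snd.comp .snd)
  refine Primrec.list_append.comp hD ?_
  refine pfilter (f := fun z : ℕ × State => z.2.1)
    (p := fun z n => KillCond (path z.1 z.2.1) (newM z.1 z.2) n) hN ?_
  refine prim_KillCond.comp (f := fun z : (ℕ × State) × ℕ =>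
    ((path z.1.1 z.1.2.1, newM z.1.1 z.1.2), z.2)) ?_
  refine Primrec.pair (Primrec.pair ?_ ?_) .snd
  · exact prim_path.comp (Primrec.fst.comp .fst) (hN.comp .fst)
  · exact prim_newM.comp (Primrec.fst.comp .fst) (Primrec.snd.comp .fst)

theorem prim_mem {α β : Type} [Primcodable α] [Primcodable β] {f : α → List β} {g : α → β}
    (hf : Primrec f) (hg : Primrec g) : PrimrecPred fun a => g a ∈ f a := by
  refine (pex_list (p := fun a p => p = g a) hf ?_).of_eq fun a => by simp
  exact Primrec.eq.comp .snd (hg.comp .fst)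

theorem prim_CreateCond {T : ℕ → ℕ → Bool} (hT : Primrec₂ T) :
    PrimrecPred fun z : (ℕ × List Bool × List ℕ × List ℕ) × (ℕ × ℕ × ℕ) =>
      CreateCond (T z.1.1) z.1.2.1 z.1.2.2.1 z.1.2.2.2 z.2.1 z.2.2.1 z.2.2.2 := by
  have hx : Primrec fun z : (ℕ × List Bool × List ℕ × List ℕ) × (ℕ × ℕ × ℕ) => z.1.1 :=
    Primrec.fst.comp .fst
  have hδ : Primrec fun z : (ℕ × List Bool × List ℕ × List ℕ) × (ℕ × ℕ × ℕ) => z.1.2.1 :=
    Primrec.fst.comp (Primrec.snd.comp .fst)
  have hN : Primrec fun z : (ℕ × List Bool × List ℕ × List ℕ) × (ℕ × ℕ × ℕ) => z.1.2.2.1 :=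
    Primrec.fst.comp (Primrec.snd.comp (Primrec.snd.comp .fst))
  have hD : Primrec fun z : (ℕ × List Bool × List ℕ × List ℕ) × (ℕ × ℕ × ℕ) => z.1.2.2.2 :=
    Primrec.snd.comp (Primrec.snd.comp (Primrec.snd.comp .fst))
  have hv : Primrec fun z : (ℕ × List Bool × List ℕ × List ℕ) × (ℕ × ℕ × ℕ) => z.2.1 :=
    Primrec.fst.comp .snd
  have hm : Primrec fun z : (ℕ × List Bool × List ℕ × List ℕ) × (ℕ × ℕ × ℕ) => z.2.2.1 :=
    Primrec.fst.comp (Primrec.snd.comp .snd)
  have ht : Primrec fun z : (ℕ × List Bool × List ℕ × List ℕ) × (ℕ × ℕ × ℕ) => z.2.2.2 :=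
    Primrec.snd.comp (Primrec.snd.comp .snd)
  have htake := Primrec.list_take.comp hm hδ
  unfold CreateCond
  refine PrimrecPred.and (prim_mem hD hv).not ?_
  refine PrimrecPred.and (Primrec.eq.comp ht (Primrec.const 0)).not ?_
  refine PrimrecPred.and (Primrec.eq.comp (prim_par.comp ht) (prim_tn.comp hv)) ?_
  refine PrimrecPred.and (Primrec.eq.comp (hT.comp hx ht) (Primrec.const true)) ?_
  refine PrimrecPred.and (prim_prefix.comp (prim_gs.comp hv) htake) ?_
  refine pall_list hN (pimp ?_ (pimp ?_ (pimp ?_ ?_)))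
  · exact Primrec.eq.comp (prim_par.comp .snd) (hv.comp .fst)
  · exact Primrec.eq.comp (prim_tn.comp .snd) (ht.comp .fst)
  · exact Primrec.eq.comp (prim_gs.comp .snd) (htake.comp .fst)
  · exact prim_mem (hD.comp .fst) .snd

theorem prim_cands : Primrec₂ cands := by
  refine Primrec.list_flatMap .snd ?_
  refine Primrec.list_flatMap (Primrec.list_range.comp (Primrec.succ.comp
    (Primrec.fst.comp .fst))) ?_
  refine Primrec.list_map (Primrec.list_range.comp .snd) ?_
  exact (Primrec.snd.comp (Primrec.fst.comp .fst)).pair ((Primrec.snd.comp .fst).pair .snd)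

theorem prim_newN {T : ℕ → ℕ → Bool} (hT : Primrec₂ T) :
    Primrec fun z : ℕ × ℕ × State => newN (T z.1) z.2.1 z.2.2 := by
  have hx : Primrec fun z : ℕ × ℕ × State => z.1 := .fst
  have hs : Primrec fun z : ℕ × ℕ × State => z.2.1 := Primrec.fst.comp .snd
  have hS : Primrec fun z : ℕ × ℕ × State => z.2.2 := Primrec.snd.comp .snd
  have hN : Primrec fun z : ℕ × ℕ × State => z.2.2.1 := Primrec.fst.comp hS
  have hp : Primrec fun z : ℕ × ℕ × State => path z.2.1 z.2.2.1 := prim_path.comp hs hN
  refine Primrec.list_append.comp hN ?_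
  refine Primrec.list_map (f := fun z : ℕ × ℕ × State => (cands z.2.1 z.2.2.1).filter fun y =>
    decide (CreateCond (T z.1) (path z.2.1 z.2.2.1) z.2.2.1 (newD z.2.1 z.2.2) y.1 y.2.1 y.2.2))
    (g := fun z y => mk y.1 y.2.2 ((path z.2.1 z.2.2.1).take y.2.1) z.2.1) ?_ ?_
  · refine pfilter (f := fun z : ℕ × ℕ × State => cands z.2.1 z.2.2.1)
      (p := fun z y => CreateCond (T z.1) (path z.2.1 z.2.2.1) z.2.2.1 (newD z.2.1 z.2.2)
        y.1 y.2.1 y.2.2) (prim_cands.comp hs hN) ?_
    refine (prim_CreateCond hT).comp (f := fun z : (ℕ × ℕ × State) × (ℕ × ℕ × ℕ) =>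
      ((z.1.1, path z.1.2.1 z.1.2.2.1, z.1.2.2.1, newD z.1.2.1 z.1.2.2), z.2)) ?_
    refine Primrec.pair ((hx.comp .fst).pair ((hp.comp .fst).pair ((hN.comp .fst).pair ?_))) .snd
    exact prim_newD.comp (hs.comp .fst) (hS.comp .fst)
  · refine prim_mk (Primrec.fst.comp .snd) (Primrec.snd.comp (Primrec.snd.comp .snd)) ?_
      (hs.comp .fst)
    exact Primrec.list_take.comp (Primrec.fst.comp (Primrec.snd.comp .snd)) (hp.comp .fst)

theorem prim_state {T : ℕ → ℕ → Bool} (hT : Primrec₂ T) :
    Primrec₂ fun x s => state (T x) s := by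
  have h : Primrec₂ fun (x s : ℕ) => (Nat.rec (([0], [], []) : State)
      (fun s S => stepState (T x) s S) s : State) := by
    refine Primrec.nat_rec (f := fun _ : ℕ => (([0], [], []) : State))
      (g := fun x z => stepState (T x) z.1 z.2) (Primrec.const _) ?_
    have h1 : Primrec fun z : ℕ × ℕ × State => z.2.1 := Primrec.fst.comp .snd
    have h2 : Primrec fun z : ℕ × ℕ × State => z.2.2 := Primrec.snd.comp .snd
    exact (prim_newN hT).pair ((prim_newD.comp h1 h2).pair (prim_newM.comp h1 h2))
  refine h.of_eq fun x s => ?_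
  induction s with
  | zero => rfl
  | succ s ih =>
    show stepState (T x) s _ = stepState (T x) s _
    rw [← ih]

end Pool.MP39df03
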