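import Pool.Agent.Lib.MP_39df03_lc.Defs

/-!
# Closure properties of `Σ¹₁` and `Δ¹₁` predicates
-/

namespace Pool.MP39df03

open Nat.Partrec (Code)

/-- `Σ¹₁` predicates on a primcodable type. -/
def S11 {α : Type} [Primcodable α] (p : α → Prop) : Prop :=
  ∃ R : α × List ℕ → Bool, Computable R ∧
    ∀ a, p a ↔ ∃ f : ℕ → ℕ, ∀ k, R (a, (List.range k).map f) = true

/-- `Δ¹₁` predicates on a primcodable type. -/
def D11 {α : Type} [Primcodable α] (p : α → Prop) : Prop := S11 p ∧ S11 fun a => ¬ p a

theorem sigma11_iff (A : Set ℕ) : Sigma11 A ↔ S11 fun n => n ∈ A := Iff.rfl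

theorem delta11_iff (A : Set ℕ) : Delta11 A ↔ D11 fun n => n ∈ A := Iff.rfl

variable {α β : Type} [Primcodable α] [Primcodable β]

namespace S11

theorem of_iff {p q : α → Prop} (hp : S11 p) (h : ∀ a, p a ↔ q a) : S11 q := by
  obtain ⟨R, hR, hp⟩ := hp
  exact ⟨R, hR, fun a => (h a).symm.trans (hp a)⟩

theorem comp {p : β → Prop} (hp : S11 p) {f : α → β} (hf : Computable f) :
    S11 fun a => p (f a) := by
  obtain ⟨R, hR, hp⟩ := hp
  exact ⟨fun z => R (f z.1, z.2), hR.comp ((hf.comp .fst).pair .snd), fun a => hp _⟩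

theorem of_computable {c : α → Bool} (hc : Computable c) : S11 fun a => c a = true :=
  ⟨fun z => c z.1, hc.comp .fst, fun a => ⟨fun h => ⟨fun _ => 0, fun _ => h⟩, fun ⟨_, h⟩ => h 0⟩⟩

/-- helper -/
theorem map_range_take (F : ℕ → ℕ) (g : ℕ → ℕ) (n K : ℕ) (h : n ≤ K) :
    (((List.range K).map F).map g).take n = (List.range n).map fun j => g (F j) := by
  rw [List.map_map, ← List.map_take, List.take_range, min_eq_left h]
  rfl

theorem getD_map_range (F : ℕ → ℕ) {m K : ℕ} (h : m < K) :
    ((List.range K).map F).getD m 0 = F m := by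
  simp [List.getD, h]

theorem master {q : α × List ℕ → Prop} (hq : S11 q) :
    S11 fun a => ∃ f : ℕ → ℕ, ∀ n, q (a, (List.range n).map f) := by
  obtain ⟨R, hR, hq⟩ := hq
  let T : α × List ℕ → (α × List ℕ) × List ℕ := fun z =>
    ((z.1, (z.2.map fun y => y.unpair.1).take (z.2.length.unpair.1)),
      (List.range z.2.length.unpair.2).map fun m =>
        (z.2.getD (Nat.pair z.2.length.unpair.1 m) 0).unpair.2)
  have hlen : Primrec fun z : α × List ℕ => z.2.length := Primrec.list_length.comp .snd
  have hT : Primrec T := by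
    refine Primrec.pair (Primrec.pair .fst ?_) ?_
    · refine Primrec.list_take.comp (Primrec.fst.comp (Primrec.unpair.comp hlen)) ?_
      exact Primrec.list_map .snd (Primrec.fst.comp (Primrec.unpair.comp Primrec.snd))
    · refine Primrec.list_map (Primrec.list_range.comp (Primrec.snd.comp (Primrec.unpair.comp hlen))) ?_
      refine Primrec.snd.comp (Primrec.unpair.comp ?_)
      refine (Primrec.list_getD 0).comp (Primrec.snd.comp .fst) ?_
      exact Primrec₂.natPair.comp
        (Primrec.fst.comp (Primrec.unpair.comp (hlen.comp .fst))) .snd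
  refine ⟨fun z => R (T z), hR.comp hT.to_comp, fun a => ?_⟩
  have key : ∀ (F : ℕ → ℕ) (n k : ℕ), T (a, (List.range (Nat.pair n k)).map F) =
      ((a, (List.range n).map fun j => (F j).unpair.1),
        (List.range k).map fun m => (F (Nat.pair n m)).unpair.2) := by
    intro F n k
    simp only [T, List.length_map, List.length_range, Nat.unpair_pair]
    refine Prod.ext (Prod.ext rfl ?_) ?_
    · exact map_range_take F (fun y => y.unpair.1) n _ (Nat.left_le_pair n k)
    · refine List.map_congr_left fun m hm => ?_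
      rw [List.mem_range] at hm
      rw [getD_map_range F (Nat.pair_lt_pair_right n hm)]
  constructor
  · rintro ⟨f, hf⟩
    have hg : ∀ n, ∃ g : ℕ → ℕ, ∀ k, R ((a, (List.range n).map f), (List.range k).map g) = true :=
      fun n => (hq _).1 (hf n)
    choose g hg using hg
    refine ⟨fun j => Nat.pair (f j) (g j.unpair.1 j.unpair.2), fun K => ?_⟩
    rw [← Nat.pair_unpair K]
    dsimp only
    rw [key]
    simp only [Nat.unpair_pair]
    exact hg _ _
  · rintro ⟨F, hF⟩
    refine ⟨fun j => (F j).unpair.1, fun n => (hq _).2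
      ⟨fun m => (F (Nat.pair n m)).unpair.2, fun k => ?_⟩⟩
    have := hF (Nat.pair n k)
    dsimp only at this
    rw [key] at this
    exact this

theorem all {p : α → ℕ → Prop} (hp : S11 fun z : α × ℕ => p z.1 z.2) :
    S11 fun a => ∀ n, p a n := by
  have h1 : S11 fun z : α × List ℕ => p z.1 z.2.length :=
    hp.comp (f := fun z : α × List ℕ => (z.1, z.2.length))
      (Computable.fst.pair (Computable.list_length.comp .snd))
  refine (master h1).of_iff fun a => ?_
  simp

theorem and {p q : α → Prop} (hp : S11 p) (hq : S11 q) : S11 fun a => p a ∧ q a := by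
  have : S11 fun z : α × ℕ => if z.2 = 0 then p z.1 else q z.1 := by
    obtain ⟨R1, hR1, hp⟩ := hp
    obtain ⟨R2, hR2, hq⟩ := hq
    refine ⟨fun z => bif decide (z.1.2 = 0) then R1 (z.1.1, z.2) else R2 (z.1.1, z.2), ?_, ?_⟩
    · refine Computable.cond ?_ ?_ ?_
      · exact (Primrec.eq.decide.comp (Primrec.snd.comp .fst) (Primrec.const 0)).to_comp
      · exact hR1.comp ((Computable.fst.comp .fst).pair .snd)
      · exact hR2.comp ((Computable.fst.comp .fst).pair .snd)
    · rintro ⟨a, n⟩
      by_cases h : n = 0 <;> simp [h, hp, hq]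
  refine (all (p := fun a n => if n = 0 then p a else q a) this).of_iff
    fun a => ⟨fun h => ⟨?_, ?_⟩, fun h n => ?_⟩
  · simpa using h 0
  · simpa using h 1
  · by_cases h0 : n = 0 <;> simp [h0, h.1, h.2]

theorem ite {c : α → Bool} (hc : Computable c) {p q : α → Prop} (hp : S11 p) (hq : S11 q) :
    S11 fun a => if c a = true then p a else q a := by
  obtain ⟨R1, hR1, hp⟩ := hp
  obtain ⟨R2, hR2, hq⟩ := hq
  refine ⟨fun z => bif c z.1 then R1 z else R2 z, ?_, ?_⟩
  · exact Computable.cond (hc.comp .fst) hR1 hR2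
  · intro a
    by_cases h : c a = true <;> simp [h, hp, hq]

theorem ex {p : α → ℕ → Prop} (hp : S11 fun z : α × ℕ => p z.1 z.2) :
    S11 fun a => ∃ n, p a n := by
  obtain ⟨R, hR, hp⟩ := hp
  let T : α × List ℕ → (α × ℕ) × List ℕ := fun z =>
    ((z.1, (z.2.getD 0 0).unpair.1), (z.2.map fun y => y.unpair.2).take (z.2.length - 1))
  have hlen : Primrec fun z : α × List ℕ => z.2.length := Primrec.list_length.comp .snd
  have hT : Primrec T := by
    refine Primrec.pair (Primrec.pair .fst ?_) ?_
    · exact Primrec.fst.comp (Primrec.unpair.comp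
        ((Primrec.list_getD 0).comp .snd (Primrec.const 0)))
    · refine Primrec.list_take.comp (Primrec.pred.comp hlen) ?_
      exact Primrec.list_map .snd (Primrec.snd.comp (Primrec.unpair.comp Primrec.snd))
  refine ⟨fun z => bif decide (z.2.length = 0) then true else R (T z), ?_, ?_⟩
  · refine Computable.cond ?_ (Computable.const true) (hR.comp hT.to_comp)
    exact (Primrec.eq.decide.comp hlen (Primrec.const 0)).to_comp
  intro a
  have key : ∀ (F : ℕ → ℕ) (k : ℕ), T (a, (List.range (k + 1)).map F) =
      ((a, (F 0).unpair.1), (List.range k).map fun m => (F m).unpair.2) := by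
    intro F k
    simp only [T, List.length_map, List.length_range, Nat.add_sub_cancel]
    refine Prod.ext (Prod.ext rfl ?_) ?_
    · rw [getD_map_range F (Nat.succ_pos k)]
    · exact map_range_take F (fun y => y.unpair.2) k _ (Nat.le_succ k)
  constructor
  · rintro ⟨n, hn⟩
    obtain ⟨g, hg⟩ := (hp (a, n)).1 hn
    refine ⟨fun m => Nat.pair n (g m), fun k => ?_⟩
    rcases k with _ | k
    · simp
    · have h2 : (decide (((a, (List.range (k + 1)).map fun m => Nat.pair n (g m)) :
          α × List ℕ).2.length = 0)) = false := by simp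
      show (bif decide (((a, (List.range (k + 1)).map fun m => Nat.pair n (g m)) :
          α × List ℕ).2.length = 0) then true else R (T _)) = true
      rw [h2, cond_false, key]
      simp only [Nat.unpair_pair]
      exact hg k
  · rintro ⟨F, hF⟩
    refine ⟨(F 0).unpair.1, (hp (a, _)).2 ⟨fun m => (F m).unpair.2, fun k => ?_⟩⟩
    have := hF (k + 1)
    have h2 : (decide (((a, (List.range (k + 1)).map F) :
          α × List ℕ).2.length = 0)) = false := by simp
    change (bif decide (((a, (List.range (k + 1)).map F) :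
          α × List ℕ).2.length = 0) then true else R (T _)) = true at this
    rw [h2, cond_false, key] at this
    exact this

theorem or {p q : α → Prop} (hp : S11 p) (hq : S11 q) : S11 fun a => p a ∨ q a := by
  have h1 : S11 fun z : α × ℕ => if (fun z : α × ℕ => decide (z.2 = 0)) z = true
      then p z.1 else q z.1 := by
    refine ite ?_ (hp.comp .fst) (hq.comp .fst)
    exact (Primrec.eq.decide.comp Primrec.snd (Primrec.const 0)).to_comp
  refine (ex (p := fun a n => if (decide (n = 0)) = true then p a else q a) h1).of_iff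
    fun a => ⟨?_, ?_⟩
  · rintro ⟨n, hn⟩
    by_cases h : n = 0
    · left; simpa [h] using hn
    · right; simpa [h] using hn
  · rintro (h | h)
    · exact ⟨0, by simpa using h⟩
    · exact ⟨1, by simpa using h⟩

end S11

namespace D11

theorem of_iff {p q : α → Prop} (hp : D11 p) (h : ∀ a, p a ↔ q a) : D11 q :=
  ⟨hp.1.of_iff h, hp.2.of_iff fun a => not_congr (h a)⟩

theorem comp {p : β → Prop} (hp : D11 p) {f : α → β} (hf : Computable f) :
    D11 fun a => p (f a) := ⟨hp.1.comp hf, hp.2.comp hf⟩

theorem of_computable {c : α → Bool} (hc : Computable c) : D11 fun a => c a = true := by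
  refine ⟨S11.of_computable hc, ?_⟩
  refine (S11.of_computable (c := fun a => !(c a)) ?_).of_iff fun a => by simp
  exact (Primrec.not.to_comp).comp hc

theorem of_primrecPred {p : α → Prop} (hp : PrimrecPred p) : D11 p := by
  obtain ⟨_, hp⟩ := hp
  exact (of_computable hp.to_comp).of_iff fun a => by simp

theorem not {p : α → Prop} (hp : D11 p) : D11 fun a => ¬ p a :=
  ⟨hp.2, hp.1.of_iff fun a => by simp⟩

theorem and {p q : α → Prop} (hp : D11 p) (hq : D11 q) : D11 fun a => p a ∧ q a :=
  ⟨hp.1.and hq.1, (hp.2.or hq.2).of_iff fun a => by tauto⟩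

theorem or {p q : α → Prop} (hp : D11 p) (hq : D11 q) : D11 fun a => p a ∨ q a :=
  ⟨hp.1.or hq.1, (hp.2.and hq.2).of_iff fun a => by tauto⟩

theorem imp {p q : α → Prop} (hp : D11 p) (hq : D11 q) : D11 fun a => p a → q a :=
  (hp.not.or hq).of_iff fun a => by tauto

theorem iff {p q : α → Prop} (hp : D11 p) (hq : D11 q) : D11 fun a => (p a ↔ q a) :=
  ((hp.imp hq).and (hq.imp hp)).of_iff fun a => by tauto

theorem ex {p : α → ℕ → Prop} (hp : D11 fun z : α × ℕ => p z.1 z.2) :
    D11 fun a => ∃ n, p a n :=
  ⟨hp.1.ex, (hp.2.all (p := fun a n => ¬ p a n)).of_iff fun a => by simp⟩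

theorem all {p : α → ℕ → Prop} (hp : D11 fun z : α × ℕ => p z.1 z.2) :
    D11 fun a => ∀ n, p a n :=
  ⟨hp.1.all, (hp.2.ex (p := fun a n => ¬ p a n)).of_iff fun a => by simp⟩

end D11

end Pool.MP39df03
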