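import Pool.Agent.Lib.MP_39df03_lc.Torsor

/-!
# Solutions of the system with a single defect are paths
-/

namespace Pool.MP39df03

theorem sol_iff_path {C : ℕ → ℕ → Prop} {Rt : ℕ → Prop}
    (hC : ∀ v v' w, C v w → C v' w → v = v') (hR : ∀ w, Rt w → ∀ v, ¬ C v w)
    {r : ℕ} (hr : Rt r) :
    Sol C Rt (fun n => if n = r then 1 else 0) ↔ HasPath C r := by
  classical
  constructor
  · rintro ⟨g, hg1, hg2, hg3⟩
    have hr1 : ((g r).card : ZMod 2) = 1 := by
      have := hg3 r hr
      rw [this]; simp
    have hne : ∀ v, ((g v).card : ZMod 2) = 1 → ∃ w, w ∈ g v := by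
      intro v hv
      by_contra hcon
      push Not at hcon
      have : g v = ∅ := Finset.eq_empty_of_forall_notMem hcon
      rw [this] at hv
      simp at hv
    have hstep : ∀ v : {v // ((g v).card : ZMod 2) = 1},
        ∃ w : {v // ((g v).card : ZMod 2) = 1}, C v.1 w.1 := by
      rintro ⟨v, hv⟩
      obtain ⟨w, hw⟩ := hne v hv
      have hCvw := hg1 v w hw
      refine ⟨⟨w, ?_⟩, hCvw⟩
      have h1 := hg2 v w hCvw
      beta_reduce at h1
      rw [if_pos hw, if_neg (fun h => hR w (by rw [h]; exact hr) v hCvw)] at h1
      have h2 : (1 : ZMod 2) + 1 = 0 := CharTwo.add_self_eq_zero _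
      linear_combination h1 - h2
    choose F hF using hstep
    let q : ℕ → {v // ((g v).card : ZMod 2) = 1} := fun i => Nat.rec ⟨r, hr1⟩ (fun _ v => F v) i
    exact ⟨fun i => (q i).1, rfl, fun i => hF (q i)⟩
  · rintro ⟨q, hq0, hq⟩
    have hinj : ∀ i j, q i = q j → i = j := by
      intro i
      induction i with
      | zero =>
        intro j hj
        rcases j with _ | j
        · rfl
        · exfalso
          rw [hq0] at hj
          exact hR r hr (q j) (by rw [hj]; exact hq j)
      | succ i ih =>
        intro j hj
        rcases j with _ | j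
        · exfalso
          rw [hq0] at hj
          exact hR r hr (q i) (by rw [← hj]; exact hq i)
        · have h1 := hq i
          rw [hj] at h1
          rw [ih j (hC _ _ _ h1 (hq j))]
    let g : ℕ → Finset ℕ := fun v => if h : ∃ i, q i = v then {q (h.choose + 1)} else ∅
    have hgq : ∀ i, g (q i) = {q (i + 1)} := by
      intro i
      have h : ∃ j, q j = q i := ⟨i, rfl⟩
      have h1 : h.choose = i := hinj _ _ h.choose_spec
      simp only [g, dif_pos h, h1]
    have hgn : ∀ v, (¬ ∃ i, q i = v) → g v = ∅ := by
      intro v hv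
      simp only [g, dif_neg hv]
    refine ⟨g, ?_, ?_, ?_⟩
    · intro v n hn
      by_cases hv : ∃ i, q i = v
      · obtain ⟨i, rfl⟩ := hv
        rw [hgq, Finset.mem_singleton] at hn
        rw [hn]; exact hq i
      · rw [hgn v hv] at hn
        exact absurd hn (Finset.notMem_empty _)
    · intro v w hvw
      beta_reduce
      have hwr : w ≠ r := fun h => hR w (by rw [h]; exact hr) v hvw
      rw [if_neg hwr]
      by_cases hw : ∃ j, q j = w
      · obtain ⟨j, rfl⟩ := hw
        rcases j with _ | j
        · exact absurd hq0 hwr
        · have : v = q j := hC _ _ _ hvw (hq j)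
          subst this
          rw [hgq, hgq, if_pos (Finset.mem_singleton_self _), Finset.card_singleton]
          exact CharTwo.add_self_eq_zero _
      · rw [hgn w hw, if_neg]
        · simp
        · intro hmem
          by_cases hv : ∃ i, q i = v
          · obtain ⟨i, rfl⟩ := hv
            rw [hgq, Finset.mem_singleton] at hmem
            exact hw ⟨i + 1, hmem.symm⟩
          · rw [hgn v hv] at hmem
            exact Finset.notMem_empty _ hmem
    · intro w hw
      beta_reduce
      by_cases hwr : w = r
      · rw [if_pos hwr, hwr, ← hq0, hgq]; simp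
      · rw [if_neg hwr, hgn]
        · simp
        · rintro ⟨j, rfl⟩
          rcases j with _ | j
          · exact hwr hq0
          · exact hR _ hw (q j) (hq j)

end Pool.MP39df03
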