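import Pool.Agent.Lib.MP_39df03_lc.Index

/-!
# Recognising torsor systems
-/

namespace Pool.MP39df03

open Nat.Partrec (Code)
open Nat.Partrec.Code (evaln eval)

/-- `p` is the least point of the sort `v` -/
def Least (A : ℕ → ℕ → ℕ → Prop) (v p : ℕ) : Prop :=
  A (Nat.pair 0 v) p p ∧ ∀ q, q < p → ¬ A (Nat.pair 0 v) q q

/-- the `n`-th coordinate of `a`, a point of sort `v`, relative to the base point -/
def BitR (A : ℕ → ℕ → ℕ → Prop) (C : ℕ → ℕ → Bool) (v a n : ℕ) : Prop :=
  (C v n = true ∧ ∃ p, Least A v p ∧ A (Nat.pair 1 n) p a) ∨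
    (C v n = false ∧ A (Nat.pair 2 n) a a)

/-- `a` is the point with sort `v` and coordinates `m` -/
def Gr (A : ℕ → ℕ → ℕ → Prop) (C : ℕ → ℕ → Bool) (a v m : ℕ) : Prop :=
  A (Nat.pair 0 v) a a ∧ ∀ n, (BitR A C v a n ↔ m.testBit n = true)

/-- `A` is a torsor system -/
def Sys (A : ℕ → ℕ → ℕ → Prop) (C : ℕ → ℕ → Bool) (Rt : ℕ → Bool) (x : ℕ) : Prop :=
  (∀ a, ∃ v m, Gr A C a v m) ∧ (∀ v m, ∃ a, Gr A C a v m) ∧
    (∀ a b v m, Gr A C a v m → Gr A C b v m → a = b) ∧
    ∀ w, ∃ β, ∀ a b v m l, Gr A C a v m → Gr A C b w l → ∀ i,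
      (A i a b ↔ TSr C Rt x β i v m w l)

theorem Least.unique {A : ℕ → ℕ → ℕ → Prop} {v p q : ℕ} (h : Least A v p) (h' : Least A v q) :
    p = q := by
  rcases lt_trichotomy p q with h1 | h1 | h1
  · exact absurd h.1 (h'.2 p h1)
  · exact h1
  · exact absurd h'.1 (h.2 q h1)

/-- the situation given by an isomorphism with a torsor system -/
theorem base_points {A : ℕ → ℕ → ℕ → Prop} {C : ℕ → ℕ → Bool} {Rt : ℕ → Bool} {x : ℕ}
    {h : ℕ → ℕ} (hI : IsoStr (TS C Rt x h) (ofRel A)) :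
    ∃ (f : ℕ ≃ ℕ) (u c : ℕ → ℕ),
      (∀ i v m w l, TSr C Rt x (h w) i v m w l ↔ A i (f (Nat.pair v m)) (f (Nat.pair w l))) ∧
      (∀ v, Least A v (f (Nat.pair v (u v)))) ∧
      (∀ v n, (c v).testBit n = (C v n && (u v).testBit n)) ∧
      (∀ a v m, Gr A C a v m ↔ a = f (Nat.pair v (m ^^^ c v))) := by
  obtain ⟨f, hf⟩ := iso2_iff.1 hI
  have hf' : ∀ i v m w l, TSr C Rt x (h w) i v m w l ↔
      A i (f (Nat.pair v m)) (f (Nat.pair w l)) := by
    intro i v m w l
    have := hf i (Nat.pair v m) (Nat.pair w l)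
    unfold TS at this
    rw [ofRel_apply, ofRel_apply] at this
    simpa only [Nat.unpair_pair] using this
  have hsort : ∀ v w k, A (Nat.pair 0 v) (f (Nat.pair w k)) (f (Nat.pair w k)) ↔ w = v := by
    intro v w k
    rw [← hf']
    simp [TSr]
  have hleast : ∀ v, ∃ u, Least A v (f (Nat.pair v u)) := by
    intro v
    classical
    have hex : ∃ p, A (Nat.pair 0 v) p p := ⟨f (Nat.pair v 0), (hsort v v 0).2 rfl⟩
    have h1 := Nat.find_spec hex
    have h2 : ∀ q, q < Nat.find hex → ¬ A (Nat.pair 0 v) q q := fun q hq => Nat.find_min hex hq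
    obtain ⟨b, hb⟩ := f.surjective (Nat.find hex)
    have h3 : b = Nat.pair b.unpair.1 b.unpair.2 := (Nat.pair_unpair b).symm
    rw [← hb] at h1 h2
    rw [h3] at h1 h2
    have h4 := (hsort v _ _).1 h1
    rw [h4] at h1 h2
    exact ⟨_, h1, h2⟩
  choose u hu using hleast
  have hc : ∀ v, ∃ c : ℕ, ∀ n, c.testBit n = (C v n && (u v).testBit n) := by
    intro v
    obtain ⟨c, hc⟩ := exists_bits ((bits (u v)).filter fun n => C v n = true)
    refine ⟨c, fun n => ?_⟩
    rw [hc]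
    by_cases h1 : C v n = true <;> by_cases h2 : (u v).testBit n = true <;>
      simp [mem_bits, h1, h2]
  choose c hc using hc
  refine ⟨f, u, c, hf', hu, hc, ?_⟩
  intro a v m
  obtain ⟨b, rfl⟩ := f.surjective a
  obtain ⟨w, k, rfl⟩ : ∃ w k, b = Nat.pair w k := ⟨_, _, (Nat.pair_unpair b).symm⟩
  unfold Gr
  rw [hsort, f.injective.eq_iff, Nat.pair_eq_pair]
  refine and_congr_right fun hwv => ?_
  subst hwv
  have hbit : ∀ n, BitR A C w (f (Nat.pair w k)) n ↔ (k ^^^ c w).testBit n = true := by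
    intro n
    have e1 : A (Nat.pair 1 n) (f (Nat.pair w (u w))) (f (Nat.pair w k)) ↔
        (u w).testBit n ≠ k.testBit n := by
      rw [← hf']; simp [TSr]
    have e2 : A (Nat.pair 2 n) (f (Nat.pair w k)) (f (Nat.pair w k)) ↔
        C w n = false ∧ k.testBit n = true := by
      rw [← hf']; simp [TSr]
    have e3 : (∃ p, Least A w p ∧ A (Nat.pair 1 n) p (f (Nat.pair w k))) ↔
        (u w).testBit n ≠ k.testBit n := by
      rw [← e1]
      constructor
      · rintro ⟨p, hp, h1⟩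
        rwa [hp.unique (hu w)] at h1
      · intro h1
        exact ⟨_, hu w, h1⟩
    unfold BitR
    rw [e3, e2, Nat.testBit_xor, hc]
    rcases C w n with _ | _ <;> rcases (u w).testBit n with _ | _ <;>
      rcases k.testBit n with _ | _ <;> simp
  constructor
  · intro h1
    have h2 : k ^^^ c w = m := by
      refine Nat.eq_of_testBit_eq fun n => ?_
      have h3 := (hbit n).symm.trans (h1 n)
      rwa [Bool.eq_iff_iff]
    rw [← h2, Nat.xor_assoc, Nat.xor_self, Nat.xor_zero]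
  · rintro h1 n
    rw [hbit, h1, Nat.xor_assoc, Nat.xor_self, Nat.xor_zero]

theorem cnt_child {C : ℕ → ℕ → Bool} {w u c : ℕ}
    (hc : ∀ n, c.testBit n = (C w n && u.testBit n)) :
    (cnt C w u : ZMod 2) = ((bits c).card : ZMod 2) := by
  rw [← cnt_bits (C := C) (w := w)]
  · rw [cnt_eq (N := max u c) (by omega), cnt_eq (N := max u c) (by omega)]
    refine Finset.sum_congr rfl fun n _ => ?_
    rw [hc]
    rcases C w n with _ | _ <;> rcases u.testBit n with _ | _ <;> simp
  · intro n hn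
    rw [hc] at hn
    simp only [Bool.and_eq_true] at hn
    exact hn.1

variable {C : ℕ → ℕ → Bool} {Rt : ℕ → Bool}

/-- the twist read off at base points -/
def Reads (A : ℕ → ℕ → ℕ → Prop) (C : ℕ → ℕ → Bool) (Rt : ℕ → Bool) (ψ : ℕ → ℕ) : Prop :=
  (∀ w, Rt w = true → (ψ w % 2 = 1 ↔ ∃ p, Least A w p ∧ A (Nat.pair 3 0) p p)) ∧
    ∀ v w, C v w = true →
      (ψ w % 2 = 1 ↔ ∃ p q, Least A v p ∧ Least A w q ∧ A (Nat.pair 4 0) p q)

theorem extract {A : ℕ → ℕ → ℕ → Prop} {x : ℕ} {h ψ : ℕ → ℕ}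
    (hI : IsoStr (TS C Rt x h) (ofRel A)) (hψ : Reads A C Rt ψ) :
    IsoStr (TS C Rt x ψ) (ofRel A) := by
  refine IsoStr.trans ?_ hI
  obtain ⟨f, u, c, hf, hu, hc, -⟩ := base_points hI
  refine iso_of_translation (c := c) ?_ ?_ ?_
  · intro v n hn
    rw [hc] at hn
    simp only [Bool.and_eq_true] at hn
    exact hn.1
  · intro v w hC
    have h1 : ψ w % 2 = 1 ↔ (((u v).testBit w).toNat + cnt C w (u w) + h w) % 2 = 1 := by
      rw [hψ.2 v w hC]
      have h2 : (∃ p q, Least A v p ∧ Least A w q ∧ A (Nat.pair 4 0) p q) ↔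
          A (Nat.pair 4 0) (f (Nat.pair v (u v))) (f (Nat.pair w (u w))) := by
        constructor
        · rintro ⟨p, q, hp, hq, h3⟩
          rwa [hp.unique (hu v), hq.unique (hu w)] at h3
        · intro h3
          exact ⟨_, _, hu v, hu w, h3⟩
      rw [h2, ← hf]
      simp [TSr, hC]
    have h2 := mod_cast_of_iff h1
    push_cast at h2
    rw [cnt_child (hc w)] at h2
    have h3 : (c v).testBit w = (u v).testBit w := by rw [hc, hC]; simp
    rw [h3]
    have e1 : (h w : ZMod 2) + h w = 0 := CharTwo.add_self_eq_zero _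
    linear_combination -h2 - e1
  · intro w hw
    have h1 : ψ w % 2 = 1 ↔ (cnt C w (u w) + h w) % 2 = 1 := by
      rw [hψ.1 w hw]
      have h2 : (∃ p, Least A w p ∧ A (Nat.pair 3 0) p p) ↔
          A (Nat.pair 3 0) (f (Nat.pair w (u w))) (f (Nat.pair w (u w))) := by
        constructor
        · rintro ⟨p, hp, h3⟩
          rwa [hp.unique (hu w)] at h3
        · intro h3
          exact ⟨_, hu w, h3⟩
      rw [h2, ← hf]
      simp [TSr, hw]
    have h2 := mod_cast_of_iff h1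
    push_cast at h2
    rw [cnt_child (hc w)] at h2
    have e1 : (h w : ZMod 2) + h w = 0 := CharTwo.add_self_eq_zero _
    linear_combination -h2 - e1

theorem sys_iff {A : ℕ → ℕ → ℕ → Prop} {x : ℕ}
    (hC : ∀ v v' w, C v w = true → C v' w = true → v = v')
    (hR : ∀ w, Rt w = true → ∀ v, ¬ C v w = true) :
    Sys A C Rt x ↔ ∃ h : ℕ → ℕ, IsoStr (TS C Rt x h) (ofRel A) := by
  constructor
  · rintro ⟨h1, h2, h3, h4⟩
    choose h h4 using h4
    have huniq : ∀ a v m v' m', Gr A C a v m → Gr A C a v' m' → v = v' ∧ m = m' := by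
      intro a v m v' m' hg hg'
      have e1 := (h4 v' a a v m m' hg hg' (Nat.pair 0 v)).1 hg.1
      have e2 : v' = v := by simpa [TSr] using e1
      subst e2
      refine ⟨rfl, Nat.eq_of_testBit_eq fun n => ?_⟩
      have := (hg.2 n).symm.trans (hg'.2 n)
      rwa [Bool.eq_iff_iff]
    choose V M hVM using h1
    choose F hF using h2
    refine ⟨h, ?_⟩
    rw [iso2_iff]
    refine ⟨⟨fun a => F a.unpair.1 a.unpair.2, fun a => Nat.pair (V a) (M a), ?_, ?_⟩, ?_⟩
    · intro a
      obtain ⟨e1, e2⟩ := huniq _ _ _ _ _ (hVM (F a.unpair.1 a.unpair.2)) (hF _ _)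
      simp only [e1, e2, Nat.pair_unpair]
    · intro a
      simp only [Nat.unpair_pair]
      exact h3 _ _ _ _ (hF _ _) (hVM a)
    · intro i a b
      unfold TS
      rw [ofRel_apply, ofRel_apply]
      exact (h4 _ _ _ _ _ _ (hF _ _) (hF _ _) i).symm
  · rintro ⟨h, hI⟩
    obtain ⟨f, u, c, hf, hu, hc, hG⟩ := base_points hI
    refine ⟨?_, ?_, ?_, ?_⟩
    · intro a
      obtain ⟨b, rfl⟩ := f.surjective a
      refine ⟨b.unpair.1, b.unpair.2 ^^^ c b.unpair.1, (hG _ _ _).2 ?_⟩
      rw [Nat.xor_assoc, Nat.xor_self, Nat.xor_zero, Nat.pair_unpair]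
    · intro v m
      exact ⟨_, (hG _ _ _).2 rfl⟩
    · intro a b v m ha hb
      rw [(hG _ _ _).1 ha, (hG _ _ _).1 hb]
    · intro w
      have hβ : ∃ β : ℕ, (Rt w = true → ((bits (c w)).card : ZMod 2) = (β : ZMod 2) + h w) ∧
          ∀ v, C v w = true → (((c v).testBit w).toNat : ZMod 2) + ((bits (c w)).card : ZMod 2) =
            (β : ZMod 2) + h w := by
        have e1 : (h w : ZMod 2) + h w = 0 := CharTwo.add_self_eq_zero _
        by_cases hw : Rt w = true
        · refine ⟨(bits (c w)).card + h w, fun _ => ?_, fun v hv => absurd hv (hR w hw v)⟩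
          push_cast
          linear_combination -e1
        · by_cases hv : ∃ v, C v w = true
          · obtain ⟨v, hv⟩ := hv
            refine ⟨((c v).testBit w).toNat + (bits (c w)).card + h w, fun hw' => absurd hw' hw,
              fun v' hv' => ?_⟩
            rw [hC v' v w hv' hv]
            push_cast
            linear_combination -e1
          · exact ⟨0, fun hw' => absurd hw' hw, fun v hv' => absurd ⟨v, hv'⟩ hv⟩
      obtain ⟨β, hβ1, hβ2⟩ := hβ
      refine ⟨β, fun a b v m l ha hb i => ?_⟩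
      rw [(hG _ _ _).1 ha, (hG _ _ _).1 hb, ← hf]
      refine (TSr_translate ?_ (hβ2 v) hβ1).symm
      intro v n hn
      rw [hc] at hn
      simp only [Bool.and_eq_true] at hn
      exact hn.1

end Pool.MP39df03
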