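import Pool.Agent.Lib.MP_39df03_lc.Parity

/-!
# Torsor systems over a tree
-/

namespace Pool.MP39df03

/-- the language: all relation symbols are binary -/
def ar2 : ℕ → ℕ := fun _ => 2

/-- the structure for `ar2` given by a family of binary relations -/
def ofRel (r : ℕ → ℕ → ℕ → Prop) : Str ar2 := fun i z => r i (z (0 : Fin 2)) (z (1 : Fin 2))

/-- the number of children of `w` in the set coded by `l` -/
def cnt (C : ℕ → ℕ → Bool) (w l : ℕ) : ℕ :=
  ((List.range l).filter fun n => C w n && l.testBit n).length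

/-- the relations of a torsor system, at the points `(v, m)` and `(w, l)`; `β` is the value of
the twist at `w` -/
def TSr (C : ℕ → ℕ → Bool) (Rt : ℕ → Bool) (x β i v m w l : ℕ) : Prop :=
  (i.unpair.1 = 0 ∧ w = i.unpair.2) ∨
  (i.unpair.1 = 1 ∧ v = w ∧ m.testBit i.unpair.2 ≠ l.testBit i.unpair.2) ∨
  (i.unpair.1 = 2 ∧ C w i.unpair.2 = false ∧ l.testBit i.unpair.2 = true) ∨
  (i.unpair.1 = 3 ∧ Rt w = true ∧ (cnt C w l + β) % 2 = 1) ∨
  (i.unpair.1 = 4 ∧ C v w = true ∧ ((m.testBit w).toNat + cnt C w l + β) % 2 = 1) ∨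
  (i.unpair.1 = 5 ∧ i.unpair.2 = x)

/-- the torsor system with twist `h` and label `x` -/
def TS (C : ℕ → ℕ → Bool) (Rt : ℕ → Bool) (x : ℕ) (h : ℕ → ℕ) : Str ar2 :=
  ofRel fun i a b => TSr C Rt x (h b.unpair.1) i a.unpair.1 a.unpair.2 b.unpair.1 b.unpair.2

/-! ### Bit sets -/

theorem exists_bits (S : Finset ℕ) : ∃ c : ℕ, ∀ n, c.testBit n = decide (n ∈ S) := by
  classical
  induction S using Finset.induction_on with
  | empty => exact ⟨0, by simp⟩
  | insert a S _ ih =>
    obtain ⟨c, hc⟩ := ih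
    refine ⟨c ||| 2 ^ a, fun n => ?_⟩
    rw [Nat.testBit_or, hc, Nat.testBit_two_pow]
    by_cases h1 : n ∈ S <;> by_cases h2 : a = n
    · simp [h1]
    · simp [h1]
    · subst h2; simp
    · simp [h1, h2, Ne.symm h2]

theorem testBit_of_le {l n : ℕ} (h : l ≤ n) : l.testBit n = false :=
  Nat.testBit_lt_two_pow (lt_of_le_of_lt h Nat.lt_two_pow_self)

/-- the set of bits -/
def bits (c : ℕ) : Finset ℕ := (Finset.range c).filter fun n => c.testBit n = true

theorem mem_bits {c n : ℕ} : n ∈ bits c ↔ c.testBit n = true := by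
  unfold bits
  rw [Finset.mem_filter, Finset.mem_range]
  refine ⟨fun h => h.2, fun h => ⟨?_, h⟩⟩
  by_contra hcon
  rw [testBit_of_le (not_lt.1 hcon)] at h
  exact absurd h (by simp)

theorem cnt_eq {C : ℕ → ℕ → Bool} {w l N : ℕ} (h : l ≤ N) :
    (cnt C w l : ZMod 2) =
      ∑ n ∈ Finset.range N, if C w n = true ∧ l.testBit n = true then 1 else 0 := by
  have h1 : cnt C w l = ((Finset.range l).filter fun n => C w n = true ∧ l.testBit n = true).card := by
    unfold cnt
    rw [Finset.card_def, Finset.filter_val, Finset.range_val, Multiset.range,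
      Multiset.filter_coe, Multiset.coe_card]
    congr 1
    refine List.filter_congr fun n _ => ?_
    rw [Bool.decide_and]; simp
  have h2 : ((Finset.range l).filter fun n => C w n = true ∧ l.testBit n = true) =
      (Finset.range N).filter fun n => C w n = true ∧ l.testBit n = true := by
    ext n
    simp only [Finset.mem_filter, Finset.mem_range]
    refine ⟨fun h' => ⟨by omega, h'.2⟩, fun h' => ⟨?_, h'.2⟩⟩
    by_contra hcon
    rw [testBit_of_le (not_lt.1 hcon)] at h'
    exact absurd h'.2.2 (by simp)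
  rw [h1, h2, Finset.card_filter]
  push_cast
  rfl

theorem cnt_xor {C : ℕ → ℕ → Bool} {w l l' : ℕ} :
    (cnt C w (l ^^^ l') : ZMod 2) = cnt C w l + cnt C w l' := by
  set N := max (l ^^^ l') (max l l') with hN
  rw [cnt_eq (N := N) (by omega), cnt_eq (N := N) (by omega), cnt_eq (N := N) (by omega),
    ← Finset.sum_add_distrib]
  refine Finset.sum_congr rfl fun n _ => ?_
  rw [Nat.testBit_xor]
  by_cases h1 : C w n = true
  · rcases h2 : l.testBit n with _ | _ <;> rcases h3 : l'.testBit n with _ | _ <;> simp [h1]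
    exact (CharTwo.add_self_eq_zero (1 : ZMod 2)).symm
  · simp [h1]

theorem cnt_bits {C : ℕ → ℕ → Bool} {w l : ℕ} (h : ∀ n, l.testBit n = true → C w n = true) :
    (cnt C w l : ZMod 2) = (bits l).card := by
  rw [cnt_eq (N := l) le_rfl, bits, Finset.card_filter]
  push_cast
  refine Finset.sum_congr rfl fun n _ => ?_
  by_cases h1 : l.testBit n = true
  · simp [h1, h n h1]
  · simp [h1]

theorem cnt_zero {C : ℕ → ℕ → Bool} {w : ℕ} : cnt C w 0 = 0 := by simp [cnt]

theorem mod_eq_one_iff {a b : ℕ} (h : (a : ZMod 2) = b) : a % 2 = 1 ↔ b % 2 = 1 := by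
  rw [zmod2_one_iff, zmod2_one_iff, h]

theorem mod_cast_of_iff {a b : ℕ} (h : a % 2 = 1 ↔ b % 2 = 1) : (a : ZMod 2) = b := by
  rw [zmod2_one_iff, zmod2_one_iff] at h
  rcases zmod2_cases (a : ZMod 2) with h1 | h1 <;> rcases zmod2_cases (b : ZMod 2) with h2 | h2
  · rw [h1, h2]
  · exact absurd (h.2 h2) (by rw [h1]; exact zero_ne_one)
  · exact absurd (h.1 h1) (by rw [h2]; exact zero_ne_one)
  · rw [h1, h2]

/-! ### Isomorphisms of structures -/

theorem IsoStr.refl {ar : ℕ → ℕ} (M : Str ar) : IsoStr M M := ⟨Equiv.refl _, fun _ _ => Iff.rfl⟩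

theorem IsoStr.symm {ar : ℕ → ℕ} {M N : Str ar} (h : IsoStr M N) : IsoStr N M := by
  obtain ⟨f, hf⟩ := h
  refine ⟨f.symm, fun i v => ?_⟩
  rw [hf]
  simp

theorem IsoStr.trans {ar : ℕ → ℕ} {M N K : Str ar} (h : IsoStr M N) (h' : IsoStr N K) :
    IsoStr M K := by
  obtain ⟨f, hf⟩ := h
  obtain ⟨g, hg⟩ := h'
  exact ⟨f.trans g, fun i v => (hf i v).trans (hg i _)⟩

/-- isomorphisms in the binary language -/
theorem iso2_iff {M N : Str ar2} : IsoStr M N ↔ ∃ f : ℕ ≃ ℕ, ∀ i a b,
    M i (![a, b] : Fin 2 → ℕ) ↔ N i (![f a, f b] : Fin 2 → ℕ) := by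
  constructor
  · rintro ⟨f, hf⟩
    refine ⟨f, fun i a b => ?_⟩
    rw [hf]
    have : (fun j : Fin 2 => f ((![a, b] : Fin 2 → ℕ) j)) = ![f a, f b] := by
      funext j; fin_cases j <;> rfl
    rw [← this]
    rfl
  · rintro ⟨f, hf⟩
    refine ⟨f, fun i v => ?_⟩
    have h1 : v = (![v (0 : Fin 2), v (1 : Fin 2)] : Fin 2 → ℕ) := by
      funext j
      change Fin 2 at j
      fin_cases j <;> rfl
    have h2 : (fun j => f (v j)) = (![f (v (0 : Fin 2)), f (v (1 : Fin 2))] : Fin 2 → ℕ) := by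
      funext j
      change Fin 2 at j
      fin_cases j <;> rfl
    rw [h2, ← hf, ← h1]

theorem ofRel_apply (r : ℕ → ℕ → ℕ → Prop) (i a b : ℕ) :
    ofRel r i (![a, b] : Fin 2 → ℕ) ↔ r i a b := Iff.rfl

variable {C : ℕ → ℕ → Bool} {Rt : ℕ → Bool}

/-- the effect of a translation on the relations -/
theorem TSr_translate {x β β' i v m w l : ℕ} {c : ℕ → ℕ}
    (hc : ∀ v n, (c v).testBit n = true → C v n = true)
    (h1 : C v w = true → (((c v).testBit w).toNat : ZMod 2) + ((bits (c w)).card : ZMod 2) =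
      (β : ZMod 2) + β')
    (h2 : Rt w = true → ((bits (c w)).card : ZMod 2) = (β : ZMod 2) + β') :
    TSr C Rt x β i v m w l ↔ TSr C Rt x β' i v (m ^^^ c v) w (l ^^^ c w) := by
  unfold TSr
  have hcnt : (cnt C w (l ^^^ c w) : ZMod 2) = cnt C w l + (bits (c w)).card := by
    rw [cnt_xor, cnt_bits (hc w)]
  refine or_congr Iff.rfl (or_congr ?_ (or_congr ?_ (or_congr ?_ (or_congr ?_ Iff.rfl))))
  · refine and_congr Iff.rfl (and_congr_right fun hvw => ?_)
    rw [Nat.testBit_xor, Nat.testBit_xor, hvw]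
    rcases m.testBit i.unpair.2 with _ | _ <;> rcases l.testBit i.unpair.2 with _ | _ <;>
      rcases (c w).testBit i.unpair.2 with _ | _ <;> simp
  · refine and_congr Iff.rfl (and_congr_right fun hC => ?_)
    rw [Nat.testBit_xor]
    have : (c w).testBit i.unpair.2 = false := by
      by_contra hcon
      rw [hc w _ (by simpa using hcon)] at hC
      exact absurd hC (by simp)
    rw [this]; simp
  · refine and_congr Iff.rfl (and_congr_right fun hR => mod_eq_one_iff ?_)
    push_cast
    rw [hcnt, h2 hR]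
    have e1 : (β' : ZMod 2) + β' = 0 := CharTwo.add_self_eq_zero _
    linear_combination -e1
  · refine and_congr Iff.rfl (and_congr_right fun hC => mod_eq_one_iff ?_)
    have e2 : ((((m ^^^ c v).testBit w).toNat : ℕ) : ZMod 2) =
        (m.testBit w).toNat + ((c v).testBit w).toNat := by
      rw [Nat.testBit_xor]
      rcases m.testBit w with _ | _ <;> rcases (c v).testBit w with _ | _ <;> simp
      exact (CharTwo.add_self_eq_zero (1 : ZMod 2)).symm
    push_cast
    rw [hcnt, e2]
    have e1 : (β' : ZMod 2) + β' = 0 := CharTwo.add_self_eq_zero _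
    linear_combination -e1 - h1 hC

/-- translation isomorphisms -/
theorem iso_of_translation {x : ℕ} {h h' c : ℕ → ℕ}
    (hc : ∀ v n, (c v).testBit n = true → C v n = true)
    (h1 : ∀ v w, C v w = true → (((c v).testBit w).toNat : ZMod 2) + ((bits (c w)).card : ZMod 2) =
      (h w : ZMod 2) + h' w)
    (h2 : ∀ w, Rt w = true → ((bits (c w)).card : ZMod 2) = (h w : ZMod 2) + h' w) :
    IsoStr (TS C Rt x h) (TS C Rt x h') := by
  rw [iso2_iff]
  let F : ℕ → ℕ := fun a => Nat.pair a.unpair.1 (a.unpair.2 ^^^ c a.unpair.1)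
  have hF : ∀ a, F (F a) = a := by
    intro a
    simp only [F, Nat.unpair_pair, Nat.xor_assoc, Nat.xor_self, Nat.xor_zero, Nat.pair_unpair]
  refine ⟨⟨F, F, hF, hF⟩, fun i a b => ?_⟩
  unfold TS
  rw [ofRel_apply, ofRel_apply]
  simp only [Equiv.coe_fn_mk, F, Nat.unpair_pair]
  exact TSr_translate hc (h1 _ _) (h2 _)

theorem iso_of_sol {x : ℕ} {h h' : ℕ → ℕ}
    (hS : Sol (fun v w => C v w = true) (fun w => Rt w = true)
      (fun w => (h w : ZMod 2) + h' w)) :
    IsoStr (TS C Rt x h) (TS C Rt x h') := by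
  obtain ⟨g, hg1, hg2, hg3⟩ := hS
  choose c hc using fun v => exists_bits (g v)
  have hbits : ∀ v, bits (c v) = g v := by
    intro v; ext n; rw [mem_bits, hc, decide_eq_true_eq]
  refine iso_of_translation (c := c) ?_ ?_ ?_
  · intro v n hn
    rw [hc, decide_eq_true_eq] at hn
    exact hg1 v n hn
  · intro v w hC
    have h3 := hg2 v w hC
    beta_reduce at h3
    rw [hbits, ← h3, hc]
    by_cases hw : w ∈ g v <;> simp [hw]
  · intro w hw
    rw [hbits]; exact hg3 w hw

theorem sol_of_iso {x x' : ℕ} {h h' : ℕ → ℕ} (hI : IsoStr (TS C Rt x h) (TS C Rt x' h')) :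
    x = x' ∧ Sol (fun v w => C v w = true) (fun w => Rt w = true)
      (fun w => (h w : ZMod 2) + h' w) := by
  rw [iso2_iff] at hI
  obtain ⟨f, hf⟩ := hI
  have hf' : ∀ i a b, TSr C Rt x (h b.unpair.1) i a.unpair.1 a.unpair.2 b.unpair.1 b.unpair.2 ↔
      TSr C Rt x' (h' (f b).unpair.1) i (f a).unpair.1 (f a).unpair.2 (f b).unpair.1
        (f b).unpair.2 := hf
  refine ⟨?_, ?_⟩
  · have := (hf' (Nat.pair 5 x) 0 0).1 (by simp [TSr])
    simpa [TSr] using this
  have hsort : ∀ b, (f b).unpair.1 = b.unpair.1 := by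
    intro b
    have := (hf' (Nat.pair 0 b.unpair.1) b b).1 (by simp [TSr])
    simpa [TSr] using this
  set c : ℕ → ℕ := fun v => (f (Nat.pair v 0)).unpair.2 with hcdef
  have hfp : ∀ v m, (f (Nat.pair v m)).unpair.1 = v := by
    intro v m; rw [hsort, Nat.unpair_pair]
  have htrans : ∀ v m, (f (Nat.pair v m)).unpair.2 = m ^^^ c v := by
    intro v m
    refine Nat.eq_of_testBit_eq fun n => ?_
    have := hf' (Nat.pair 1 n) (Nat.pair v 0) (Nat.pair v m)
    simp only [TSr, Nat.unpair_pair, hfp, Nat.zero_testBit] at this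
    rw [Nat.testBit_xor]
    simp only [hcdef]
    revert this
    rcases m.testBit n with _ | _ <;>
      rcases (f (Nat.pair v m)).unpair.2.testBit n with _ | _ <;>
        rcases (f (Nat.pair v 0)).unpair.2.testBit n with _ | _ <;> simp
  have hchild : ∀ w n, (c w).testBit n = true → C w n = true := by
    intro w n hn
    by_contra hC
    have hC : C w n = false := by simpa using hC
    have := hf' (Nat.pair 2 n) (Nat.pair w 0) (Nat.pair w 0)
    simp only [TSr, Nat.unpair_pair, hfp, Nat.zero_testBit, hC] at this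
    simp only [hcdef] at hn
    simp [hn] at this
  refine ⟨fun v => bits (c v), fun v n hn => hchild v n (mem_bits.1 hn), ?_, ?_⟩
  · intro v w hC
    have := hf' (Nat.pair 4 0) (Nat.pair v 0) (Nat.pair w 0)
    simp only [TSr, Nat.unpair_pair, hfp, hC, cnt_zero] at this
    have h1 : (0 + 0 + h w) % 2 = 1 ↔ (((c v).testBit w).toNat + cnt C w (c w) + h' w) % 2 = 1 := by
      simpa [hcdef] using this
    have h2 := mod_cast_of_iff h1
    push_cast at h2
    rw [cnt_bits (hchild w)] at h2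
    have h3 : (if w ∈ bits (c v) then (1 : ZMod 2) else 0) = ((c v).testBit w).toNat := by
      by_cases h4 : (c v).testBit w = true
      · rw [if_pos (mem_bits.2 h4), h4]; simp
      · rw [if_neg (fun h => h4 (mem_bits.1 h))]
        have : (c v).testBit w = false := by simpa using h4
        rw [this]; simp
    rw [h3]
    have e1 : (h' w : ZMod 2) + h' w = 0 := CharTwo.add_self_eq_zero _
    linear_combination -h2 - e1
  · intro w hw
    have := hf' (Nat.pair 3 0) (Nat.pair w 0) (Nat.pair w 0)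
    simp only [TSr, Nat.unpair_pair, hfp, hw, cnt_zero] at this
    have h1 : (0 + h w) % 2 = 1 ↔ (cnt C w (c w) + h' w) % 2 = 1 := by
      simpa [hcdef] using this
    have h2 := mod_cast_of_iff h1
    push_cast at h2
    rw [cnt_bits (hchild w)] at h2
    have e1 : (h' w : ZMod 2) + h' w = 0 := CharTwo.add_self_eq_zero _
    linear_combination -h2 - e1

end Pool.MP39df03
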