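import Pool.Agent.Lib.MP_39df03_lc.Basic

/-!
# The true path, and paths through the constructed tree
-/

namespace Pool.MP39df03

open Nat.Partrec (Code)
open Nat.Partrec.Code (evaln eval)

variable {T : ℕ → Bool}

/-- `γ` is on the true path -/
def TPs (T : ℕ → Bool) (γ : List Bool) : Prop :=
  (∀ s₀, ∃ s, s₀ ≤ s ∧ γ <+: del T s) ∧ ∃ s₀, ∀ s, s₀ ≤ s → ¬ leftOf (del T s) γ

theorem TPs_nil : TPs T [] :=
  ⟨fun s₀ => ⟨s₀, le_rfl, List.nil_prefix⟩, 0, fun _ _ => leftOf_nil _⟩

theorem TPs_step {γ : List Bool} (h : TPs T γ) : TPs T (γ ++ [true]) ∨ TPs T (γ ++ [false]) := by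
  obtain ⟨h1, s₁, h2⟩ := h
  by_cases hi : ∀ s₀, ∃ s, s₀ ≤ s ∧ (γ ++ [true]) <+: del T s
  · left
    exact ⟨hi, s₁, fun s hs h => h2 s hs (leftOf_append_true h)⟩
  · right
    push Not at hi
    obtain ⟨s₂, hs₂⟩ := hi
    refine ⟨fun s₀ => ?_, max s₁ s₂, fun s hs h => ?_⟩
    · obtain ⟨s, hs, hγ⟩ := h1 (max (max s₀ s₂) (γ.length + 1))
      have h3 : s₀ ≤ s := by omega
      have h4 : s₂ ≤ s := by omega
      have h5 : γ.length < s := by omega
      refine ⟨s, h3, ?_⟩
      have h6 := del_take_succ (T := T) h5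
      have h7 : (del T s).take γ.length = γ := (List.prefix_iff_eq_take.1 hγ).symm
      rw [h7] at h6
      have h8 : (del T s).take (γ.length + 1) <+: del T s := List.take_prefix _ _
      rw [h6] at h8
      by_cases hd : (∀ n ∈ Nn T s, (γ ++ [true]) <+: gs n →
          (evaln s (Denumerable.ofNat Code γ.length) n).isSome = true)
      · rw [decide_eq_true hd] at h8
        exact absurd h8 (hs₂ s h4)
      · rw [decide_eq_false hd] at h8
        exact h8
    · rcases leftOf_append_false h with h' | h'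
      · exact h2 s (by omega) h'
      · exact hs₂ s (by omega) h'

open Classical in
/-- the true path -/
noncomputable def tp (T : ℕ → Bool) : ℕ → List Bool
  | 0 => []
  | k + 1 => if TPs T (tp T k ++ [true]) then tp T k ++ [true] else tp T k ++ [false]

theorem tp_TPs (k : ℕ) : TPs T (tp T k) := by
  induction k with
  | zero => exact TPs_nil
  | succ k ih =>
    unfold tp
    split_ifs with h
    · exact h
    · exact (TPs_step ih).resolve_left h

@[simp] theorem tp_length (k : ℕ) : (tp T k).length = k := by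
  induction k with
  | zero => rfl
  | succ k ih =>
    unfold tp
    split_ifs <;> simp [ih]

theorem tp_prefix {j k : ℕ} (h : j ≤ k) : tp T j <+: tp T k := by
  induction h with
  | refl => exact List.prefix_rfl
  | step _ ih =>
    refine ih.trans ?_
    conv_rhs => unfold tp
    split_ifs <;> exact List.prefix_append _ _

theorem TPs_unique {γ : List Bool} (h : TPs T γ) : γ = tp T γ.length := by
  rcases left_trichotomy γ (tp T γ.length) with h1 | h1 | h1 | h1
  · exact h1.eq_of_length (by simp)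
  · exact (h1.eq_of_length (by simp)).symm
  · exfalso
    obtain ⟨s₀, hs₀⟩ := (tp_TPs (T := T) γ.length).2
    obtain ⟨s, hs, hγ⟩ := h.1 s₀
    exact hs₀ s hs (leftOf_prefix h1 hγ List.prefix_rfl)
  · exfalso
    obtain ⟨s₀, hs₀⟩ := h.2
    obtain ⟨s, hs, hγ⟩ := (tp_TPs (T := T) γ.length).1 s₀
    exact hs₀ s hs (leftOf_prefix h1 hγ List.prefix_rfl)

theorem TPs_of_prefix {γ γ' : List Bool} (h : γ <+: γ') (h' : TPs T γ') : TPs T γ := by
  obtain ⟨h1, s₀, h2⟩ := h'
  refine ⟨fun s₀ => ?_, s₀, fun s hs hl => h2 s hs (leftOf_prefix hl List.prefix_rfl h)⟩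
  obtain ⟨s, hs, hγ⟩ := h1 s₀
  exact ⟨s, hs, h.trans hγ⟩

/-- finiteness of lists of nodes -/
theorem finite_lt (s₀ : ℕ) : {n | Node T n ∧ st n < s₀}.Finite := by
  refine (Nn T s₀).finite_toSet.subset ?_
  rintro n ⟨h1, h2⟩
  exact mem_of_node h1 h2

/-- if `φ_e` converges everywhere then the true path believes it -/
theorem tp_total {e : ℕ}
    (he : ∀ n, ∃ k, (evaln k (Denumerable.ofNat Code e) n).isSome = true) :
    tp T (e + 1) = tp T e ++ [true] := by
  have hle := tp_TPs (T := T) e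
  have h : TPs T (tp T e ++ [true]) := by
    obtain ⟨h1, s₁, h2⟩ := hle
    refine ⟨?_, s₁, fun s hs h => h2 s hs (leftOf_append_true h)⟩
    by_contra hi
    push Not at hi
    obtain ⟨s₂, hs₂⟩ := hi
    -- nodes with that guess are all in `Nn T s₂`
    have h3 : ∀ n, Node T n → (tp T e ++ [true]) <+: gs n → st n < s₂ := by
      intro n hn hg
      by_contra hlt
      push Not at hlt
      have h0 : n ≠ 0 := by
        rintro rfl
        rw [gs_zero] at hg
        simp at hg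
      exact hs₂ _ hlt (hg.trans (node_info hn h0).2.2.2.1)
    have h4 : ∃ s₃, ∀ n ∈ Nn T s₂, (evaln s₃ (Denumerable.ofNat Code e) n).isSome = true := by
      have : ∀ l : List ℕ, ∃ s₃, ∀ n ∈ l,
          (evaln s₃ (Denumerable.ofNat Code e) n).isSome = true := by
        intro l
        induction l with
        | nil => exact ⟨0, by simp⟩
        | cons a l ih =>
          obtain ⟨k1, hk1⟩ := ih
          obtain ⟨k2, hk2⟩ := he a
          refine ⟨max k1 k2, fun n hn => ?_⟩
          rcases List.mem_cons.1 hn with rfl | hn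
          · obtain ⟨x, hx⟩ := Option.isSome_iff_exists.1 hk2
            rw [Nat.Partrec.Code.evaln_mono (le_max_right k1 k2) hx]; rfl
          · obtain ⟨x, hx⟩ := Option.isSome_iff_exists.1 (hk1 n hn)
            rw [Nat.Partrec.Code.evaln_mono (le_max_left k1 k2) hx]; rfl
      exact this _
    obtain ⟨s₃, hs₃⟩ := h4
    obtain ⟨s, hs, hγ⟩ := h1 (max (max s₂ s₃) (e + 1))
    refine hs₂ s (by omega) (true_of_conv hγ (by rw [tp_length]; omega) ?_)
    intro n hn hg
    rw [tp_length]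
    have h5 : n ∈ Nn T s₂ := mem_of_node (node_of_mem hn) (h3 n (node_of_mem hn) hg)
    obtain ⟨x, hx⟩ := Option.isSome_iff_exists.1 (hs₃ n h5)
    have : s₃ ≤ s := by omega
    rw [Nat.Partrec.Code.evaln_mono this hx]; rfl
  have := TPs_unique h
  rw [this]
  simp

/-- the slot `(t, γ)` at `v` -/
def Slot (T : ℕ → Bool) (v t : ℕ) (γ : List Bool) : Set ℕ :=
  {n | Node T n ∧ n ≠ 0 ∧ par n = v ∧ tn n = t ∧ gs n = γ}

theorem slot_eq {v t : ℕ} {γ : List Bool} {n : ℕ} (h : n ∈ Slot T v t γ) :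
    n = mk v t γ (st n) := by
  obtain ⟨h1, h2, rfl, rfl, rfl⟩ := h
  exact (node_info h1 h2).2.2.2.2.2.2.2.2.2.1

theorem slot_finite {v t : ℕ} {γ : List Bool} (hγ : TPs T γ) : (Slot T v t γ).Finite := by
  by_contra hinf
  have hinf : (Slot T v t γ).Infinite := hinf
  obtain ⟨s₀, hs₀⟩ := hγ.2
  -- the part created late
  set X : Set ℕ := {n | n ∈ Slot T v t γ ∧ s₀ ≤ st n} with hX
  have hXinf : X.Infinite := by
    intro hfin
    refine hinf ((hfin.union (finite_lt (T := T) s₀)).subset ?_)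
    intro n hn
    by_cases h : st n < s₀
    · right; exact ⟨hn.1, h⟩
    · left; exact ⟨hn, by omega⟩
  have hbig : ∀ k, ∃ n ∈ X, k ≤ st n := by
    intro k
    by_contra hcon
    push Not at hcon
    refine hXinf ((finite_lt (T := T) k).subset ?_)
    intro n hn
    exact ⟨hn.1.1, hcon n hn⟩
  -- `v` is never dead
  have hv : ∀ s, v ∉ Dd T s := by
    intro s hs
    obtain ⟨n, hn, hk⟩ := hbig s
    obtain ⟨⟨h1, h2, h3, _, _⟩, _⟩ := hn
    have := (node_info h1 h2).2.1
    rw [h3] at this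
    exact this (D_mono (by omega) hs)
  -- earlier members are dead when later ones are created
  have hdead : ∀ n ∈ X, ∀ n' ∈ X, st n < st n' → n ∈ Dd T (st n' + 1) := by
    rintro n ⟨⟨h1, h2, h3, h4, h5⟩, _⟩ n' ⟨⟨h1', h2', h3', h4', h5'⟩, _⟩ hlt
    refine (node_info h1' h2').2.2.2.2.2.2.2.2.2.2 n (mem_of_node h1 hlt) ?_ ?_ ?_
    · rw [h3, h3']
    · rw [h4, h4']
    · rw [h5, h5']
  -- each member is killed by a mark
  have hmark : ∀ n ∈ X, ∃ e, e < γ.length ∧ ∃ s, st n < s ∧ (e, n) ∈ Mm T (s + 1) ∧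
      (∀ n' ∈ X, st n < st n' → s ≤ st n') ∧
      ∀ n'' ∈ Nn T s, n'' ∈ Slot T v t γ → (e, n'') ∉ Mm T s := by
    intro n hn
    obtain ⟨n', hn', hlt⟩ := hbig (st n + 1)
    have hex : ∃ s, n ∈ Dd T (s + 1) := ⟨_, hdead n hn n' hn' (by omega)⟩
    classical
    let s := Nat.find hex
    have hs : n ∈ Dd T (s + 1) := Nat.find_spec hex
    have hs' : n ∉ Dd T s := by
      rcases Nat.eq_zero_or_pos s with h | h
      · rw [h]; simp [Dd, state]
      · have := Nat.find_min hex (m := s - 1) (by omega)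
        rwa [Nat.sub_add_cancel h] at this
    obtain ⟨⟨h1, h2, h3, h4, h5⟩, h6⟩ := hn
    rcases mem_D_succ.1 hs with h | ⟨hns, a, ha, hkill⟩
    · exact absurd h hs'
    have hst : st n < s := (N_st hns).resolve_left h2
    have han : a = n := by
      rcases desc_cases ha with h | h
      · exact h
      · exfalso
        refine hv (s + 1) (mem_D_succ.2 (Or.inr ⟨?_, a, ?_, hkill⟩))
        · rw [← h3]; exact N_par hns
        · rw [← h3]; exact h
    subst han
    rcases hkill with h | ⟨e, he⟩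
    · rw [h5] at h
      exact absurd h (hs₀ s (by omega))
    rcases mem_M_succ.1 he with h | ⟨hes, _, hmc⟩
    · exact absurd (M_sub_D h) hs'
    obtain ⟨_, _, _, hmc⟩ := hmc
    rcases hmc with ⟨h7, h8⟩ | h7
    · refine ⟨e, by rw [← h5]; exact h7, s, hst, he, ?_, ?_⟩
      · intro n' hn' hlt'
        exact Nat.find_min' hex (hdead a ⟨⟨h1, h2, h3, h4, h5⟩, h6⟩ n' hn' hlt')
      · rintro n'' hn'' ⟨_, _, h3', h4', h5'⟩
        exact h8 n'' hn'' (by rw [h3', h3]) (by rw [h4', h4]) (by rw [h5', h5])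
    · exact absurd h7 hs'
  choose! E hE using hmark
  refine hXinf (Set.Finite.of_injOn (f := E) (t := {e | e < γ.length}) ?_ ?_
    (Set.finite_lt_nat _))
  · intro n hn
    exact (hE n hn).1
  · have hmain : ∀ n1 ∈ X, ∀ n2 ∈ X, st n1 < st n2 → E n1 ≠ E n2 := by
      intro n1 h1 n2 h2 hlt heq
      obtain ⟨_, s1, _, h3, h4, _⟩ := hE n1 h1
      obtain ⟨_, s2, h5, _, _, h6⟩ := hE n2 h2
      have h7 := h4 n2 h2 hlt
      refine h6 n1 (mem_of_node h1.1.1 (by omega)) h1.1 ?_
      rw [← heq]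
      exact M_mono (by omega) h3
    intro n1 h1 n2 h2 heq
    rcases lt_trichotomy (st n1) (st n2) with h | h | h
    · exact absurd heq (hmain n1 h1 n2 h2 h)
    · rw [slot_eq h1.1, slot_eq h2.1, h]
    · exact absurd heq.symm (hmain n2 h2 n1 h1 h)

/-- `v` is on the true path and never dies -/
def Alive (T : ℕ → Bool) (v : ℕ) : Prop := Node T v ∧ (∀ s, v ∉ Dd T s) ∧ TPs T (gs v)

theorem alive_zero : Alive T 0 :=
  ⟨zero_mem_N _, zero_not_mem_D, by rw [gs_zero]; exact TPs_nil⟩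

theorem alive_child {v t : ℕ} (hv : Alive T v) (ht0 : t ≠ 0) (htp : par t = tn v)
    (hT : T t = true) : ∃ n, n ≠ 0 ∧ Alive T n ∧ par n = v ∧ tn n = t := by
  obtain ⟨h1, h2, h3⟩ := hv
  set m := max (gs v).length (t + 1) with hm
  have hTP := tp_TPs (T := T) m
  have hpre : gs v <+: tp T m := by
    rw [TPs_unique h3]
    exact tp_prefix (le_max_left _ _)
  have hfin := slot_finite (v := v) (t := t) hTP
  -- bound on stages of members of the slot
  obtain ⟨s₁, hs₁⟩ : ∃ s₁, ∀ n ∈ Slot T v t (tp T m), st n < s₁ := by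
    obtain ⟨b, hb⟩ := (hfin.image st).bddAbove
    refine ⟨b + 1, fun n hn => Nat.lt_succ_of_le (hb ⟨n, hn, rfl⟩)⟩
  by_cases hall : ∀ n ∈ Slot T v t (tp T m), ∃ s, n ∈ Dd T s
  · exfalso
    obtain ⟨s₂, hs₂⟩ : ∃ s₂, ∀ n ∈ Slot T v t (tp T m), n ∈ Dd T s₂ := by
      choose! f hf using hall
      obtain ⟨b, hb⟩ := (hfin.image f).bddAbove
      exact ⟨b, fun n hn => D_mono (hb ⟨n, hn, rfl⟩) (hf n hn)⟩
    obtain ⟨s, hs, hγ⟩ := hTP.1 (max (max s₁ s₂) (max m (st v + 1)))
    have e1 : s₁ ≤ s := by omega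
    have e2 : s₂ ≤ s := by omega
    have e3 : m ≤ s := by omega
    have e4 : st v < s := by omega
    have htake : (del T s).take m = tp T m := by
      rw [List.prefix_iff_eq_take, tp_length] at hγ
      exact hγ.symm
    have hnew : mk v t (tp T m) s ∈ Nn T (s + 1) := by
      refine mem_N_succ.2 (Or.inr ⟨v, m, t, mem_of_node h1 e4, e3, by omega, ?_, by rw [htake]⟩)
      refine ⟨h2 _, ht0, htp, hT, by rw [htake]; exact hpre, ?_⟩
      intro n hn h4 h5 h6
      rw [htake] at h6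
      refine D_mono (by omega) (hs₂ n ⟨node_of_mem hn, ?_, h4, h5, h6⟩)
      rintro rfl
      rw [tn_zero] at h5
      exact ht0 h5.symm
    have := hs₁ (mk v t (tp T m) s) ⟨node_of_mem hnew, by simp, by simp, by simp, by simp⟩
    rw [st_mk] at this
    omega
  · push Not at hall
    obtain ⟨n, ⟨h4, h5, h6, h7, h8⟩, h9⟩ := hall
    exact ⟨n, h5, ⟨h4, h9, by rw [h8]; exact hTP⟩, h6, h7⟩

/-- child relation of the constructed tree -/
def Chl (T : ℕ → Bool) (v n : ℕ) : Prop := n ≠ 0 ∧ Node T n ∧ par n = v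

/-- child relation of the given tree -/
def TCh (T : ℕ → Bool) (v n : ℕ) : Prop := n ≠ 0 ∧ T n = true ∧ par n = v

/-- existence of a path from `r` -/
def HasPath (C : ℕ → ℕ → Prop) (r : ℕ) : Prop := ∃ q : ℕ → ℕ, q 0 = r ∧ ∀ i, C (q i) (q (i + 1))

theorem hasPath_iff : HasPath (Chl T) 0 ↔ HasPath (TCh T) 0 := by
  constructor
  · rintro ⟨q, h0, hq⟩
    refine ⟨fun i => tn (q i), by simp [h0], fun i => ?_⟩
    obtain ⟨h1, h2, h3⟩ := hq i
    have := node_info h2 h1
    refine ⟨this.2.2.2.2.2.2.1, this.2.2.2.2.2.2.2.2.1, ?_⟩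
    rw [this.2.2.2.2.2.2.2.1, h3]
  · rintro ⟨p, h0, hp⟩
    have hex : ∀ (i : ℕ) (v : {v // Alive T v ∧ tn v = p i}),
        ∃ n : {n // Alive T n ∧ tn n = p (i + 1)}, Chl T v.1 n.1 := by
      rintro i ⟨v, hv, hvt⟩
      obtain ⟨h1, h2, h3⟩ := hp i
      obtain ⟨n, h4, h5, h6, h7⟩ := alive_child hv h1 (by rw [h3, hvt]) h2
      exact ⟨⟨n, h5, h7⟩, h4, h5.1, h6⟩
    choose F hF using hex
    let q : (i : ℕ) → {v // Alive T v ∧ tn v = p i} := fun i =>
      Nat.rec (motive := fun i => {v // Alive T v ∧ tn v = p i})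
        ⟨0, alive_zero, by rw [h0, tn_zero]⟩ (fun i v => F i v) i
    exact ⟨fun i => (q i).1, rfl, fun i => hF i (q i)⟩

end Pool.MP39df03
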